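import Pool.Agent.X105.BE.Bmo1

set_option autoImplicit false

namespace Pool.Agent.X105.BE

open MeasureTheory Complex Set Metric ComplexConjugate Filter Topology

noncomputable section

lemma memLp_cont {f : ℝ → ℂ} (hf : Continuous f) : MemLp f 2 mT := by
  rw [memLp_two_iff_integrable_sq_norm hf.aestronglyMeasurable]
  exact integrable_mT (hf.norm.pow 2)

/-- an `H²` function is the Poisson integral of an `L²` function -/
theorem exists_bd {k : ℂ → ℂ} (hk : DifferentiableOn ℂ k (ball 0 1)) {C : ℝ}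
    (hC : ∀ R, 0 < R → R < 1 → ∫ θ, ‖k (circleMap 0 R θ)‖ ^ 2 ∂mT ≤ C) :
    ∃ b : ℝ → ℂ, MemLp b 2 mT ∧ ∀ z : ℂ, ‖z‖ < 1 → ∫ θ, (Pk z θ : ℂ) * b θ ∂mT = k z := by
  have hab : ∀ n : ℕ, (0 : ℝ) < 1 - 1 / (n + 2) ∧ 1 - 1 / ((n : ℝ) + 2) < 1 := by
    intro n
    have hn : (0 : ℝ) ≤ n := Nat.cast_nonneg n
    refine ⟨?_, ?_⟩
    · rw [sub_pos, div_lt_one (by positivity)]; linarith
    · have : 0 < 1 / ((n : ℝ) + 2) := by positivity
      linarith
  set R : ℕ → ℝ := fun n => 1 - 1 / ((n : ℝ) + 2) with hR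
  have hRt : Tendsto R atTop (𝓝 1) := by
    have : Tendsto (fun n : ℕ => 1 / ((n : ℝ) + 2)) atTop (𝓝 0) := by
      apply tendsto_const_nhds.div_atTop
      exact tendsto_atTop_add_const_right _ _ tendsto_natCast_atTop_atTop
    have h2 := this.const_sub 1
    rw [sub_zero] at h2
    exact h2
  have hcn : ∀ n, Continuous fun θ => k (circleMap 0 (R n) θ) := fun n =>
    cont_circ hk.continuousOn (hab n).1.le (hab n).2
  set f : ℕ → Lp ℂ 2 mT := fun n => (memLp_cont (hcn n)).toLp _ with hf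
  have hfc : ∀ n, (f n : ℝ → ℂ) =ᵐ[mT] fun θ => k (circleMap 0 (R n) θ) := fun n =>
    MemLp.coeFn_toLp _
  have hnorm : ∀ n, ‖f n‖ ≤ Real.sqrt C := by
    intro n
    apply Real.le_sqrt_of_sq_le
    rw [← inner_self_eq_norm_sq (𝕜 := ℂ), L2.inner_def]
    have e1 : ∫ θ, inner ℂ (f n θ) (f n θ) ∂mT =
        ((∫ θ, ‖k (circleMap 0 (R n) θ)‖ ^ 2 ∂mT : ℝ) : ℂ) := by
      rw [← integral_complex_ofReal]
      apply integral_congr_ae
      filter_upwards [hfc n] with θ hθ
      rw [hθ, inner_self_eq_norm_sq_to_K]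
      simp
    rw [e1, RCLike.re_to_complex, ofReal_re]
    exact hC _ (hab n).1 (hab n).2
  -- weak compactness
  set u : ℕ → WeakDual ℂ (Lp ℂ 2 mT) := fun n =>
    StrongDual.toWeakDual (InnerProductSpace.toDual ℂ (Lp ℂ 2 mT) (f n)) with hu
  have hK := WeakDual.isCompact_closedBall (𝕜 := ℂ) (E := Lp ℂ 2 mT) 0 (Real.sqrt C)
  set U : Ultrafilter ℕ := hyperfilter ℕ with hU
  obtain ⟨φ, hφ, hφt⟩ := hK.ultrafilter_le_nhds (U.map u) (by
    rw [Ultrafilter.coe_map, le_principal_iff, mem_map]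
    apply univ_mem'
    intro n
    simp only [mem_preimage]
    rw [mem_closedBall, dist_zero_right]
    have : ‖InnerProductSpace.toDual ℂ (Lp ℂ 2 mT) (f n)‖ ≤ Real.sqrt C := by
      rw [LinearIsometryEquiv.norm_map]; exact hnorm n
    exact this)
  have hφt' : Tendsto u U (𝓝 φ) := hφt
  set b := (InnerProductSpace.toDual ℂ (Lp ℂ 2 mT)).symm (WeakDual.toStrongDual φ) with hb
  refine ⟨b, Lp.memLp b, fun z hz => ?_⟩
  have hPc : Continuous fun θ => (Pk z θ : ℂ) := continuous_ofReal.comp (Pk_cont hz)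
  set P : Lp ℂ 2 mT := (memLp_cont hPc).toLp _ with hP
  have hPe : (P : ℝ → ℂ) =ᵐ[mT] fun θ => (Pk z θ : ℂ) := MemLp.coeFn_toLp _
  -- values of the functionals
  have hval : ∀ n, u n P = (starRingEnd ℂ) (k (R n * z)) := by
    intro n
    have h1 : u n P = inner ℂ (f n) P := rfl
    have hkRdc : DiffContOnCl ℂ (fun z => k (R n * z)) (ball 0 1) := by
      apply DifferentiableOn.diffContOnCl
      rw [closure_ball _ one_ne_zero]
      apply hk.comp (differentiableOn_id.const_mul _)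
      intro w hw
      rw [mem_closedBall_zero_iff] at hw
      rw [mem_ball_zero_iff]
      exact (Rz_mem (hab n).1.le (hab n).2 hw).trans_lt (hab n).2
    have h2 := poisson_w0 hkRdc hz
    rw [h1, L2.inner_def, ← h2, ← integral_conj]
    apply integral_congr_ae
    filter_upwards [hfc n, hPe] with θ h3 h4
    rw [h3, h4, RCLike.inner_apply, circleMap_eq, map_mul, conj_ofReal]
  have hlim1 : Tendsto (fun n => u n P) U (𝓝 (φ P)) :=
    ((WeakDual.eval_continuous P).tendsto φ).comp hφt'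
  have hlim2 : Tendsto (fun n => u n P) U (𝓝 ((starRingEnd ℂ) (k z))) := by
    simp_rw [hval]
    have hle : (U : Filter ℕ) ≤ atTop := by rw [← Nat.cofinite_eq_atTop]; exact hyperfilter_le_cofinite
    refine Tendsto.mono_left ?_ hle
    apply (continuous_conj.tendsto _).comp
    have hk1 : ContinuousAt k z :=
      (hk.continuousOn z (mem_ball_zero_iff.2 hz)).continuousAt
        (isOpen_ball.mem_nhds (mem_ball_zero_iff.2 hz))
    apply hk1.tendsto.comp
    have : Tendsto (fun n => (R n : ℂ) * z) atTop (𝓝 ((1 : ℝ) * z)) :=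
      ((continuous_ofReal.tendsto _).comp hRt).mul_const z
    simpa using this
  have heq := tendsto_nhds_unique hlim1 hlim2
  have h5 : φ P = inner ℂ b P := by
    have : InnerProductSpace.toDual ℂ (Lp ℂ 2 mT) b = WeakDual.toStrongDual φ := by
      rw [hb]; exact LinearIsometryEquiv.apply_symm_apply _ _
    have h6 : (InnerProductSpace.toDual ℂ (Lp ℂ 2 mT) b) P = inner ℂ b P := rfl
    rw [← h6, this]; rfl
  rw [h5, L2.inner_def] at heq
  have h7 := congrArg (starRingEnd ℂ) heq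
  rw [Complex.conj_conj, ← integral_conj] at h7
  rw [← h7]
  apply integral_congr_ae
  filter_upwards [hPe] with θ h4
  rw [h4, RCLike.inner_apply, map_mul, conj_ofReal, Complex.conj_conj]

end

end Pool.Agent.X105.BE
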