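import Pool.Agent.X105.BE.Main

set_option autoImplicit false

namespace Pool.Agent.X105.BE

open MeasureTheory Complex Set Metric ComplexConjugate Filter Topology

noncomputable section

lemma CP_analytic {w0 : ℂ → ℂ} (hw0 : DiffContOnCl ℂ w0 (ball 0 1)) {z : ℂ} (hz : ‖z‖ < 1) :
    CP (fun θ => w0 (ec θ)) z = w0 z := by
  have h := DiffContOnCl.circleAverage_smul_div (f := w0) (c := 0) (R := 1) (w := z)
    (by rw [abs_one]; exact hw0) (by rw [abs_one, mem_ball_zero_iff]; exact hz)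
  rw [cA_eq] at h
  unfold CP
  refine Eq.trans ?_ h
  congr 1; ext θ
  simp only [ec, sub_zero, smul_eq_mul]
  ring

lemma cont_bd {w0 : ℂ → ℂ} (hw0 : DiffContOnCl ℂ w0 (ball 0 1)) : Continuous fun θ => w0 (ec θ) := by
  have h := hw0.2
  rw [closure_ball _ one_ne_zero] at h
  exact h.comp_continuous ec_cont fun θ => by rw [mem_closedBall_zero_iff, norm_ec]

lemma poisson_w0 {w0 : ℂ → ℂ} (hw0 : DiffContOnCl ℂ w0 (ball 0 1)) {z : ℂ} (hz : ‖z‖ < 1) :
    ∫ θ, (Pk z θ : ℂ) * w0 (ec θ) ∂mT = w0 z := by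
  have h := DiffContOnCl.circleAverage_poissonKernel_smul (f := w0) (c := 0) (R := 1) (w := z)
    hw0 (by rw [mem_ball_zero_iff]; exact hz)
  rw [cA_eq] at h
  refine Eq.trans ?_ h
  congr 1; ext θ
  rw [Pi.smul_apply', Complex.real_smul, Pk_eq hz, poissonKernel_def]
  simp only [sub_zero]
  rw [show circleMap 0 1 θ = ec θ from rfl, norm_ec]
  norm_num

/-- circle means of the modulus of an analytic function are bounded by the boundary mean -/
lemma mean_le_bd {w0 : ℂ → ℂ} (hw0 : DiffContOnCl ℂ w0 (ball 0 1)) {r : ℝ} (hr0 : 0 ≤ r)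
    (hr : r < 1) : ∫ φ, ‖w0 (circleMap 0 r φ)‖ ∂mT ≤ ∫ θ, ‖w0 (ec θ)‖ ∂mT := by
  have hc := cont_bd hw0
  set v : ℝ → ℝ := fun θ => ‖w0 (ec θ)‖ with hv
  have hvc : Continuous v := hc.norm
  have hvcc : Continuous fun θ => (v θ : ℂ) := continuous_ofReal.comp hvc
  have hcm : ∀ φ, ‖circleMap 0 r φ‖ < 1 := fun φ => by
    rw [norm_circleMap_zero, abs_of_nonneg hr0]; exact hr
  have h1 : ∀ φ, ‖w0 (circleMap 0 r φ)‖ ≤ (Hg (fun θ => (v θ : ℂ)) (circleMap 0 r φ)).re := by
    intro φ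
    rw [re_Hg hvc (hcm φ), ← poisson_w0 hw0 (hcm φ)]
    refine (norm_integral_le_integral_norm _).trans (le_of_eq ?_)
    congr 1; ext θ
    rw [norm_mul, Complex.norm_real, Real.norm_of_nonneg (Pk_pos (hcm φ) θ).le, mul_comm]
  have ch := cont_circ (diffOn_Hg hvcc).continuousOn hr0 hr
  have j3 : ∫ φ, (Hg (fun θ => (v θ : ℂ)) (circleMap 0 r φ)).re ∂mT = ∫ θ, v θ ∂mT := by
    have := integral_re (integrable_mT ch)
    simp only [RCLike.re_to_complex] at this
    rw [this, mean_value (diffOn_Hg hvcc) hr0 hr, Hg_zero, integral_complex_ofReal, ofReal_re]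
  rw [← j3]
  exact integral_mono (integrable_mT (cont_circ hw0.1.continuousOn hr0 hr).norm)
    (integrable_mT (continuous_re.comp ch)) h1

/-- the functional is bounded in the `H¹` norm when `F` is bounded -/
theorem pair_bound {p q MF : ℝ} (hpq : p.HolderConjugate q) {k F : ℂ → ℂ}
    (hk : DifferentiableOn ℂ k (ball 0 1)) (hki : Integrable (fun z => ‖k z‖ ^ q) sig)
    (hF : DifferentiableOn ℂ F (ball 0 1)) (hFb : ∀ z ∈ ball (0 : ℂ) 1, ‖F z‖ ≤ MF)
    (hF1 : ∫ z, ‖F z‖ ^ p ∂sig = 1)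
    (hext : ∀ g : ℂ → ℂ, DifferentiableOn ℂ g (ball 0 1) → Integrable (fun z => ‖g z‖ ^ p) sig →
      ∫ z, ‖g z‖ ^ p ∂sig = 1 → (∫ z, g z * (starRingEnd ℂ) (k z) ∂sig).re ≤
        (∫ z, F z * (starRingEnd ℂ) (k z) ∂sig).re) :
    ∃ K, 0 ≤ K ∧ ∀ w0 : ℂ → ℂ, DiffContOnCl ℂ w0 (ball 0 1) → ∀ R, 0 < R → R < 1 →
      ‖∫ θ, k (circleMap 0 R θ) * (starRingEnd ℂ) (w0 (ec θ)) ∂mT‖ ≤ K * ∫ θ, ‖w0 (ec θ)‖ ∂mT := by
  have hp : 1 < p := hpq.lt
  have hFi := int_bdd (p := p) (by linarith) hF.continuousOn hFb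
  set α : ℝ := (p - 2) / 2 with hα
  have hα0 : 0 < α + 1 / 2 := by rw [hα]; linarith
  set M : ℝ := MF ^ 2 + 1 with hM
  have hMF0 : 0 ≤ MF := (norm_nonneg _).trans (hFb 0 (by simp))
  set K : ℝ := (M ^ (α + 1 / 2) + (α ^ 2 + 2 * |α|) * (2 / (α + 1 / 2) ^ 2 + 1 / (α + 1 / 2) +
        M ^ (α + 1 / 2) / (2 * (α + 1 / 2) ^ 2 * (1 / 2) ^ 2)) * (M ^ (α + 1 / 2) + 1)) with hK
  have hK0 : 0 ≤ K := by positivity
  set lam := (∫ z, F z * (starRingEnd ℂ) (k z) ∂sig).re with hlam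
  have hki1 : IntegrableOn k (ball 0 1) := by
    rw [← integrable_sig]
    refine Integrable.mono' (hki.add (integrable_const 1)) (aesm hk.continuousOn) ?_
    refine Eventually.of_forall fun z => ?_
    simp only [Pi.add_apply]
    rcases le_total ‖k z‖ 1 with h | h
    · have : 0 ≤ ‖k z‖ ^ q := by positivity
      linarith
    · have : ‖k z‖ ≤ ‖k z‖ ^ q := by
        conv_lhs => rw [← Real.rpow_one ‖k z‖]
        exact Real.rpow_le_rpow_of_exponent_le h hpq.symm.lt.le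
      linarith
  refine ⟨|lam| * K, by positivity, fun w0 hw0 R hR0 hR => ?_⟩
  set w : ℝ → ℂ := fun θ => w0 (ec θ) with hwdef
  have hw : Continuous w := cont_bd hw0
  set N := ∫ θ, ‖w0 (ec θ)‖ ∂mT with hN
  set G : ℂ → ℂ := fun z => CP w (R * z) with hG
  have hGd : DifferentiableOn ℂ G (ball 0 1) := diffOn_dil hw hR0.le hR
  have hGan := An.of_diff hGd
  have hFan := An.of_diff hF
  set H : ℂ → ℂ := fun z => G z + z * deriv G z with hHdef
  have hHd : DifferentiableOn ℂ H (ball 0 1) :=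
    hGd.add (differentiableOn_id.mul (hGd.deriv isOpen_ball))
  have hHB : ∀ z ∈ ball (0 : ℂ) 1, ‖H z‖ ≤ (∫ θ, ‖w θ‖ ∂mT) * (1 / (1 - R) ^ 2) := fun z hz =>
    dil_bound hw hR0.le hR (mem_ball_zero_iff.1 hz).le
  have hGm : ∀ r, 0 < r → r < 1 → ∫ θ, ‖G (circleMap 0 r θ)‖ ∂mT ≤ N := by
    intro r hr0 hr
    have h1 := mean_le_bd hw0 (r := R * r) (by positivity) (by nlinarith)
    refine le_trans (le_of_eq ?_) h1
    congr 1; ext θ
    have h2 : (R : ℂ) * circleMap 0 r θ = circleMap 0 (R * r) θ := by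
      rw [circleMap_eq, circleMap_eq]; push_cast; ring
    simp only [hG]
    rw [h2, CP_analytic hw0]
    rw [norm_circleMap_zero, abs_of_pos (by positivity)]; nlinarith
  have key : ∀ δ : ℝ, 0 < δ → ‖∫ z in ball 0 1, up p F z * (starRingEnd ℂ) (H z)‖ ≤
      K * ((N + δ) * Real.pi) := by
    intro δ hδ
    have hδ2 : 0 < δ ^ 2 := by positivity
    apply limit_bound hp hF hFi hHd.continuousOn hHB
    intro κ E1 E2 s ε hcut hε hε1
    have hMr : ∀ z ∈ ball (0 : ℂ) 1, rho F ε z ≤ M := by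
      intro z hz
      rw [rho, hM]
      have := hFb z hz
      gcongr
    refine (hcut.energyB (α := α) hFan hGan hε hδ2 hα0 hMr).trans ?_
    apply mul_le_mul_of_nonneg_left _ hK0
    have hcont : ContinuousOn (fun z => PP G (δ ^ 2) (1 / 2) z) (ball 0 1) := hGan.cPPr hδ2
    have hN0 : 0 ≤ N := integral_nonneg fun θ => norm_nonneg _
    refine (hcut.polar hcont (M := N + δ) ?_).trans
      (mul_le_mul_of_nonneg_left hcut.mass (by positivity))
    intro r hr0 hr
    rw [cA_eq]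
    have cG := cont_circ hGd.continuousOn hr0.le hr
    calc ∫ θ, PP G (δ ^ 2) (1 / 2) (circleMap 0 r θ) ∂mT ≤
        ∫ θ, ‖G (circleMap 0 r θ)‖ + δ ∂mT := by
          apply integral_mono _ ((integrable_mT cG.norm).add (integrable_const _))
          · intro θ
            simp only [PP, rho, Pi.add_apply]
            rw [← Real.sqrt_eq_rpow, Real.sqrt_le_left (by positivity)]
            nlinarith [norm_nonneg (G (circleMap 0 r θ))]
          · apply integrable_mT
            exact hcont.comp_continuous (continuous_circleMap 0 r) fun θ => by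
              rw [mem_ball_zero_iff, norm_circleMap_zero, abs_of_pos hr0]; exact hr
      _ ≤ N + δ := by
          rw [integral_add (integrable_mT cG.norm) (integrable_const _), integral_const]
          simp only [measureReal_def, measure_univ, ENNReal.toReal_one, one_smul]
          have := hGm r hr0 hr
          linarith
  have key' : ‖∫ z in ball 0 1, up p F z * (starRingEnd ℂ) (H z)‖ ≤ K * (N * Real.pi) := by
    have h1 : Tendsto (fun δ : ℝ => K * ((N + δ) * Real.pi)) (𝓝[>] 0) (𝓝 (K * ((N + 0) * Real.pi))) := by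
      apply Tendsto.mono_left _ nhdsWithin_le_nhds
      exact ((tendsto_id.const_add N).mul_const Real.pi).const_mul K
    rw [add_zero] at h1
    exact ge_of_tendsto h1 (by filter_upwards [self_mem_nhdsWithin] with δ hδ using key δ hδ)
  have hpair := pairing hk hki1 hw hR0.le hR
  have hvar := variational hpq hk hki hF hFi hF1 hext hHd hHB
  rw [← hlam, integral_sig, integral_sig] at hvar
  have hpi := Real.pi_pos
  have e1 : ∫ θ, k (circleMap 0 R θ) * (starRingEnd ℂ) (w θ) ∂mT =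
      lam * ((1 / Real.pi) • ∫ z in ball 0 1, up p F z * (starRingEnd ℂ) (H z)) := by
    rw [← hvar]
    have : ∫ z in ball 0 1, k z * (starRingEnd ℂ) (H z) =
        Real.pi * ∫ θ, k (circleMap 0 R θ) * (starRingEnd ℂ) (w θ) ∂mT := hpair
    rw [this, Complex.real_smul]
    push_cast
    have : (Real.pi : ℂ) ≠ 0 := ofReal_ne_zero.2 hpi.ne'
    field_simp
  have e2 : ∫ θ, k (circleMap 0 R θ) * (starRingEnd ℂ) (w0 (ec θ)) ∂mT =
      ∫ θ, k (circleMap 0 R θ) * (starRingEnd ℂ) (w θ) ∂mT := rfl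
  rw [e2, e1, norm_mul, norm_smul, Complex.norm_real, Real.norm_eq_abs,
    Real.norm_of_nonneg (by positivity)]
  rw [mul_assoc]
  apply mul_le_mul_of_nonneg_left _ (abs_nonneg lam)
  calc 1 / Real.pi * ‖∫ z in ball 0 1, up p F z * (starRingEnd ℂ) (H z)‖ ≤
      1 / Real.pi * (K * (N * Real.pi)) := by gcongr
    _ = K * N := by field_simp

/-- **Garsia bound.** -/
theorem garsia {k : ℂ → ℂ} (hk : DifferentiableOn ℂ k (ball 0 1)) {K : ℝ} (hK : 0 ≤ K)
    (hb : ∀ w0 : ℂ → ℂ, DiffContOnCl ℂ w0 (ball 0 1) → ∀ R, 0 < R → R < 1 →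
      ‖∫ θ, k (circleMap 0 R θ) * (starRingEnd ℂ) (w0 (ec θ)) ∂mT‖ ≤ K * ∫ θ, ‖w0 (ec θ)‖ ∂mT)
    {R : ℝ} (hR0 : 0 < R) (hR : R < 1) {a : ℂ} (ha : ‖a‖ < 1) :
    ∫ θ, ‖k (circleMap 0 R θ) - k (R * a)‖ ^ 2 * Pk a θ ∂mT ≤ K ^ 2 := by
  set kR : ℂ → ℂ := fun z => k (R * z) with hkR
  have h1R : 1 < 1 / R := by rw [lt_div_iff₀ hR0]; linarith
  have hmap : MapsTo (fun z : ℂ => (R : ℂ) * z) (ball 0 (1 / R)) (ball 0 1) := by
    intro z hz
    rw [mem_ball_zero_iff] at hz ⊢
    rw [norm_mul, Complex.norm_real, Real.norm_of_nonneg hR0.le]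
    rwa [lt_div_iff₀ hR0, mul_comm] at hz
  have hkRd : DifferentiableOn ℂ kR (ball 0 (1 / R)) :=
    hk.comp (differentiableOn_id.const_mul _) hmap
  have ha' : a ∈ ball (0 : ℂ) (1 / R) := by rw [mem_ball_zero_iff]; linarith
  have hds : DifferentiableOn ℂ (dslope kR a) (ball 0 (1 / R)) :=
    (differentiableOn_dslope (isOpen_ball.mem_nhds ha')).2 hkRd
  have hne : ∀ z ∈ closedBall (0 : ℂ) 1, 1 - (starRingEnd ℂ) a * z ≠ 0 := by
    intro z hz h
    rw [mem_closedBall_zero_iff] at hz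
    have h1 : (starRingEnd ℂ) a * z = 1 := by linear_combination -h
    have h2 : ‖a‖ * ‖z‖ = 1 := by rw [← Complex.norm_conj a, ← norm_mul, h1, norm_one]
    nlinarith [norm_nonneg a, norm_nonneg z]
  have hsub : closedBall (0 : ℂ) 1 ⊆ ball 0 (1 / R) := closedBall_subset_ball h1R
  set w0 : ℂ → ℂ := fun z => (((1 - ‖a‖ ^ 2 : ℝ) : ℂ) * z * dslope kR a z) /
    (1 - (starRingEnd ℂ) a * z) with hw0
  have hw0d : DiffContOnCl ℂ w0 (ball 0 1) := by
    apply DifferentiableOn.diffContOnCl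
    rw [closure_ball _ one_ne_zero]
    intro z hz
    have hd : DifferentiableAt ℂ (dslope kR a) z :=
      (hds z (hsub hz)).differentiableAt (isOpen_ball.mem_nhds (hsub hz))
    apply DifferentiableAt.differentiableWithinAt
    exact (((differentiableAt_id.const_mul _).mul hd)).div
      ((differentiableAt_const _).sub (differentiableAt_id.const_mul _)) (hne z hz)
  have hbdv : ∀ θ, w0 (ec θ) = (kR (ec θ) - kR a) * (Pk a θ : ℂ) := by
    intro θ
    have hea : ec θ ≠ a := by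
      intro h; rw [← h, norm_ec] at ha; exact lt_irrefl _ ha
    have h3 : ec θ - a ≠ 0 := sub_ne_zero.2 hea
    have h4 := hne (ec θ) (by rw [mem_closedBall_zero_iff, norm_ec])
    have h5 : (ec θ - a) * (1 - (starRingEnd ℂ) a * ec θ) = ec θ * ((‖ec θ - a‖ ^ 2 : ℝ) : ℂ) := by
      rw [← Complex.normSq_eq_norm_sq, ← Complex.mul_conj, map_sub, conj_ec]
      have := ec_ne θ
      field_simp
    have h6 : ((‖ec θ - a‖ ^ 2 : ℝ) : ℂ) ≠ 0 := by
      rw [ofReal_ne_zero]; positivity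
    have h7 := ec_ne θ
    rw [Pk_eq ha]
    simp only [hw0]
    rw [dslope_of_ne _ hea, slope_def_field]
    rw [ofReal_div]
    rw [div_eq_iff h4]
    have h8 : (1 - (starRingEnd ℂ) a * ec θ) = ec θ * ((‖ec θ - a‖ ^ 2 : ℝ) : ℂ) / (ec θ - a) := by
      rw [eq_div_iff h3, mul_comm]; exact h5
    rw [h8]
    field_simp
  have hkc : Continuous fun θ => kR (ec θ) :=
    hkRd.continuousOn.comp_continuous ec_cont fun θ => hsub (by
      rw [mem_closedBall_zero_iff, norm_ec])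
  have hkcm : ∀ θ, k (circleMap 0 R θ) = kR (ec θ) := fun θ => by
    simp only [hkR]; rw [circleMap_eq]
  have hPc := Pk_cont ha
  have hPcc : Continuous fun θ => (Pk a θ : ℂ) := continuous_ofReal.comp hPc
  have hmain := hb w0 hw0d R hR0 hR
  set Γ := ∫ θ, ‖k (circleMap 0 R θ) - k (R * a)‖ ^ 2 * Pk a θ ∂mT with hΓ
  have hkRdc : DiffContOnCl ℂ kR (ball 0 1) := by
    apply DifferentiableOn.diffContOnCl
    rw [closure_ball _ one_ne_zero]
    exact hkRd.mono hsub
  have hP0 := poisson_w0 hkRdc ha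
  -- the left side
  have hL : ∫ θ, k (circleMap 0 R θ) * (starRingEnd ℂ) (w0 (ec θ)) ∂mT = (Γ : ℂ) := by
    have h1 : ∀ θ, k (circleMap 0 R θ) * (starRingEnd ℂ) (w0 (ec θ)) =
        ((‖k (circleMap 0 R θ) - k (R * a)‖ ^ 2 * Pk a θ : ℝ) : ℂ) +
          kR a * (starRingEnd ℂ) ((Pk a θ : ℂ) * kR (ec θ) - kR a * (Pk a θ : ℂ)) := by
      intro θ
      rw [hbdv, hkcm]
      have h2 : (kR (ec θ) - kR a) * (starRingEnd ℂ) (kR (ec θ) - kR a) =
          ((‖kR (ec θ) - kR a‖ ^ 2 : ℝ) : ℂ) := by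
        rw [Complex.mul_conj, Complex.normSq_eq_norm_sq]
      have h3 : k (R * a) = kR a := rfl
      rw [h3, ofReal_mul, ← h2]
      simp only [map_mul, map_sub, conj_ofReal]
      ring
    simp_rw [h1]
    have i1 : Integrable (fun θ => ((‖k (circleMap 0 R θ) - k (R * a)‖ ^ 2 * Pk a θ : ℝ) : ℂ)) mT := by
      apply integrable_mT
      apply continuous_ofReal.comp
      simp_rw [hkcm]
      exact ((hkc.sub continuous_const).norm.pow 2).mul hPc
    have i2 : Integrable (fun θ => kR a * (starRingEnd ℂ) ((Pk a θ : ℂ) * kR (ec θ) -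
        kR a * (Pk a θ : ℂ))) mT := by
      apply integrable_mT
      exact continuous_const.mul (continuous_conj.comp ((hPcc.mul hkc).sub
        (continuous_const.mul hPcc)))
    have i5 : Integrable (fun θ => (Pk a θ : ℂ) * kR (ec θ)) mT := integrable_mT (hPcc.mul hkc)
    have i6 : Integrable (fun θ => kR a * (Pk a θ : ℂ)) mT :=
      integrable_mT (continuous_const.mul hPcc)
    rw [integral_add i1 i2, integral_complex_ofReal, integral_const_mul, integral_conj,
      integral_sub i5 i6, hP0, integral_const_mul, integral_complex_ofReal, int_Pk ha]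
    simp [hΓ]
  have hRn : ∫ θ, ‖w0 (ec θ)‖ ∂mT = ∫ θ, ‖k (circleMap 0 R θ) - k (R * a)‖ * Pk a θ ∂mT := by
    congr 1; ext θ
    rw [hbdv, norm_mul, Complex.norm_real, Real.norm_of_nonneg (Pk_pos ha θ).le, hkcm]
  rw [hL, hRn, Complex.norm_real] at hmain
  have i3 : Integrable (fun θ => ‖k (circleMap 0 R θ) - k (R * a)‖ ^ 2 * Pk a θ) mT := by
    apply integrable_mT
    simp_rw [hkcm]
    exact ((hkc.sub continuous_const).norm.pow 2).mul hPc
  have i4 : Integrable (fun θ => ‖k (circleMap 0 R θ) - k (R * a)‖ * Pk a θ) mT := by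
    apply integrable_mT
    simp_rw [hkcm]
    exact ((hkc.sub continuous_const).norm).mul hPc
  have h9 : K * ∫ θ, ‖k (circleMap 0 R θ) - k (R * a)‖ * Pk a θ ∂mT ≤ Γ / 2 + K ^ 2 / 2 := by
    have h10 : ∫ θ, K * (‖k (circleMap 0 R θ) - k (R * a)‖ * Pk a θ) ∂mT ≤
        ∫ θ, (1 / 2) * (‖k (circleMap 0 R θ) - k (R * a)‖ ^ 2 * Pk a θ) + (K ^ 2 / 2) * Pk a θ ∂mT := by
      apply integral_mono (i4.const_mul _)
        ((i3.const_mul _).add ((integrable_mT hPc).const_mul _))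
      intro θ
      simp only [Pi.add_apply]
      have := Pk_pos ha θ
      nlinarith [mul_nonneg (sq_nonneg (K - ‖k (circleMap 0 R θ) - k (R * a)‖)) this.le]
    rw [integral_const_mul, integral_add (i3.const_mul _) ((integrable_mT hPc).const_mul _),
      integral_const_mul, integral_const_mul, int_Pk ha] at h10
    rw [hΓ]
    linarith
  have h11 := le_abs_self Γ
  rw [Real.norm_eq_abs] at hmain
  linarith

end

end Pool.Agent.X105.BE
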