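import Pool.Agent.X105.BE.Fat

set_option autoImplicit false

namespace Pool.Agent.X105.BE

open MeasureTheory Complex Set Metric ComplexConjugate Filter Topology

noncomputable section

lemma ae_mT {p : ℝ → Prop} (h : ∀ᵐ θ : ℝ, p θ) : ∀ᵐ θ ∂mT, p θ := by
  rw [mT]
  exact Measure.ae_smul_measure (ae_restrict_of_ae h) _

lemma Pk_zero (θ : ℝ) : Pk 0 θ = 1 := by
  rw [Pk_eq (by simp)]; simp

/-- periodic extension -/
def perx (b : ℝ → ℂ) (θ : ℝ) : ℂ := b (θ - 2 * Real.pi * ((⌈θ / (2 * Real.pi)⌉ : ℝ) - 1))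

lemma perx_periodic (b : ℝ → ℂ) : Function.Periodic (perx b) (2 * Real.pi) := by
  intro θ
  have hpi : (2 * Real.pi) ≠ 0 := by have := Real.pi_pos; positivity
  unfold perx
  have : (θ + 2 * Real.pi) / (2 * Real.pi) = θ / (2 * Real.pi) + 1 := by field_simp
  rw [this, Int.ceil_add_one]
  push_cast
  congr 1; ring

lemma perx_eq (b : ℝ → ℂ) {θ : ℝ} (h : θ ∈ Ioc 0 (2 * Real.pi)) : perx b θ = b θ := by
  have hpi : 0 < 2 * Real.pi := by have := Real.pi_pos; positivity
  have : ⌈θ / (2 * Real.pi)⌉ = 1 := by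
    rw [Int.ceil_eq_iff]
    constructor
    · simp only [Int.cast_one, sub_self]
      exact div_pos h.1 hpi
    · rw [Int.cast_one, div_le_one hpi]; exact h.2
  unfold perx
  rw [this]; simp

lemma perx_meas {b : ℝ → ℂ} (hb : Measurable b) : Measurable (perx b) := by
  unfold perx
  apply hb.comp
  have h1 : Measurable fun θ : ℝ => ((⌈θ / (2 * Real.pi)⌉ : ℤ) : ℝ) :=
    (measurable_from_top (f := fun n : ℤ => (n : ℝ))).comp ((measurable_id.div_const _).ceil)
  exact measurable_id.sub ((h1.sub_const 1).const_mul _)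

/-- **BMO from the Garsia bound.** -/
theorem bmo_main {k : ℂ → ℂ} (hk : DifferentiableOn ℂ k (ball 0 1)) {K : ℝ}
    (hG : ∀ R, 0 < R → R < 1 → ∀ a : ℂ, ‖a‖ < 1 →
      ∫ θ, ‖k (circleMap 0 R θ) - k (R * a)‖ ^ 2 * Pk a θ ∂mT ≤ K ^ 2) :
    (∃ C, ∀ R, 0 < R → R < 1 → ∫ θ, ‖k (circleMap 0 R θ)‖ ^ 2 ∂mT ≤ C) ∧
    ∃ B : ℝ → ℂ, Measurable B ∧ Function.Periodic B (2 * Real.pi) ∧
      (∀ a c, IntervalIntegrable B volume a c) ∧
      (∀ᵐ x : ℝ, Tendsto (fun r : ℝ => k (r * ec x)) (𝓝[<] 1) (𝓝 (B x))) ∧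
      ∃ C, ∀ α β : ℝ, α < β → β ≤ α + 2 * Real.pi →
        (1 / (β - α)) * ∫ θ in α..β, ‖B θ - (1 / (β - α)) • ∫ t in α..β, B t‖ ≤ C := by
  have hpi := Real.pi_pos
  have hpi0 : (2 * Real.pi) ≠ 0 := by positivity
  -- the `H²` bound
  have hH2 : ∀ R, 0 < R → R < 1 → ∫ θ, ‖k (circleMap 0 R θ)‖ ^ 2 ∂mT ≤
      2 * K ^ 2 + 2 * ‖k 0‖ ^ 2 := by
    intro R hR0 hR
    have h1 := hG R hR0 hR 0 (by simp)
    simp only [Pk_zero, mul_one, mul_zero] at h1
    have hc := cont_circ hk.continuousOn hR0.le hR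
    have i1 : Integrable (fun θ => ‖k (circleMap 0 R θ) - k 0‖ ^ 2) mT :=
      integrable_mT ((hc.sub continuous_const).norm.pow 2)
    calc ∫ θ, ‖k (circleMap 0 R θ)‖ ^ 2 ∂mT ≤
        ∫ θ, 2 * ‖k (circleMap 0 R θ) - k 0‖ ^ 2 + 2 * ‖k 0‖ ^ 2 ∂mT := by
          apply integral_mono (integrable_mT (hc.norm.pow 2))
            ((i1.const_mul 2).add (integrable_const _))
          intro θ
          simp only [Pi.add_apply, Pi.pow_apply]
          have h2 : ‖k (circleMap 0 R θ)‖ ≤ ‖k (circleMap 0 R θ) - k 0‖ + ‖k 0‖ := by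
            simpa using norm_add_le (k (circleMap 0 R θ) - k 0) (k 0)
          nlinarith [norm_nonneg (k (circleMap 0 R θ)), norm_nonneg (k 0),
            norm_nonneg (k (circleMap 0 R θ) - k 0),
            sq_nonneg (‖k (circleMap 0 R θ) - k 0‖ - ‖k 0‖)]
      _ ≤ _ := by
          rw [integral_add (i1.const_mul 2) (integrable_const _), integral_const_mul, integral_const]
          simp only [measureReal_def, measure_univ, ENNReal.toReal_one, one_smul]
          linarith
  refine ⟨⟨_, hH2⟩, ?_⟩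
  obtain ⟨b, hb2, hbk⟩ := exists_bd hk hH2
  set b' : ℝ → ℂ := hb2.1.mk b with hb'
  have hb'm : Measurable b' := hb2.1.stronglyMeasurable_mk.measurable
  have hbb' : b =ᵐ[mT] b' := hb2.1.ae_eq_mk
  set B : ℝ → ℂ := perx b' with hB
  have hBm : Measurable B := perx_meas hb'm
  have hBp : Function.Periodic B (2 * Real.pi) := perx_periodic b'
  have hmem : ∀ᵐ θ ∂mT, θ ∈ Ioc 0 (2 * Real.pi) := by
    rw [mT]
    exact Measure.ae_smul_measure (ae_restrict_mem measurableSet_Ioc) _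
  have hBb : B =ᵐ[mT] b := by
    filter_upwards [hbb', hmem] with θ h1 h2
    rw [hB, perx_eq _ h2, h1]
  have hB2 : MemLp B 2 mT := hb2.ae_eq hBb.symm
  have hmT0 : (ENNReal.ofReal (2 * Real.pi))⁻¹ ≠ 0 := ENNReal.inv_ne_zero.2 ENNReal.ofReal_ne_top
  have toIoc : ∀ {E : Type} [NormedAddCommGroup E] {g : ℝ → E}, Integrable g mT →
      IntegrableOn g (Ioc 0 (2 * Real.pi)) volume := by
    intro E _ g hg
    rw [mT, integrable_smul_measure hmT0 mT_ne] at hg
    exact hg
  have hBi1 : Integrable B mT := hB2.integrable (by norm_num)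
  have hBi : IntervalIntegrable B volume 0 (2 * Real.pi) :=
    (intervalIntegrable_iff_integrableOn_Ioc_of_le (by positivity)).2 (toIoc hBi1)
  have hBint : ∀ a c, IntervalIntegrable B volume a c := hBp.intervalIntegrable₀ hpi0 hBi
  have hrep : ∀ z : ℂ, ‖z‖ < 1 → ∫ θ, (Pk z θ : ℂ) * B θ ∂mT = k z := by
    intro z hz
    rw [← hbk z hz]
    apply integral_congr_ae
    filter_upwards [hBb] with θ h
    rw [h]
  have hrad : ∀ᵐ x : ℝ, Tendsto (fun r : ℝ => k (r * ec x)) (𝓝[<] 1) (𝓝 (B x)) := by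
    filter_upwards [radial hBm hBp hBi] with x hx
    apply hx.congr'
    have h6 : Ioo (0 : ℝ) 1 ∈ 𝓝[<] (1 : ℝ) := Ioo_mem_nhdsLT (by norm_num)
    filter_upwards [h6] with r hr
    apply hrep
    rw [norm_mul, norm_ec, mul_one, Complex.norm_real, Real.norm_of_nonneg hr.1.le]
    exact hr.2
  refine ⟨B, hBm, hBp, hBint, hrad, ?_⟩
  -- Garsia bound for `B`
  have hGB : ∀ a : ℂ, ‖a‖ < 1 → Integrable (fun θ => ‖B θ - k a‖ ^ 2 * Pk a θ) mT ∧
      ∫ θ, ‖B θ - k a‖ ^ 2 * Pk a θ ∂mT ≤ K ^ 2 := by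
    intro a ha
    set R : ℕ → ℝ := fun n => 1 - 1 / ((n : ℝ) + 2) with hR
    have hab : ∀ n : ℕ, 0 < R n ∧ R n < 1 := by
      intro n
      have hn : (0 : ℝ) ≤ n := Nat.cast_nonneg n
      simp only [hR]
      refine ⟨?_, ?_⟩
      · rw [sub_pos, div_lt_one (by positivity)]; linarith
      · have : 0 < 1 / ((n : ℝ) + 2) := by positivity
        linarith
    have hRt : Tendsto R atTop (𝓝 1) := by
      have : Tendsto (fun n : ℕ => 1 / ((n : ℝ) + 2)) atTop (𝓝 0) := by
        apply tendsto_const_nhds.div_atTop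
        exact tendsto_atTop_add_const_right _ _ tendsto_natCast_atTop_atTop
      have h2 := this.const_sub 1
      rw [sub_zero] at h2
      exact h2
    have hRt' : Tendsto R atTop (𝓝[<] 1) :=
      tendsto_nhdsWithin_iff.2 ⟨hRt, Eventually.of_forall fun n => (hab n).2⟩
    set f : ℕ → ℝ → ℝ := fun n θ => ‖k (circleMap 0 (R n) θ) - k (R n * a)‖ ^ 2 * Pk a θ with hf
    have hfc : ∀ n, Continuous (f n) := fun n =>
      (((cont_circ hk.continuousOn (hab n).1.le (hab n).2).sub continuous_const).norm.pow 2).mul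
        (Pk_cont ha)
    have hf0 : ∀ n θ, 0 ≤ f n θ := fun n θ => mul_nonneg (by positivity) (Pk_pos ha θ).le
    have hlim : ∀ᵐ θ ∂mT, Tendsto (fun n => f n θ) atTop (𝓝 (‖B θ - k a‖ ^ 2 * Pk a θ)) := by
      filter_upwards [ae_mT hrad] with θ hθ
      have h1 : Tendsto (fun n => k (circleMap 0 (R n) θ)) atTop (𝓝 (B θ)) := by
        simp_rw [circleMap_eq]
        exact hθ.comp hRt'
      have h2 : Tendsto (fun n => k (R n * a)) atTop (𝓝 (k a)) := by
        have hk1 : ContinuousAt k a :=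
          (hk.continuousOn a (mem_ball_zero_iff.2 ha)).continuousAt
            (isOpen_ball.mem_nhds (mem_ball_zero_iff.2 ha))
        apply hk1.tendsto.comp
        have : Tendsto (fun n => (R n : ℂ) * a) atTop (𝓝 ((1 : ℝ) * a)) :=
          ((continuous_ofReal.tendsto _).comp hRt).mul_const a
        simpa using this
      exact (((h1.sub h2).norm.pow 2).mul_const _)
    have hm : AEStronglyMeasurable (fun θ => ‖B θ - k a‖ ^ 2 * Pk a θ) mT :=
      (((hBm.sub_const _).norm.pow_const 2).mul (Pk_cont ha).measurable).aestronglyMeasurable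
    have h0 : ∀ θ, 0 ≤ ‖B θ - k a‖ ^ 2 * Pk a θ := fun θ => mul_nonneg (by positivity) (Pk_pos ha θ).le
    have hle : ∫⁻ θ, ENNReal.ofReal (‖B θ - k a‖ ^ 2 * Pk a θ) ∂mT ≤ ENNReal.ofReal (K ^ 2) := by
      have h1 : ∫⁻ θ, ENNReal.ofReal (‖B θ - k a‖ ^ 2 * Pk a θ) ∂mT =
          ∫⁻ θ, liminf (fun n => ENNReal.ofReal (f n θ)) atTop ∂mT := by
        apply lintegral_congr_ae
        filter_upwards [hlim] with θ hθ
        exact (((ENNReal.continuous_ofReal.tendsto _).comp hθ).liminf_eq).symm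
      rw [h1]
      refine (lintegral_liminf_le fun n => (hfc n).measurable.ennreal_ofReal).trans ?_
      refine liminf_le_of_le (by isBoundedDefault) ?_
      intro c hc
      obtain ⟨n, hn⟩ := hc.exists
      refine hn.trans ?_
      rw [← ofReal_integral_eq_lintegral_ofReal (integrable_mT (hfc n))
        (Eventually.of_forall (hf0 n))]
      exact ENNReal.ofReal_le_ofReal (hG _ (hab n).1 (hab n).2 a ha)
    have hi : Integrable (fun θ => ‖B θ - k a‖ ^ 2 * Pk a θ) mT := by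
      refine ⟨hm, ?_⟩
      rw [hasFiniteIntegral_iff_ofReal (Eventually.of_forall h0)]
      exact hle.trans_lt ENNReal.ofReal_lt_top
    refine ⟨hi, ?_⟩
    rw [← ofReal_integral_eq_lintegral_ofReal hi (Eventually.of_forall h0),
      ENNReal.ofReal_le_ofReal_iff (by positivity)] at hle
    exact hle
  refine ⟨2 * (1 + 16 * Real.pi * K ^ 2), fun α β hαβ hβ => ?_⟩
  set l := β - α with hl
  have hl0 : 0 < l := by rw [hl]; linarith
  have hl2 : l ≤ 2 * Real.pi := by rw [hl]; linarith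
  set m := (α + β) / 2 with hm
  set r := 1 - l / (4 * Real.pi) with hr
  have hq : l / (4 * Real.pi) ≤ 1 / 2 := by
    rw [div_le_div_iff₀ (by positivity) (by norm_num)]; linarith
  have hq0 : 0 < l / (4 * Real.pi) := by positivity
  have hr2 : 1 / 2 ≤ r := by rw [hr]; linarith
  have hr1 : r < 1 := by rw [hr]; linarith
  set a : ℂ := r * ec m with ha
  have hna : ‖a‖ = r := by
    rw [ha, norm_mul, norm_ec, mul_one, Complex.norm_real, Real.norm_of_nonneg (by linarith)]
  have ha1 : ‖a‖ < 1 := by rw [hna]; exact hr1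
  obtain ⟨hGi, hGle⟩ := hGB a ha1
  -- lower bound of the kernel
  have hPl : ∀ θ ∈ Icc α β, 1 / l ≤ 8 * Pk a θ := by
    intro θ hθ
    have hθm : |θ - m| ≤ l / 2 := by
      rw [abs_le, hm, hl]; constructor <;> linarith [hθ.1, hθ.2]
    have hsq : ‖ec θ - a‖ ^ 2 ≤ (1 - r) ^ 2 + (θ - m) ^ 2 := by
      have h0 : ec θ - r * ec m = ec θ * (1 - r * Complex.exp ((m - θ : ℝ) * I)) := by
        rw [mul_sub, mul_one, ec_eq, ec_eq]
        have : Complex.exp (m * I) = Complex.exp (θ * I) * Complex.exp ((m - θ : ℝ) * I) := by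
          rw [← Complex.exp_add]; congr 1; push_cast; ring
        rw [this]; ring
      rw [ha, h0, norm_mul, norm_ec, one_mul, ← Complex.normSq_eq_norm_sq, Complex.normSq_apply]
      have h1 : ((r : ℂ) * Complex.exp ((m - θ : ℝ) * I)).re = r * Real.cos (m - θ) := by
        rw [Complex.re_ofReal_mul, Complex.exp_ofReal_mul_I_re]
      have h2 : ((r : ℂ) * Complex.exp ((m - θ : ℝ) * I)).im = r * Real.sin (m - θ) := by
        rw [Complex.im_ofReal_mul, Complex.exp_ofReal_mul_I_im]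
      rw [Complex.sub_re, Complex.sub_im, h1, h2, Complex.one_re, Complex.one_im]
      have h3 := Real.one_sub_sq_div_two_le_cos (x := m - θ)
      have h4 := Real.sin_sq_add_cos_sq (m - θ)
      have h5 : Real.sin (m - θ) ^ 2 = 1 - Real.cos (m - θ) ^ 2 := by linarith
      calc (1 - r * Real.cos (m - θ)) * (1 - r * Real.cos (m - θ)) +
          (0 - r * Real.sin (m - θ)) * (0 - r * Real.sin (m - θ)) =
          1 - 2 * r * Real.cos (m - θ) + r ^ 2 * Real.cos (m - θ) ^ 2 +
            r ^ 2 * Real.sin (m - θ) ^ 2 := by ring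
        _ = 1 - 2 * r * Real.cos (m - θ) + r ^ 2 := by rw [h5]; ring
        _ ≤ 1 - 2 * r * (1 - (m - θ) ^ 2 / 2) + r ^ 2 := by nlinarith
        _ = (1 - r) ^ 2 + r * (θ - m) ^ 2 := by ring
        _ ≤ _ := by nlinarith [sq_nonneg (θ - m)]
    have h1r : 1 - r = l / (4 * Real.pi) := by rw [hr]; ring
    have h1r2 : 1 - r ≤ l / 12 := by
      rw [h1r]
      have := Real.pi_gt_three
      gcongr
      linarith
    have h1r3 : l / 16 ≤ 1 - r := by
      rw [h1r]
      have := Real.pi_lt_four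
      gcongr
      linarith
    have h2 : (θ - m) ^ 2 ≤ (l / 2) ^ 2 := by
      rw [← sq_abs]; gcongr
    have h3 : ‖ec θ - a‖ ^ 2 ≤ l ^ 2 / 2 := by nlinarith
    have h4 : 0 < ‖ec θ - a‖ ^ 2 := by
      have := norm_pos_iff.2 (ec_sub_ne ha1 θ)
      positivity
    rw [Pk_eq ha1, hna]
    rw [← mul_div_assoc, div_le_div_iff₀ hl0 h4]
    nlinarith
  -- the integrals
  have hsqi : ∀ a' c', IntervalIntegrable (fun θ => ‖B θ - k a‖ ^ 2) volume a' c' := by
    have hper : Function.Periodic (fun θ => ‖B θ - k a‖ ^ 2) (2 * Real.pi) := fun θ => by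
      simp only; rw [hBp θ]
    apply hper.intervalIntegrable₀ hpi0
    apply (intervalIntegrable_iff_integrableOn_Ioc_of_le (by positivity)).2
    apply toIoc
    have : MemLp (fun θ => B θ - k a) 2 mT := hB2.sub (memLp_const _)
    exact (memLp_two_iff_integrable_sq_norm this.1).1 this
  have hPi : ∀ a' c', IntervalIntegrable (fun θ => ‖B θ - k a‖ ^ 2 * Pk a θ) volume a' c' :=
    fun a' c' => (hsqi a' c').mul_continuousOn (Pk_cont ha1).continuousOn
  have hbig : ∫ θ in α..β, ‖B θ - k a‖ ^ 2 * Pk a θ ≤ 2 * Real.pi * K ^ 2 := by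
    have hper : Function.Periodic (fun θ => ‖B θ - k a‖ ^ 2 * Pk a θ) (2 * Real.pi) := fun θ => by
      simp only [Pk]; rw [hBp θ, ec_periodic θ]
    have h1 : ∫ θ in α..β, ‖B θ - k a‖ ^ 2 * Pk a θ ≤
        ∫ θ in α..(α + 2 * Real.pi), ‖B θ - k a‖ ^ 2 * Pk a θ := by
      apply intervalIntegral.integral_mono_interval le_rfl hαβ.le hβ _ (hPi _ _)
      exact Eventually.of_forall fun θ => mul_nonneg (by positivity) (Pk_pos ha1 θ).le
    have h2 := hper.intervalIntegral_add_eq α 0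
    rw [zero_add] at h2
    rw [h2] at h1
    rw [integral_mT, smul_eq_mul, inv_mul_le_iff₀ (by positivity)] at hGle
    exact h1.trans hGle
  have hosc2 : (1 / l) * ∫ θ in α..β, ‖B θ - k a‖ ^ 2 ≤ 16 * Real.pi * K ^ 2 := by
    have h1 : ∫ θ in α..β, (1 / l) * ‖B θ - k a‖ ^ 2 ≤
        ∫ θ in α..β, 8 * (‖B θ - k a‖ ^ 2 * Pk a θ) := by
      apply intervalIntegral.integral_mono_on hαβ.le ((hsqi _ _).const_mul _)
        ((hPi _ _).const_mul _)
      intro θ hθ
      have := hPl θ hθ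
      have h3 : 0 ≤ ‖B θ - k a‖ ^ 2 := by positivity
      nlinarith
    rw [intervalIntegral.integral_const_mul, intervalIntegral.integral_const_mul] at h1
    linarith
  have hosc1 : (1 / l) * ∫ θ in α..β, ‖B θ - k a‖ ≤ 1 + 16 * Real.pi * K ^ 2 := by
    have hni : IntervalIntegrable (fun θ => ‖B θ - k a‖) volume α β :=
      ((hBint α β).sub intervalIntegrable_const).norm
    have h1 : ∫ θ in α..β, ‖B θ - k a‖ ≤ ∫ θ in α..β, (1 + ‖B θ - k a‖ ^ 2) := by
      apply intervalIntegral.integral_mono_on hαβ.le hni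
        (intervalIntegrable_const.add (hsqi _ _))
      intro θ _
      nlinarith [sq_nonneg (‖B θ - k a‖ - 1), norm_nonneg (B θ - k a)]
    rw [intervalIntegral.integral_add intervalIntegrable_const (hsqi _ _),
      intervalIntegral.integral_const, smul_eq_mul, mul_one] at h1
    calc (1 / l) * ∫ θ in α..β, ‖B θ - k a‖ ≤
        (1 / l) * (β - α + ∫ θ in α..β, ‖B θ - k a‖ ^ 2) := by gcongr
      _ = 1 + (1 / l) * ∫ θ in α..β, ‖B θ - k a‖ ^ 2 := by
          rw [mul_add, ← hl, one_div, inv_mul_cancel₀ hl0.ne']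
      _ ≤ _ := by linarith
  set BI : ℂ := (1 / l) • ∫ t in α..β, B t with hBI
  have hBIk : ‖BI - k a‖ ≤ 1 + 16 * Real.pi * K ^ 2 := by
    have h1 : BI - k a = (1 / l) • ∫ t in α..β, (B t - k a) := by
      rw [intervalIntegral.integral_sub (hBint _ _) intervalIntegrable_const,
        intervalIntegral.integral_const, smul_sub, ← hl, smul_smul, one_div,
        inv_mul_cancel₀ hl0.ne', one_smul, hBI, one_div]
    rw [h1, norm_smul, Real.norm_of_nonneg (by positivity)]
    refine le_trans ?_ hosc1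
    gcongr
    exact intervalIntegral.norm_integral_le_integral_norm hαβ.le
  have hni : IntervalIntegrable (fun θ => ‖B θ - k a‖) volume α β :=
    ((hBint α β).sub intervalIntegrable_const).norm
  have h1 : ∫ θ in α..β, ‖B θ - BI‖ ≤ ∫ θ in α..β, (‖B θ - k a‖ + ‖BI - k a‖) := by
    apply intervalIntegral.integral_mono_on hαβ.le
      ((hBint α β).sub intervalIntegrable_const).norm (hni.add intervalIntegrable_const)
    intro θ _
    have : B θ - BI = (B θ - k a) - (BI - k a) := by ring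
    rw [this]; exact norm_sub_le _ _
  rw [intervalIntegral.integral_add hni intervalIntegrable_const,
    intervalIntegral.integral_const, smul_eq_mul, ← hl] at h1
  calc 1 / l * ∫ θ in α..β, ‖B θ - BI‖ ≤
      1 / l * ((∫ θ in α..β, ‖B θ - k a‖) + l * ‖BI - k a‖) := by gcongr
    _ = 1 / l * (∫ θ in α..β, ‖B θ - k a‖) + ‖BI - k a‖ := by field_simp
    _ ≤ _ := by linarith

end

end Pool.Agent.X105.BE
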