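import Mathlib

set_option autoImplicit false

namespace Pool.Agent.X105.BE

open MeasureTheory Complex Set Metric ComplexConjugate

noncomputable section

/-- normalised Lebesgue measure on `(0, 2π]` -/
def mT : Measure ℝ := (ENNReal.ofReal (2 * Real.pi))⁻¹ • volume.restrict (Ioc 0 (2 * Real.pi))

lemma mT_ne : (ENNReal.ofReal (2 * Real.pi))⁻¹ ≠ ⊤ := by
  rw [ENNReal.inv_ne_top]
  have : 0 < 2 * Real.pi := by positivity
  exact (ENNReal.ofReal_pos.2 this).ne'

instance : IsProbabilityMeasure mT := by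
  constructor
  rw [mT, Measure.smul_apply, Measure.restrict_apply_univ, Real.volume_Ioc, sub_zero, smul_eq_mul]
  exact ENNReal.inv_mul_cancel (ENNReal.ofReal_pos.2 (by positivity)).ne' ENNReal.ofReal_ne_top

section
variable {E : Type*} [NormedAddCommGroup E]

lemma integrable_mT {g : ℝ → E} (hg : Continuous g) : Integrable g mT := by
  have h1 : IntegrableOn g (Ioc 0 (2 * Real.pi)) volume :=
    (hg.integrableOn_Icc (a := 0) (b := 2 * Real.pi)).mono_set Ioc_subset_Icc_self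
  exact h1.smul_measure mT_ne

variable [NormedSpace ℝ E]

lemma integral_mT (g : ℝ → E) : ∫ θ, g θ ∂mT = (2 * Real.pi)⁻¹ • ∫ θ in (0 : ℝ)..(2 * Real.pi), g θ := by
  rw [mT, integral_smul_measure, intervalIntegral.integral_of_le (by positivity), ENNReal.toReal_inv,
    ENNReal.toReal_ofReal (by positivity)]

lemma cA_eq (f : ℂ → E) (r : ℝ) :
    Real.circleAverage f 0 r = ∫ θ, f (circleMap 0 r θ) ∂mT := by
  rw [integral_mT, Real.circleAverage_def]

lemma integral_mT_swap {f : ℝ → ℝ → E} (hf : Continuous (Function.uncurry f)) :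
    ∫ x, ∫ y, f x y ∂mT ∂mT = ∫ y, ∫ x, f x y ∂mT ∂mT := by
  apply integral_integral_swap
  have h1 : mT.prod mT = ((ENNReal.ofReal (2 * Real.pi))⁻¹ * (ENNReal.ofReal (2 * Real.pi))⁻¹) •
      ((volume.restrict (Ioc 0 (2 * Real.pi)) : Measure ℝ).prod
        (volume.restrict (Ioc 0 (2 * Real.pi)))) := by
    rw [mT, Measure.prod_smul_left, Measure.prod_smul_right, smul_smul]
  rw [h1]
  apply Integrable.smul_measure _ (ENNReal.mul_ne_top mT_ne mT_ne)
  rw [Measure.prod_restrict]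
  have h2 : IntegrableOn (Function.uncurry f) (Icc 0 (2 * Real.pi) ×ˢ Icc 0 (2 * Real.pi))
      (volume.prod volume) :=
    hf.continuousOn.integrableOn_compact (isCompact_Icc.prod isCompact_Icc)
  exact h2.mono_set (prod_mono Ioc_subset_Icc_self Ioc_subset_Icc_self)

end

/-- the point `e^{iθ}` -/
def ec (θ : ℝ) : ℂ := circleMap 0 1 θ

lemma ec_cont : Continuous ec := continuous_circleMap 0 1

@[simp] lemma norm_ec (θ : ℝ) : ‖ec θ‖ = 1 := by simp [ec]

lemma ec_ne (θ : ℝ) : ec θ ≠ 0 := by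
  intro h; have := norm_ec θ; rw [h] at this; simp at this

lemma circleMap_eq (r θ : ℝ) : circleMap 0 r θ = r * ec θ := by simp [ec, circleMap]

lemma conj_ec (θ : ℝ) : (starRingEnd ℂ) (ec θ) = (ec θ)⁻¹ := by
  rw [Complex.inv_def, Complex.normSq_eq_norm_sq, norm_ec]; simp

lemma ec_sub_ne {z : ℂ} (hz : ‖z‖ < 1) (θ : ℝ) : ec θ - z ≠ 0 := by
  intro h
  rw [sub_eq_zero] at h
  rw [← h, norm_ec] at hz
  exact lt_irrefl _ hz

lemma norm_ec_sub {z : ℂ} (θ : ℝ) : 1 - ‖z‖ ≤ ‖ec θ - z‖ := by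
  have := norm_sub_norm_le (ec θ) z
  rwa [norm_ec] at this

/-- mean value property -/
lemma mean_value {f : ℂ → ℂ} (hf : DifferentiableOn ℂ f (ball 0 1)) {r : ℝ} (hr0 : 0 ≤ r)
    (hr : r < 1) : ∫ θ, f (circleMap 0 r θ) ∂mT = f 0 := by
  rw [← cA_eq]
  apply DiffContOnCl.circleAverage
  apply DifferentiableOn.diffContOnCl
  apply hf.mono
  rcases hr0.eq_or_lt with h | h
  · rw [← h, abs_zero, ball_zero, closure_empty]; exact empty_subset _
  · rw [abs_of_pos h, closure_ball _ h.ne']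
    exact closedBall_subset_ball hr

/-- the Cauchy projection -/
def CP (w : ℝ → ℂ) (z : ℂ) : ℂ := ∫ θ, w θ * (ec θ / (ec θ - z)) ∂mT

/-- the derivative of the Cauchy projection -/
def CP' (w : ℝ → ℂ) (z : ℂ) : ℂ := ∫ θ, w θ * (ec θ / (ec θ - z) ^ 2) ∂mT

lemma cont_ker {z : ℂ} (hz : ‖z‖ < 1) : Continuous fun θ => ec θ / (ec θ - z) :=
  ec_cont.div (ec_cont.sub continuous_const) fun θ => ec_sub_ne hz θ

lemma cont_ker2 {z : ℂ} (hz : ‖z‖ < 1) : Continuous fun θ => ec θ / (ec θ - z) ^ 2 :=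
  ec_cont.div ((ec_cont.sub continuous_const).pow 2) fun θ => pow_ne_zero 2 (ec_sub_ne hz θ)

lemma hasDerivAt_CP {w : ℝ → ℂ} (hw : Continuous w) {z : ℂ} (hz : ‖z‖ < 1) :
    HasDerivAt (CP w) (CP' w z) z := by
  set d := (1 - ‖z‖) / 2 with hd
  have hd0 : 0 < d := by rw [hd]; linarith
  have hb : ∀ x ∈ ball z d, ‖x‖ < 1 - d := by
    intro x hx
    rw [mem_ball, dist_eq_norm] at hx
    have : ‖x‖ ≤ ‖x - z‖ + ‖z‖ := by simpa using norm_add_le (x - z) z
    linarith
  unfold CP CP'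
  refine (hasDerivAt_integral_of_dominated_loc_of_deriv_le
    (F := fun (x : ℂ) θ => w θ * (ec θ / (ec θ - x)))
    (F' := fun (x : ℂ) θ => w θ * (ec θ / (ec θ - x) ^ 2))
    (bound := fun θ => ‖w θ‖ * (1 / d ^ 2)) (ball_mem_nhds z hd0) ?_ ?_ ?_ ?_ ?_ ?_).2
  · filter_upwards [ball_mem_nhds z hd0] with x hx
    exact (integrable_mT (hw.mul (cont_ker ((hb x hx).trans_le (by linarith))))).aestronglyMeasurable
  · exact integrable_mT (hw.mul (cont_ker hz))
  · exact (integrable_mT (hw.mul (cont_ker2 hz))).aestronglyMeasurable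
  · refine Filter.Eventually.of_forall fun θ x hx => ?_
    rw [norm_mul, norm_div, norm_pow, norm_ec]
    have h1 := norm_ec_sub (z := x) θ
    have h2 := hb x hx
    have h3 : d ≤ ‖ec θ - x‖ := by linarith
    gcongr
  · exact integrable_mT (hw.norm.mul continuous_const)
  · refine Filter.Eventually.of_forall fun θ x hx => ?_
    have hne := ec_sub_ne (z := x) ((hb x hx).trans_le (by linarith)) θ
    have h3 := ((hasDerivAt_const x (ec θ)).fun_div ((hasDerivAt_id' x).const_sub (ec θ))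
      hne).const_mul (w θ)
    refine h3.congr_deriv ?_
    ring

lemma diffOn_CP {w : ℝ → ℂ} (hw : Continuous w) : DifferentiableOn ℂ (CP w) (ball 0 1) :=
  fun _ hz => (hasDerivAt_CP hw (mem_ball_zero_iff.1 hz)).differentiableAt.differentiableWithinAt

lemma CP_zero (w : ℝ → ℂ) : CP w 0 = ∫ θ, w θ ∂mT := by
  unfold CP
  congr 1; ext θ
  rw [sub_zero, div_self (ec_ne θ), mul_one]

lemma CP_one {z : ℂ} (hz : ‖z‖ < 1) : CP (fun _ => 1) z = 1 := by
  have h := (diffContOnCl_const (𝕜 := ℂ) (c := (1 : ℂ)) (s := ball (0 : ℂ) |(1 : ℝ)|)).circleAverage_smul_div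
    (w := z) (by simpa using hz)
  rw [cA_eq] at h
  unfold CP
  refine Eq.trans ?_ h
  congr 1; ext θ
  simp [ec]

/-- Poisson kernel -/
def Pk (z : ℂ) (θ : ℝ) : ℝ := (2 * (ec θ / (ec θ - z)) - 1).re

lemma Pk_eq {z : ℂ} (hz : ‖z‖ < 1) (θ : ℝ) : Pk z θ = (1 - ‖z‖ ^ 2) / ‖ec θ - z‖ ^ 2 := by
  have h1 : 2 * (ec θ / (ec θ - z)) - 1 = herglotzRieszKernel 0 z (ec θ) := by
    have := ec_sub_ne hz θ
    rw [herglotzRieszKernel_def]
    simp only [sub_zero]
    field_simp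
    ring
  rw [Pk, h1]
  have h2 := congrFun (poissonKernel_eq_re_herglotzRieszKernel (c := 0) (w := z)) (ec θ)
  rw [Function.comp_apply] at h2
  rw [← h2, poissonKernel_def]
  simp

lemma Pk_pos {z : ℂ} (hz : ‖z‖ < 1) (θ : ℝ) : 0 < Pk z θ := by
  rw [Pk_eq hz]
  have h1 := ec_sub_ne hz θ
  have h2 : 0 < 1 - ‖z‖ ^ 2 := by nlinarith [norm_nonneg z]
  positivity

lemma Pk_cont {z : ℂ} (hz : ‖z‖ < 1) : Continuous (Pk z) :=
  continuous_re.comp ((continuous_const.mul (cont_ker hz)).sub continuous_const)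

/-- the Herglotz integral -/
def Hg (w : ℝ → ℂ) (z : ℂ) : ℂ := 2 * CP w z - ∫ θ, w θ ∂mT

lemma Hg_eq {w : ℝ → ℂ} (hw : Continuous w) {z : ℂ} (hz : ‖z‖ < 1) :
    Hg w z = ∫ θ, w θ * (2 * (ec θ / (ec θ - z)) - 1) ∂mT := by
  unfold Hg CP
  rw [← integral_const_mul, ← integral_sub]
  · congr 1; ext θ; ring
  · exact integrable_mT (continuous_const.mul (hw.mul (cont_ker hz)))
  · exact integrable_mT hw

lemma re_Hg {v : ℝ → ℝ} (hv : Continuous v) {z : ℂ} (hz : ‖z‖ < 1) :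
    (Hg (fun θ => (v θ : ℂ)) z).re = ∫ θ, v θ * Pk z θ ∂mT := by
  have hvc : Continuous fun θ => (v θ : ℂ) := continuous_ofReal.comp hv
  rw [Hg_eq hvc hz]
  have hi : Integrable (fun θ => (v θ : ℂ) * (2 * (ec θ / (ec θ - z)) - 1)) mT :=
    integrable_mT (hvc.mul ((continuous_const.mul (cont_ker hz)).sub continuous_const))
  have := integral_re hi
  simp only [RCLike.re_to_complex] at this
  rw [← this]
  congr 1; ext θ
  rw [re_ofReal_mul, Pk]

lemma diffOn_Hg {w : ℝ → ℂ} (hw : Continuous w) : DifferentiableOn ℂ (Hg w) (ball 0 1) :=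
  ((diffOn_CP hw).const_mul 2).sub_const _

lemma Hg_zero (w : ℝ → ℂ) : Hg w 0 = ∫ θ, w θ ∂mT := by
  rw [Hg, CP_zero]; ring

lemma int_Pk {z : ℂ} (hz : ‖z‖ < 1) : ∫ θ, Pk z θ ∂mT = 1 := by
  have h := re_Hg (v := fun _ => 1) continuous_const hz
  simp only [one_mul] at h
  rw [← h]
  simp only [ofReal_one, Hg, CP_one hz, integral_const, measureReal_def, measure_univ,
    ENNReal.toReal_one, one_smul]
  norm_num

/-- Jensen's inequality for the Poisson kernel -/
lemma jensen {v : ℝ → ℝ} (hv : Continuous v) (hv1 : ∀ θ, 0 < v θ) {q : ℝ} (hq : 1 ≤ q) {z : ℂ}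
    (hz : ‖z‖ < 1) (hy : 0 < ∫ θ, v θ * Pk z θ ∂mT) :
    (∫ θ, v θ * Pk z θ ∂mT) ^ q ≤ ∫ θ, v θ ^ q * Pk z θ ∂mT := by
  set y := ∫ θ, v θ * Pk z θ ∂mT with hyd
  have hP := Pk_cont hz
  have hvq : Continuous fun θ => v θ ^ q := hv.rpow_const fun θ => Or.inr (by linarith)
  have key : ∫ θ, (y ^ q * (1 + q * (v θ / y - 1))) * Pk z θ ∂mT ≤ ∫ θ, v θ ^ q * Pk z θ ∂mT := by
    apply integral_mono
    · exact integrable_mT ((continuous_const.mul (continuous_const.add (continuous_const.mul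
        ((hv.div_const y).sub continuous_const)))).mul hP)
    · exact integrable_mT (hvq.mul hP)
    · intro θ
      have h1 := one_add_mul_self_le_rpow_one_add (s := v θ / y - 1)
        (by have := div_pos (hv1 θ) hy; linarith) hq
      have h2 : (1 + (v θ / y - 1)) ^ q = v θ ^ q / y ^ q := by
        rw [show 1 + (v θ / y - 1) = v θ / y by ring, Real.div_rpow (hv1 θ).le hy.le]
      rw [h2] at h1
      have h3 : 0 < y ^ q := Real.rpow_pos_of_pos hy q
      have h4 : y ^ q * (1 + q * (v θ / y - 1)) ≤ v θ ^ q := by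
        rw [mul_comm, ← le_div_iff₀ h3]; exact h1
      exact mul_le_mul_of_nonneg_right h4 (Pk_pos hz θ).le
  refine le_trans (le_of_eq ?_) key
  have e1 : ∫ θ, (y ^ q * (1 + q * (v θ / y - 1))) * Pk z θ ∂mT =
      ∫ θ, (y ^ q * (1 - q)) * Pk z θ + (y ^ q * q / y) * (v θ * Pk z θ) ∂mT := by
    congr 1; ext θ; field_simp; ring
  rw [e1, integral_add, integral_const_mul, integral_const_mul, int_Pk hz, ← hyd]
  · field_simp; ring
  · exact integrable_mT (continuous_const.mul hP)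
  · exact integrable_mT (continuous_const.mul (hv.mul hP))

end

end Pool.Agent.X105.BE
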