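import Pool.Agent.X105.BE.Energy

set_option autoImplicit false

namespace Pool.Agent.X105.BE

open MeasureTheory Complex Set Metric ComplexConjugate Filter Topology

noncomputable section

lemma cut_exists {a b : ℝ} (ha : 0 < a) (hab : a < b) (hb : b < 1) :
    ∃ κ E1 E2 : ℝ → ℝ, Cut κ E1 E2 (Real.sqrt b) ∧ ∀ t, 0 ≤ t → t ≤ a → E1 t = 1 := by
  set k0 : ℝ → ℝ := fun t => max 0 ((t - a) * (b - t)) with hk0
  have hk0c : Continuous k0 := by fun_prop
  have hk0n : ∀ t, 0 ≤ k0 t := fun t => le_max_left _ _
  have hk0z : ∀ t, b ≤ t → k0 t = 0 := by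
    intro t ht
    apply max_eq_left
    nlinarith
  have hk0z' : ∀ t, t ≤ a → k0 t = 0 := by
    intro t ht
    apply max_eq_left
    nlinarith
  set J := ∫ t in (0 : ℝ)..1, k0 t with hJ
  have hJ0 : 0 < J := by
    apply intervalIntegral.integral_pos zero_lt_one hk0c.continuousOn (fun t _ => hk0n t)
    refine ⟨(a + b) / 2, ⟨by linarith, by linarith⟩, ?_⟩
    apply lt_max_of_lt_right
    have h1 : 0 < (a + b) / 2 - a := by linarith
    have h2 : 0 < b - (a + b) / 2 := by linarith
    positivity
  set κ : ℝ → ℝ := fun t => k0 t / J with hκ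
  have κc : Continuous κ := hk0c.div_const J
  have κn : ∀ t, 0 ≤ κ t := fun t => div_nonneg (hk0n t) hJ0.le
  have κz : ∀ t, b ≤ t → κ t = 0 := fun t ht => by simp only [hκ, hk0z t ht, zero_div]
  have κz' : ∀ t, t ≤ a → κ t = 0 := fun t ht => by simp only [hκ, hk0z' t ht, zero_div]
  have hone : ∫ t in (0 : ℝ)..1, κ t = 1 := by
    simp only [hκ]
    rw [intervalIntegral.integral_div, ← hJ, div_self hJ0.ne']
  set E1 : ℝ → ℝ := fun t => ∫ s in t..1, κ s with hE1
  have dE1 : ∀ t, HasDerivAt E1 (-κ t) t := fun t =>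
    intervalIntegral.integral_hasDerivAt_left (κc.intervalIntegrable _ _)
      (κc.stronglyMeasurableAtFilter _ _) κc.continuousAt
  have E1c : Continuous E1 := continuous_iff_continuousAt.2 fun t => (dE1 t).continuousAt
  have E1z : ∀ t, b ≤ t → E1 t = 0 := by
    intro t ht
    have : ∫ s in t..1, κ s = ∫ s in t..1, (0 : ℝ) := by
      apply intervalIntegral.integral_congr
      intro x hx
      apply κz
      have := hx.1
      rcases le_total t 1 with h | h
      · rw [min_eq_left h] at this; linarith
      · rw [min_eq_right h] at this; linarith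
    simp only [hE1]
    rw [this]; simp
  have E1n : ∀ t, 0 ≤ E1 t := by
    intro t
    rcases le_total b t with h | h
    · rw [E1z t h]
    · exact intervalIntegral.integral_nonneg (by linarith) fun s _ => κn s
  have hsplit : ∀ t, E1 t = 1 - ∫ s in (0 : ℝ)..t, κ s := by
    intro t
    have := intervalIntegral.integral_add_adjacent_intervals
      (κc.intervalIntegrable 0 t (μ := volume)) (κc.intervalIntegrable t 1)
    rw [hone] at this
    simp only [hE1]
    linarith
  set E2 : ℝ → ℝ := fun t => ∫ s in t..1, E1 s with hE2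
  have dE2 : ∀ t, HasDerivAt E2 (-E1 t) t := fun t =>
    intervalIntegral.integral_hasDerivAt_left (E1c.intervalIntegrable _ _)
      (E1c.stronglyMeasurableAtFilter _ _) E1c.continuousAt
  have E2z : ∀ t, b ≤ t → E2 t = 0 := by
    intro t ht
    have : ∫ s in t..1, E1 s = ∫ s in t..1, (0 : ℝ) := by
      apply intervalIntegral.integral_congr
      intro x hx
      apply E1z
      have := hx.1
      rcases le_total t 1 with h | h
      · rw [min_eq_left h] at this; linarith
      · rw [min_eq_right h] at this; linarith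
    simp only [hE2]
    rw [this]; simp
  have E2n : ∀ t, 0 ≤ E2 t := by
    intro t
    rcases le_total b t with h | h
    · rw [E2z t h]
    · exact intervalIntegral.integral_nonneg (by linarith) fun s _ => E1n s
  have hsq : Real.sqrt b ^ 2 = b := Real.sq_sqrt (by linarith)
  refine ⟨κ, E1, E2, ⟨Real.sqrt_pos.2 (by linarith), ?_, κc, κn, dE1, dE2, E1n, ?_, E2n, ?_, ?_, ?_⟩,
    ?_⟩
  · rw [Real.sqrt_lt' one_pos]; linarith
  · intro t ht
    rw [hsplit]
    have : 0 ≤ ∫ s in (0 : ℝ)..t, κ s := intervalIntegral.integral_nonneg ht fun s _ => κn s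
    linarith
  · rw [hsq]; exact κz
  · rw [hsq]; exact E1z
  · rw [hsq]; exact E2z
  · intro t ht hta
    rw [hsplit]
    have : ∫ s in (0 : ℝ)..t, κ s = ∫ s in (0 : ℝ)..t, (0 : ℝ) := by
      apply intervalIntegral.integral_congr
      intro x hx
      apply κz'
      have := hx.2
      rw [max_eq_right ht] at this
      linarith
    rw [this]; simp

end

end Pool.Agent.X105.BE
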