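import Pool.Agent.X105.BE.Riesz

set_option autoImplicit false

namespace Pool.Agent.X105.BE

open MeasureTheory Complex Set Metric ComplexConjugate Filter Topology

noncomputable section

lemma cont_pow {q : ℝ} (hq : 1 < q) : Continuous fun x : ℂ => ((‖x‖ ^ (q - 2) : ℝ) : ℂ) * x := by
  rw [continuous_iff_continuousAt]
  intro x
  by_cases hx : x = 0
  · subst hx
    rw [ContinuousAt, mul_zero, tendsto_zero_iff_norm_tendsto_zero]
    have h1 : Tendsto (fun x : ℂ => ‖x‖ ^ (q - 1)) (𝓝 0) (𝓝 0) := by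
      have : Continuous fun x : ℂ => ‖x‖ ^ (q - 1) :=
        continuous_norm.rpow_const fun _ => Or.inr (by linarith)
      have h2 := this.tendsto 0
      simpa [Real.zero_rpow (by linarith : q - 1 ≠ 0)] using h2
    refine squeeze_zero (fun _ => norm_nonneg _) (fun y => ?_) h1
    rw [norm_mul, Complex.norm_real, Real.norm_of_nonneg (by positivity)]
    by_cases hy : y = 0
    · simp [hy, Real.zero_rpow (by linarith : q - 1 ≠ 0)]
    · have := norm_pos_iff.2 hy
      rw [show q - 1 = (q - 2) + 1 by ring, Real.rpow_add_one this.ne']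
  · apply ContinuousAt.mul _ continuousAt_id
    apply continuous_ofReal.continuousAt.comp
    exact continuous_norm.continuousAt.rpow_const (Or.inl (norm_ne_zero_iff.2 hx))

/-- duality on the circle -/
lemma dual {f : ℝ → ℂ} (hf : Continuous f) {q q' : ℝ} (hqq : q.HolderConjugate q') {C : ℝ}
    (hC : 0 ≤ C) (h : ∀ w : ℝ → ℂ, Continuous w → ∫ θ, ‖w θ‖ ^ q' ∂mT ≤ 1 →
      ‖∫ θ, f θ * (starRingEnd ℂ) (w θ) ∂mT‖ ≤ C) :
    ∫ θ, ‖f θ‖ ^ q ∂mT ≤ C ^ q := by
  have hq1 : 1 < q := hqq.lt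
  have hq0 : 0 < q := by linarith
  have hq'0 : 0 < q' := hqq.symm.pos
  set N := ∫ θ, ‖f θ‖ ^ q ∂mT with hN
  have hN0 : 0 ≤ N := integral_nonneg fun θ => by positivity
  rcases hN0.eq_or_lt with h0 | hpos
  · rw [← h0]; positivity
  set c : ℝ := N ^ (-(1 / q')) with hc
  have hcpos : 0 < c := Real.rpow_pos_of_pos hpos _
  have hw : Continuous fun θ => (c : ℂ) * (((‖f θ‖ ^ (q - 2) : ℝ) : ℂ) * f θ) :=
    continuous_const.mul ((cont_pow hq1).comp hf)
  have key : ∀ θ, ‖f θ‖ ^ (q - 2) * ‖f θ‖ = ‖f θ‖ ^ (q - 1) := by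
    intro θ
    by_cases hy : f θ = 0
    · simp [hy, Real.zero_rpow (by linarith : q - 1 ≠ 0)]
    · have := norm_pos_iff.2 hy
      rw [show q - 1 = (q - 2) + 1 by ring, Real.rpow_add_one this.ne']
  have key2 : ∀ θ, ‖f θ‖ ^ (q - 1) * ‖f θ‖ = ‖f θ‖ ^ q := by
    intro θ
    by_cases hy : f θ = 0
    · simp [hy, Real.zero_rpow (by linarith : q ≠ 0)]
    · have := norm_pos_iff.2 hy
      conv_rhs => rw [show q = (q - 1) + 1 by ring, Real.rpow_add_one this.ne']
  have hnorm : ∀ θ, ‖(c : ℂ) * (((‖f θ‖ ^ (q - 2) : ℝ) : ℂ) * f θ)‖ ^ q' = c ^ q' * ‖f θ‖ ^ q := by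
    intro θ
    rw [norm_mul, norm_mul, Complex.norm_real, Complex.norm_real, Real.norm_of_nonneg hcpos.le,
      Real.norm_of_nonneg (by positivity), key, Real.mul_rpow hcpos.le (by positivity),
      ← Real.rpow_mul (norm_nonneg _), hqq.sub_one_mul_conj]
  have hcq : c ^ q' * N = 1 := by
    rw [hc, ← Real.rpow_mul hN0, show -(1 / q') * q' = -1 by field_simp, Real.rpow_neg_one]
    exact inv_mul_cancel₀ hpos.ne'
  have h1 := h _ hw (by
    simp_rw [hnorm]
    rw [integral_const_mul, ← hN, hcq])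
  have h2 : ∫ θ, f θ * (starRingEnd ℂ) ((c : ℂ) * (((‖f θ‖ ^ (q - 2) : ℝ) : ℂ) * f θ)) ∂mT =
      ((c * N : ℝ) : ℂ) := by
    have : ∀ θ, f θ * (starRingEnd ℂ) ((c : ℂ) * (((‖f θ‖ ^ (q - 2) : ℝ) : ℂ) * f θ)) =
        ((c * ‖f θ‖ ^ q : ℝ) : ℂ) := by
      intro θ
      rw [map_mul, map_mul, conj_ofReal, conj_ofReal]
      have h3 : f θ * (starRingEnd ℂ) (f θ) = ((‖f θ‖ ^ 2 : ℝ) : ℂ) := by
        rw [Complex.mul_conj, Complex.normSq_eq_norm_sq]
      have h4 : ‖f θ‖ ^ q = ‖f θ‖ ^ (q - 2) * ‖f θ‖ ^ 2 := by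
        rw [← key2, ← key]; ring
      rw [h4]
      push_cast at h3 ⊢
      linear_combination (c : ℂ) * ((‖f θ‖ ^ (q - 2) : ℝ) : ℂ) * h3
    simp_rw [this]
    rw [integral_complex_ofReal, integral_const_mul]
  rw [h2, Complex.norm_real, Real.norm_of_nonneg (by positivity)] at h1
  have h5 : c * N = N ^ (1 / q) := by
    rw [hc]
    conv_lhs => rw [← Real.rpow_one N]
    rw [← Real.rpow_mul hN0, ← Real.rpow_add hpos]
    congr 1
    have := hqq.inv_add_inv_eq_one
    rw [one_div, one_div]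
    linarith
  rw [h5] at h1
  calc N = (N ^ (1 / q)) ^ q := by
        rw [← Real.rpow_mul hN0, one_div, inv_mul_cancel₀ hq0.ne', Real.rpow_one]
    _ ≤ C ^ q := Real.rpow_le_rpow (by positivity) h1 hq0.le

lemma young_int {f g : ℝ → ℂ} (hf : Continuous f) (hg : Continuous g) {q q' : ℝ}
    (hqq : q.HolderConjugate q') :
    ‖∫ θ, f θ * (starRingEnd ℂ) (g θ) ∂mT‖ ≤ (∫ θ, ‖f θ‖ ^ q ∂mT) + ∫ θ, ‖g θ‖ ^ q' ∂mT := by
  have hq1 : 1 < q := hqq.lt
  have hq1' : 1 < q' := hqq.symm.lt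
  have i1 : Integrable (fun θ => ‖f θ‖ ^ q) mT :=
    integrable_mT (hf.norm.rpow_const fun θ => Or.inr (by linarith))
  have i2 : Integrable (fun θ => ‖g θ‖ ^ q') mT :=
    integrable_mT (hg.norm.rpow_const fun θ => Or.inr (by linarith))
  rw [← integral_add i1 i2]
  refine (norm_integral_le_integral_norm _).trans ?_
  apply integral_mono
  · exact integrable_mT (hf.mul (continuous_conj.comp hg)).norm
  · exact i1.add i2
  · intro θ
    simp only
    rw [norm_mul, Complex.norm_conj]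
    refine (Real.young_inequality_of_nonneg (norm_nonneg _) (norm_nonneg _) hqq).trans ?_
    have a1 : ‖f θ‖ ^ q / q ≤ ‖f θ‖ ^ q := div_le_self (by positivity) hq1.le
    have a2 : ‖g θ‖ ^ q' / q' ≤ ‖g θ‖ ^ q' := div_le_self (by positivity) hq1'.le
    linarith

/-- the adjoint of the Cauchy projection -/
lemma adjoint {w v : ℝ → ℂ} (hw : Continuous w) (hv : Continuous v) {r : ℝ} (hr0 : 0 ≤ r)
    (hr : r < 1) :
    ∫ φ, CP w (circleMap 0 r φ) * (starRingEnd ℂ) (v φ) ∂mT =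
      ∫ θ, w θ * (starRingEnd ℂ) (CP v (circleMap 0 r θ)) ∂mT := by
  have hcm : ∀ φ, ‖circleMap 0 r φ‖ < 1 := fun φ => by
    rw [norm_circleMap_zero, abs_of_nonneg hr0]; exact hr
  have h1 : ∀ φ, CP w (circleMap 0 r φ) * (starRingEnd ℂ) (v φ) =
      ∫ θ, w θ * (ec θ / (ec θ - circleMap 0 r φ)) * (starRingEnd ℂ) (v φ) ∂mT := by
    intro φ
    rw [integral_mul_const]; rfl
  have h2 : ∀ θ, w θ * (starRingEnd ℂ) (CP v (circleMap 0 r θ)) =
      ∫ φ, w θ * (ec θ / (ec θ - circleMap 0 r φ)) * (starRingEnd ℂ) (v φ) ∂mT := by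
    intro θ
    rw [CP, ← integral_conj, ← integral_const_mul]
    congr 1; ext φ
    rw [map_mul, map_div₀, map_sub, conj_ec, circleMap_eq, circleMap_eq, map_mul, conj_ofReal,
      conj_ec]
    have e1 := ec_ne φ
    have e2 := ec_ne θ
    have e3 := ec_sub_ne (hcm φ) θ
    rw [circleMap_eq] at e3
    have e4 : (ec φ)⁻¹ - r * (ec θ)⁻¹ ≠ 0 := by
      intro h
      apply e3
      field_simp at h
      linear_combination h
    field_simp
  simp_rw [h1, h2]
  apply integral_mT_swap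
  have c1 : Continuous fun p : ℝ × ℝ => ec p.2 := ec_cont.comp continuous_snd
  have c2 : Continuous fun p : ℝ × ℝ => circleMap 0 r p.1 :=
    (continuous_circleMap 0 r).comp continuous_fst
  exact ((hw.comp continuous_snd).mul (c1.div (c1.sub c2) fun p => ec_sub_ne (hcm p.1) p.2)).mul
    (continuous_conj.comp (hv.comp continuous_fst))

lemma RB_all {q : ℝ} (hq : 1 < q) : RB q := by
  rcases le_total q 2 with h | h
  · exact RB_small hq h
  · have hqq : q.HolderConjugate (q / (q - 1)) := Real.HolderConjugate.conjExponent hq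
    set q' := q / (q - 1) with hq'
    have hq'1 : 1 < q' := hqq.symm.lt
    have hq'2 : q' ≤ 2 := by
      rw [hq', div_le_iff₀ (by linarith)]; linarith
    obtain ⟨C, hC, hCC⟩ := RB_small hq'1 hq'2
    refine ⟨(1 + C) ^ q, by positivity, ?_⟩
    intro w hw hw1 r hr0 hr
    have hcm : ∀ φ, ‖circleMap 0 r φ‖ < 1 := fun φ => by
      rw [norm_circleMap_zero, abs_of_nonneg hr0]; exact hr
    apply dual (cont_circ (diffOn_CP hw).continuousOn hr0 hr) hqq (by linarith)
    intro v hv hv1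
    rw [adjoint hw hv hr0 hr]
    refine (young_int hw (cont_circ (diffOn_CP hv).continuousOn hr0 hr) hqq).trans ?_
    have := hCC v hv hv1 r hr0 hr
    linarith

end

end Pool.Agent.X105.BE
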