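import Pool.Agent.X105.BE.Wirt

set_option autoImplicit false

namespace Pool.Agent.X105.BE

open MeasureTheory Complex Set Metric ComplexConjugate

noncomputable section

/-- a pair of radial cut-off functions -/
structure Cut (κ E1 E2 : ℝ → ℝ) (s : ℝ) : Prop where
  s0 : 0 < s
  s1 : s < 1
  κc : Continuous κ
  κ0 : ∀ t, 0 ≤ κ t
  dE1 : ∀ t, HasDerivAt E1 (-κ t) t
  dE2 : ∀ t, HasDerivAt E2 (-E1 t) t
  E1n : ∀ t, 0 ≤ E1 t
  E1l : ∀ t, 0 ≤ t → E1 t ≤ 1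
  E2n : ∀ t, 0 ≤ E2 t
  κz : ∀ t, s ^ 2 ≤ t → κ t = 0
  E1z : ∀ t, s ^ 2 ≤ t → E1 t = 0
  E2z : ∀ t, s ^ 2 ≤ t → E2 t = 0

/-- radial function -/
def rad (E : ℝ → ℝ) (z : ℂ) : ℂ := ((E (‖z‖ ^ 2) : ℝ) : ℂ)

lemma HW_rad {E : ℝ → ℝ} {E' z} (h : HasDerivAt E E' (‖z‖ ^ 2)) :
    HW (rad E) (E' * (starRingEnd ℂ) z) (E' * z) z := by
  have := HW.comp_real (HW.normSq z) h
  exact this

lemma rad_zero {E : ℝ → ℝ} {s : ℝ} (hs : 0 < s) (h : ∀ t, s ^ 2 ≤ t → E t = 0) (z : ℂ)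
    (hz : s < ‖z‖) : rad E z = 0 := by
  unfold rad
  rw [h _ (by gcongr), ofReal_zero]

variable {κ E1 E2 : ℝ → ℝ} {s : ℝ}

lemma Cut.E1c (h : Cut κ E1 E2 s) : Continuous E1 :=
  continuous_iff_continuousAt.2 fun t => (h.dE1 t).continuousAt

lemma Cut.E2c (h : Cut κ E1 E2 s) : Continuous E2 :=
  continuous_iff_continuousAt.2 fun t => (h.dE2 t).continuousAt

lemma rad_cont {E : ℝ → ℝ} (h : Continuous E) : Continuous (rad E) := by
  unfold rad
  exact continuous_ofReal.comp (h.comp (continuous_norm.pow 2))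

/-- integration by parts against `χ₁` -/
lemma Cut.ibp1 (h : Cut κ E1 E2 s) {G Ga Gb : ℂ → ℂ}
    (hG : ∀ z ∈ ball (0 : ℂ) 1, HW G (Ga z) (Gb z) z) (hGa : ContinuousOn Ga (ball 0 1))
    (hGb : ContinuousOn Gb (ball 0 1)) :
    ∫ z, rad E1 z * Gb z = ∫ z, rad κ z * z * G z := by
  have hc := rad_cont h.κc
  have := (ibp h.s1 (χ := rad E1) (χa := fun z => -(rad κ z * (starRingEnd ℂ) z))
    (χb := fun z => -(rad κ z * z)) (G := G) (Ga := Ga) (Gb := Gb)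
    (fun z => (HW_rad (h.dE1 _)).congr_val (by simp [rad]) (by simp [rad]))
    (hc.mul continuous_conj).neg (hc.mul continuous_id).neg
    (rad_zero h.s0 h.E1z) (fun z hz => by rw [rad_zero h.s0 h.κz z hz]; simp)
    (fun z hz => by rw [rad_zero h.s0 h.κz z hz]; simp) hG hGa hGb).2
  rw [this, ← integral_neg]
  congr 1
  ext z
  ring

/-- integration by parts against `χ₂` -/
lemma Cut.ibp2 (h : Cut κ E1 E2 s) {G Ga Gb : ℂ → ℂ}
    (hG : ∀ z ∈ ball (0 : ℂ) 1, HW G (Ga z) (Gb z) z) (hGa : ContinuousOn Ga (ball 0 1))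
    (hGb : ContinuousOn Gb (ball 0 1)) :
    ∫ z, rad E2 z * Ga z = ∫ z, rad E1 z * (starRingEnd ℂ) z * G z := by
  have hc := rad_cont h.E1c
  have := (ibp h.s1 (χ := rad E2) (χa := fun z => -(rad E1 z * (starRingEnd ℂ) z))
    (χb := fun z => -(rad E1 z * z)) (G := G) (Ga := Ga) (Gb := Gb)
    (fun z => (HW_rad (h.dE2 _)).congr_val (by simp [rad]) (by simp [rad]))
    (hc.mul continuous_conj).neg (hc.mul continuous_id).neg
    (rad_zero h.s0 h.E2z) (fun z hz => by rw [rad_zero h.s0 h.E1z z hz]; simp)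
    (fun z hz => by rw [rad_zero h.s0 h.E1z z hz]; simp) hG hGa hGb).1
  rw [this, ← integral_neg]
  congr 1
  ext z
  ring

lemma HW.contOn {G Ga Gb : ℂ → ℂ} (hG : ∀ z ∈ ball (0 : ℂ) 1, HW G (Ga z) (Gb z) z) :
    ContinuousOn G (ball 0 1) := fun z hz => (hG z hz).continuousAt.continuousWithinAt

lemma Cut.int {E : ℝ → ℝ} (hs : 0 < s) (hs1 : s < 1) (hE : Continuous E)
    (hE0 : ∀ t, s ^ 2 ≤ t → E t = 0) {f : ℂ → ℂ} (hf : ContinuousOn f (ball 0 1)) :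
    Integrable (fun z => rad E z * f z) :=
  integrable_of_nice hs1 ((rad_cont hE).continuousOn.mul hf)
    (fun z hz => by rw [rad_zero hs hE0 z hz, zero_mul])

lemma Cut.int1 (h : Cut κ E1 E2 s) {f : ℂ → ℂ} (hf : ContinuousOn f (ball 0 1)) :
    Integrable (fun z => rad E1 z * f z) := Cut.int h.s0 h.s1 h.E1c h.E1z hf
lemma Cut.int2 (h : Cut κ E1 E2 s) {f : ℂ → ℂ} (hf : ContinuousOn f (ball 0 1)) :
    Integrable (fun z => rad E2 z * f z) := Cut.int h.s0 h.s1 h.E2c h.E2z hf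
lemma Cut.intk (h : Cut κ E1 E2 s) {f : ℂ → ℂ} (hf : ContinuousOn f (ball 0 1)) :
    Integrable (fun z => rad κ z * f z) := Cut.int h.s0 h.s1 h.κc h.κz hf

lemma Cut.rint {E : ℝ → ℝ} (hs : 0 < s) (hs1 : s < 1) (hE : Continuous E)
    (hE0 : ∀ t, s ^ 2 ≤ t → E t = 0) {f : ℂ → ℝ} (hf : ContinuousOn f (ball 0 1)) :
    Integrable (fun z => E (‖z‖ ^ 2) * f z) := by
  have h1 := (Cut.int hs hs1 hE hE0 (continuous_ofReal.comp_continuousOn hf)).re
  refine h1.congr (Filter.Eventually.of_forall fun z => ?_)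
  simp only [rad, Function.comp]
  rw [← ofReal_mul]
  exact ofReal_re _

lemma Cut.rint1 (h : Cut κ E1 E2 s) {f : ℂ → ℝ} (hf : ContinuousOn f (ball 0 1)) :
    Integrable (fun z => E1 (‖z‖ ^ 2) * f z) := Cut.rint h.s0 h.s1 h.E1c h.E1z hf
lemma Cut.rint2 (h : Cut κ E1 E2 s) {f : ℂ → ℝ} (hf : ContinuousOn f (ball 0 1)) :
    Integrable (fun z => E2 (‖z‖ ^ 2) * f z) := Cut.rint h.s0 h.s1 h.E2c h.E2z hf
lemma Cut.rintk (h : Cut κ E1 E2 s) {f : ℂ → ℝ} (hf : ContinuousOn f (ball 0 1)) :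
    Integrable (fun z => κ (‖z‖ ^ 2) * f z) := Cut.rint h.s0 h.s1 h.κc h.κz hf

/-- the identity for `W` -/
theorem Cut.identityW (h : Cut κ E1 E2 s) {W Wa Wb Wab Wbb : ℂ → ℂ}
    (hW : ∀ z ∈ ball (0 : ℂ) 1, HW W (Wa z) (Wb z) z)
    (hWb : ∀ z ∈ ball (0 : ℂ) 1, HW Wb (Wab z) (Wbb z) z)
    (cWa : ContinuousOn Wa (ball 0 1)) (cWab : ContinuousOn Wab (ball 0 1))
    (cWbb : ContinuousOn Wbb (ball 0 1)) :
    ∫ z, rad E2 z * Wab z = (∫ z, rad κ z * (‖z‖ ^ 2 * W z)) - ∫ z, rad E1 z * W z := by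
  have cW := HW.contOn hW
  have cWb := HW.contOn hWb
  have e1 := h.ibp2 hWb cWab cWbb
  have e2 := h.ibp1 (G := fun z => (starRingEnd ℂ) z * W z)
    (Ga := fun z => (starRingEnd ℂ) z * Wa z)
    (Gb := fun z => W z + (starRingEnd ℂ) z * Wb z)
    (fun z hz => ((HW.conjid z).mul (hW z hz)).congr_val (by ring) (by ring))
    (continuous_conj.continuousOn.mul cWa) (cW.add (continuous_conj.continuousOn.mul cWb))
  have i1 := h.int1 cW
  have i2 := h.int1 (f := fun z => (starRingEnd ℂ) z * Wb z) (continuous_conj.continuousOn.mul cWb)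
  have e3 : ∫ z, rad E1 z * (W z + (starRingEnd ℂ) z * Wb z) =
      (∫ z, rad E1 z * W z) + ∫ z, rad E1 z * ((starRingEnd ℂ) z * Wb z) := by
    rw [← integral_add i1 i2]; congr 1; ext z; ring
  have e4 : ∫ z, rad κ z * z * ((starRingEnd ℂ) z * W z) = ∫ z, rad κ z * (‖z‖ ^ 2 * W z) := by
    congr 1; ext z
    have : (z * (starRingEnd ℂ) z : ℂ) = ‖z‖ ^ 2 := by
      rw [Complex.mul_conj, Complex.normSq_eq_norm_sq]; push_cast; rfl
    rw [← this]; ring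
  have e5 : ∫ z, rad E1 z * (starRingEnd ℂ) z * Wb z =
      ∫ z, rad E1 z * ((starRingEnd ℂ) z * Wb z) := by
    congr 1; ext z; ring
  rw [e1, e5]
  rw [e3, e4] at e2
  linear_combination e2

/-- the identity for `u` -/
theorem Cut.identityU (h : Cut κ E1 E2 s) {u ua ub uab ubb g g1 g2 : ℂ → ℂ}
    (hu : ∀ z ∈ ball (0 : ℂ) 1, HW u (ua z) (ub z) z)
    (hub : ∀ z ∈ ball (0 : ℂ) 1, HW ub (uab z) (ubb z) z)
    (cua : ContinuousOn ua (ball 0 1)) (cuab : ContinuousOn uab (ball 0 1))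
    (cubb : ContinuousOn ubb (ball 0 1))
    (hg : ∀ z ∈ ball (0 : ℂ) 1, HasDerivAt g (g1 z) z)
    (hg1 : ∀ z ∈ ball (0 : ℂ) 1, HasDerivAt g1 (g2 z) z) :
    ∫ z, rad E1 z * (u z * (starRingEnd ℂ) (g z + z * g1 z)) =
      (∫ z, rad κ z * (‖z‖ ^ 2 * (u z * (starRingEnd ℂ) (g z)))) -
        ∫ z, rad E2 z * (uab z * (starRingEnd ℂ) (g z)) := by
  have cu := HW.contOn hu
  have cub := HW.contOn hub
  have cg : ContinuousOn g (ball 0 1) := fun z hz => (hg z hz).continuousAt.continuousWithinAt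
  have cg1 : ContinuousOn g1 (ball 0 1) := fun z hz => (hg1 z hz).continuousAt.continuousWithinAt
  have ccg : ContinuousOn (fun z => (starRingEnd ℂ) (g z)) (ball 0 1) :=
    continuous_conj.comp_continuousOn cg
  have ccg1 : ContinuousOn (fun z => (starRingEnd ℂ) (g1 z)) (ball 0 1) :=
    continuous_conj.comp_continuousOn cg1
  have cid : ContinuousOn (fun z : ℂ => (starRingEnd ℂ) z) (ball 0 1) := continuous_conj.continuousOn
  have Hg : ∀ z ∈ ball (0 : ℂ) 1, HW (fun z => (starRingEnd ℂ) (g z)) 0 ((starRingEnd ℂ) (g1 z)) z :=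
    fun z hz => (HW.of_hasDerivAt (hg z hz)).conj.congr_val (by simp) rfl
  -- second identity
  have e1 := h.ibp2 (G := fun z => ub z * (starRingEnd ℂ) (g z))
    (Ga := fun z => uab z * (starRingEnd ℂ) (g z))
    (Gb := fun z => ubb z * (starRingEnd ℂ) (g z) + ub z * (starRingEnd ℂ) (g1 z))
    (fun z hz => ((hub z hz).mul (Hg z hz)).congr_val (by ring) (by ring))
    (cuab.mul ccg) ((cubb.mul ccg).add (cub.mul ccg1))
  have e2 := h.ibp1 (G := fun z => u z * ((starRingEnd ℂ) z * (starRingEnd ℂ) (g z)))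
    (Ga := fun z => ua z * ((starRingEnd ℂ) z * (starRingEnd ℂ) (g z)))
    (Gb := fun z => (starRingEnd ℂ) z * (ub z * (starRingEnd ℂ) (g z)) +
      u z * (starRingEnd ℂ) (g z + z * g1 z))
    (fun z hz => ((hu z hz).mul ((HW.conjid z).mul (Hg z hz))).congr_val (by ring)
      (by simp only [map_add, map_mul]; ring))
    (cua.mul (cid.mul ccg)) ((cid.mul (cub.mul ccg)).add (cu.mul
      (continuous_conj.comp_continuousOn (cg.add (continuousOn_id.mul cg1)))))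
  have i1 := h.int1 (f := fun z => (starRingEnd ℂ) z * (ub z * (starRingEnd ℂ) (g z)))
    (cid.mul (cub.mul ccg))
  have i2 := h.int1 (f := fun z => u z * (starRingEnd ℂ) (g z + z * g1 z))
    (cu.mul (continuous_conj.comp_continuousOn (cg.add (continuousOn_id.mul cg1))))
  have e3 : ∫ z, rad E1 z * ((starRingEnd ℂ) z * (ub z * (starRingEnd ℂ) (g z)) +
      u z * (starRingEnd ℂ) (g z + z * g1 z)) =
      (∫ z, rad E1 z * ((starRingEnd ℂ) z * (ub z * (starRingEnd ℂ) (g z)))) +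
        ∫ z, rad E1 z * (u z * (starRingEnd ℂ) (g z + z * g1 z)) := by
    rw [← integral_add i1 i2]; congr 1; ext z; ring
  have e4 : ∫ z, rad κ z * z * (u z * ((starRingEnd ℂ) z * (starRingEnd ℂ) (g z))) =
      ∫ z, rad κ z * (‖z‖ ^ 2 * (u z * (starRingEnd ℂ) (g z))) := by
    congr 1; ext z
    have : (z * (starRingEnd ℂ) z : ℂ) = ‖z‖ ^ 2 := by
      rw [Complex.mul_conj, Complex.normSq_eq_norm_sq]; push_cast; rfl
    rw [← this]; ring
  have e5 : ∫ z, rad E1 z * (starRingEnd ℂ) z * (ub z * (starRingEnd ℂ) (g z)) =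
      ∫ z, rad E1 z * ((starRingEnd ℂ) z * (ub z * (starRingEnd ℂ) (g z))) := by
    congr 1; ext z; ring
  rw [e3, e4] at e2
  rw [e5] at e1
  linear_combination e2 + e1

end

end Pool.Agent.X105.BE
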