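import Pool.Agent.X105.BE.Energy

set_option autoImplicit false

namespace Pool.Agent.X105.BE

open MeasureTheory Complex Set Metric ComplexConjugate

noncomputable section

/-- an analytic function on the disc with its first two derivatives -/
structure An (F F1 F2 : ℂ → ℂ) : Prop where
  h1 : ∀ z ∈ ball (0 : ℂ) 1, HasDerivAt F (F1 z) z
  h2 : ∀ z ∈ ball (0 : ℂ) 1, HasDerivAt F1 (F2 z) z
  h3 : ContinuousOn F2 (ball 0 1)

def rho (F : ℂ → ℂ) (ε : ℝ) (z : ℂ) : ℝ := ‖F z‖ ^ 2 + ε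
def LV (F F1 : ℂ → ℂ) (ε : ℝ) (z : ℂ) : ℂ := F z * (starRingEnd ℂ) (F1 z) * ((rho F ε z)⁻¹ : ℝ)
def LVb (F F1 F2 : ℂ → ℂ) (ε : ℝ) (z : ℂ) : ℂ :=
  F z * (starRingEnd ℂ) (F2 z) * ((rho F ε z)⁻¹ : ℝ) +
    F z * (starRingEnd ℂ) (F1 z) * (((-(rho F ε z ^ 2)⁻¹ : ℝ) : ℂ) * (F z * (starRingEnd ℂ) (F1 z)))
def ee (F F1 : ℂ → ℂ) (ε : ℝ) (z : ℂ) : ℝ := ε * ‖F1 z‖ ^ 2 / (rho F ε z) ^ 2
def PP (F : ℂ → ℂ) (ε a : ℝ) (z : ℂ) : ℝ := (rho F ε z) ^ a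

section
variable {F F1 F2 : ℂ → ℂ} {ε a : ℝ} {z : ℂ}

lemma rho_pos (hε : 0 < ε) : 0 < rho F ε z := by unfold rho; positivity

lemma PP_pos (hε : 0 < ε) : 0 < PP F ε a z := Real.rpow_pos_of_pos (rho_pos hε) _

lemma An.cF (h : An F F1 F2) : ContinuousOn F (ball 0 1) :=
  fun z hz => (h.h1 z hz).continuousAt.continuousWithinAt
lemma An.cF1 (h : An F F1 F2) : ContinuousOn F1 (ball 0 1) :=
  fun z hz => (h.h2 z hz).continuousAt.continuousWithinAt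

lemma An.crho (h : An F F1 F2) : ContinuousOn (rho F ε) (ball 0 1) :=
  (h.cF.norm.pow 2).add continuousOn_const

lemma An.crinv (h : An F F1 F2) (hε : 0 < ε) :
    ContinuousOn (fun z => (((rho F ε z)⁻¹ : ℝ) : ℂ)) (ball 0 1) :=
  continuous_ofReal.comp_continuousOn (h.crho.inv₀ fun z _ => (rho_pos hε).ne')

lemma An.cPPr (h : An F F1 F2) (hε : 0 < ε) : ContinuousOn (PP F ε a) (ball 0 1) :=
  h.crho.rpow_const fun z _ => Or.inl (rho_pos hε).ne'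

lemma An.cPP (h : An F F1 F2) (hε : 0 < ε) :
    ContinuousOn (fun z => (PP F ε a z : ℂ)) (ball 0 1) :=
  continuous_ofReal.comp_continuousOn (h.cPPr hε)

lemma conjc {f : ℂ → ℂ} {S : Set ℂ} (h : ContinuousOn f S) :
    ContinuousOn (fun z => (starRingEnd ℂ) (f z)) S := continuous_conj.comp_continuousOn h

lemma An.cLV (h : An F F1 F2) (hε : 0 < ε) : ContinuousOn (LV F F1 ε) (ball 0 1) :=
  (h.cF.mul (conjc h.cF1)).mul (h.crinv hε)

lemma An.cLVb (h : An F F1 F2) (hε : 0 < ε) : ContinuousOn (LVb F F1 F2 ε) (ball 0 1) := by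
  have h1 := h.crho (ε := ε)
  have h2 : ContinuousOn (fun z => ((-(rho F ε z ^ 2)⁻¹ : ℝ) : ℂ)) (ball 0 1) :=
    continuous_ofReal.comp_continuousOn
      ((h1.pow 2).inv₀ fun z _ => (pow_pos (rho_pos hε) 2).ne').neg
  have h3 := h.cF.mul (conjc h.cF1)
  exact ((h.cF.mul (conjc h.h3)).mul (h.crinv hε)).add (h3.mul (h2.mul h3))

lemma An.cee (h : An F F1 F2) (hε : 0 < ε) : ContinuousOn (ee F F1 ε) (ball 0 1) :=
  (continuousOn_const.mul (h.cF1.norm.pow 2)).div (h.crho.pow 2)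
    fun z _ => (pow_pos (rho_pos hε) 2).ne'

lemma An.ceeC (h : An F F1 F2) (hε : 0 < ε) :
    ContinuousOn (fun z => (ee F F1 ε z : ℂ)) (ball 0 1) :=
  continuous_ofReal.comp_continuousOn (h.cee hε)

lemma mul_conj_sq (w : ℂ) : w * (starRingEnd ℂ) w = ((‖w‖ ^ 2 : ℝ) : ℂ) := by
  rw [Complex.mul_conj, Complex.normSq_eq_norm_sq]

lemma An.HWrho (h : An F F1 F2) (hz : z ∈ ball (0 : ℂ) 1) :
    HW (fun z => (rho F ε z : ℂ)) (F1 z * (starRingEnd ℂ) (F z)) (F z * (starRingEnd ℂ) (F1 z)) z := by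
  have h1 := HW.of_hasDerivAt (h.h1 z hz)
  have h2 := (h1.mul h1.conj).add (HW.const (ε : ℂ) z)
  have h3 := h2.congr_val (a' := F1 z * (starRingEnd ℂ) (F z))
    (b' := F z * (starRingEnd ℂ) (F1 z)) (by simp) (by simp)
  refine HasFDerivAt.congr_of_eventuallyEq h3 (Filter.Eventually.of_forall fun w => ?_)
  simp only
  rw [mul_conj_sq, rho]; push_cast; ring

lemma An.HWPP (h : An F F1 F2) (hε : 0 < ε) (hz : z ∈ ball (0 : ℂ) 1) :
    HW (fun z => (PP F ε a z : ℂ)) (PP F ε a z * (starRingEnd ℂ) (a * LV F F1 ε z))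
      (PP F ε a z * (a * LV F F1 ε z)) z := by
  have h1 := (h.HWrho (ε := ε) hz).comp_real
    (Real.hasDerivAt_rpow_const (x := rho F ε z) (p := a) (Or.inl (rho_pos hε).ne'))
  have hp : (rho F ε z) ^ (a - 1) = PP F ε a z * (rho F ε z)⁻¹ := by
    rw [Real.rpow_sub (rho_pos hε), Real.rpow_one, PP]; ring
  refine h1.congr_val ?_ ?_
  · rw [hp, LV]
    simp only [map_mul, conj_ofReal, Complex.conj_conj]
    push_cast
    ring
  · rw [hp, LV]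
    push_cast
    ring

lemma An.HWLV (h : An F F1 F2) (hε : 0 < ε) (hz : z ∈ ball (0 : ℂ) 1) :
    HW (LV F F1 ε) (ee F F1 ε z : ℂ) (LVb F F1 F2 ε z) z := by
  have h1 := HW.of_hasDerivAt (h.h1 z hz)
  have h2 := HW.of_hasDerivAt (h.h2 z hz)
  have h3 := (h.HWrho (ε := ε) hz).comp_real
    (hasDerivAt_inv (x := rho F ε z) (rho_pos hε).ne')
  have h4 := (h1.mul h2.conj).mul h3
  refine h4.congr_val ?_ ?_
  · have e1 : F1 z * (starRingEnd ℂ) (F1 z) = ((‖F1 z‖ ^ 2 : ℝ) : ℂ) := mul_conj_sq _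
    have e2 : F z * (starRingEnd ℂ) (F z) = ((‖F z‖ ^ 2 : ℝ) : ℂ) := mul_conj_sq _
    have e3 : ee F F1 ε z = ‖F1 z‖ ^ 2 * (rho F ε z)⁻¹ -
        ‖F z‖ ^ 2 * ‖F1 z‖ ^ 2 * (rho F ε z ^ 2)⁻¹ := by
      have := (rho_pos (F := F) (z := z) hε).ne'
      rw [ee]
      field_simp
      rw [rho]; ring
    rw [e3]
    simp only [map_zero, mul_zero, add_zero]
    push_cast at e1 e2 ⊢
    linear_combination ((rho F ε z : ℂ)⁻¹ - ‖F z‖ ^ 2 * ((rho F ε z : ℂ) ^ 2)⁻¹) * e1 -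
      (((rho F ε z : ℂ) ^ 2)⁻¹) * (F1 z * (starRingEnd ℂ) (F1 z)) * e2
  · rw [LVb]
    push_cast
    ring

/-- `|F'|²/ρ = |LV|² + ee` -/
lemma split_ee (hε : 0 < ε) : ‖F1 z‖ ^ 2 / rho F ε z = ‖LV F F1 ε z‖ ^ 2 + ee F F1 ε z := by
  have h0 := rho_pos (F := F) (z := z) hε
  have : ‖LV F F1 ε z‖ = ‖F z‖ * ‖F1 z‖ * (rho F ε z)⁻¹ := by
    rw [LV, norm_mul, norm_mul, Complex.norm_conj, Complex.norm_real, Real.norm_eq_abs,
      abs_of_pos (inv_pos.2 h0)]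
  rw [this, ee]
  have := h0.ne'
  field_simp
  rw [rho]

lemma ee_nonneg (hε : 0 < ε) : 0 ≤ ee F F1 ε z := by
  have h0 := rho_pos (F := F) (z := z) hε
  unfold ee; positivity

end

section
variable {F F1 F2 G G1 G2 : ℂ → ℂ} {ε δ a b : ℝ} {z : ℂ} {κ E1 E2 : ℝ → ℝ} {s : ℝ}

/-- `W = ρ^a τ^b` -/
def WW (F G : ℂ → ℂ) (ε δ a b : ℝ) (z : ℂ) : ℝ := PP F ε a z * PP G δ b z

def VV (F F1 G G1 : ℂ → ℂ) (ε δ a b : ℝ) (z : ℂ) : ℂ := a * LV F F1 ε z + b * LV G G1 δ z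

def QQ (F F1 G G1 : ℂ → ℂ) (ε δ a b : ℝ) (z : ℂ) : ℝ :=
  ‖VV F F1 G G1 ε δ a b z‖ ^ 2 + (a * ee F F1 ε z + b * ee G G1 δ z)

lemma WW_pos (hε : 0 < ε) (hδ : 0 < δ) : 0 < WW F G ε δ a b z := mul_pos (PP_pos hε) (PP_pos hδ)

lemma HWWW (hF : An F F1 F2) (hG : An G G1 G2) (hε : 0 < ε) (hδ : 0 < δ)
    (hz : z ∈ ball (0 : ℂ) 1) :
    HW (fun z => (WW F G ε δ a b z : ℂ))
      (WW F G ε δ a b z * (starRingEnd ℂ) (VV F F1 G G1 ε δ a b z))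
      (WW F G ε δ a b z * VV F F1 G G1 ε δ a b z) z := by
  have h1 := (hF.HWPP (a := a) hε hz).mul (hG.HWPP (a := b) hδ hz)
  refine HasFDerivAt.congr_of_eventuallyEq (h1.congr_val ?_ ?_)
    (Filter.Eventually.of_forall fun w => ?_)
  · simp only [WW, VV, map_add, map_mul, conj_ofReal]
    push_cast; ring
  · simp only [WW, VV]
    push_cast; ring
  · simp only [WW]; push_cast; ring

lemma HWVV (hF : An F F1 F2) (hG : An G G1 G2) (hε : 0 < ε) (hδ : 0 < δ)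
    (hz : z ∈ ball (0 : ℂ) 1) :
    HW (VV F F1 G G1 ε δ a b) ((a * ee F F1 ε z + b * ee G G1 δ z : ℝ) : ℂ)
      (a * LVb F F1 F2 ε z + b * LVb G G1 G2 δ z) z := by
  have h1 := ((hF.HWLV hε hz).const_mul (a : ℂ)).add ((hG.HWLV hδ hz).const_mul (b : ℂ))
  exact h1.congr_val (by push_cast; ring) rfl

lemma cWW (hF : An F F1 F2) (hG : An G G1 G2) (hε : 0 < ε) (hδ : 0 < δ) :
    ContinuousOn (WW F G ε δ a b) (ball 0 1) := (hF.cPPr hε).mul (hG.cPPr hδ)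

lemma cVV (hF : An F F1 F2) (hG : An G G1 G2) (hε : 0 < ε) (hδ : 0 < δ) :
    ContinuousOn (VV F F1 G G1 ε δ a b) (ball 0 1) :=
  (continuousOn_const.mul (hF.cLV hε)).add (continuousOn_const.mul (hG.cLV hδ))

lemma cQQ (hF : An F F1 F2) (hG : An G G1 G2) (hε : 0 < ε) (hδ : 0 < δ) :
    ContinuousOn (QQ F F1 G G1 ε δ a b) (ball 0 1) :=
  ((cVV hF hG hε hδ).norm.pow 2).add
    ((continuousOn_const.mul (hF.cee hε)).add (continuousOn_const.mul (hG.cee hδ)))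

/-- the energy inequality for `W = ρ^a τ^b` -/
theorem Cut.energyW (h : Cut κ E1 E2 s) (hF : An F F1 F2) (hG : An G G1 G2) (hε : 0 < ε)
    (hδ : 0 < δ) :
    ∫ z, E2 (‖z‖ ^ 2) * (WW F G ε δ a b z * QQ F F1 G G1 ε δ a b z) ≤
      ∫ z, κ (‖z‖ ^ 2) * (‖z‖ ^ 2 * WW F G ε δ a b z) := by
  have cW : ContinuousOn (fun z => (WW F G ε δ a b z : ℂ)) (ball 0 1) :=
    continuous_ofReal.comp_continuousOn (cWW hF hG hε hδ)
  have cV := cVV (a := a) (b := b) hF hG hε hδ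
  have ce : ContinuousOn (fun z => ((a * ee F F1 ε z + b * ee G G1 δ z : ℝ) : ℂ)) (ball 0 1) :=
    continuous_ofReal.comp_continuousOn
      ((continuousOn_const.mul (hF.cee hε)).add (continuousOn_const.mul (hG.cee hδ)))
  have cVb : ContinuousOn (fun z => a * LVb F F1 F2 ε z + b * LVb G G1 G2 δ z) (ball 0 1) :=
    (continuousOn_const.mul (hF.cLVb hε)).add (continuousOn_const.mul (hG.cLVb hδ))
  have key := h.identityW (W := fun z => (WW F G ε δ a b z : ℂ))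
    (Wa := fun z => WW F G ε δ a b z * (starRingEnd ℂ) (VV F F1 G G1 ε δ a b z))
    (Wb := fun z => WW F G ε δ a b z * VV F F1 G G1 ε δ a b z)
    (Wab := fun z => ((WW F G ε δ a b z * QQ F F1 G G1 ε δ a b z : ℝ) : ℂ))
    (Wbb := fun z => WW F G ε δ a b z * VV F F1 G G1 ε δ a b z * VV F F1 G G1 ε δ a b z +
      WW F G ε δ a b z * (a * LVb F F1 F2 ε z + b * LVb G G1 G2 δ z))
    (fun z hz => HWWW hF hG hε hδ hz)
    (fun z hz => ((HWWW (a := a) (b := b) hF hG hε hδ hz).mul (HWVV hF hG hε hδ hz)).congr_val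
      (by
        have := mul_conj_sq (VV F F1 G G1 ε δ a b z)
        rw [QQ]
        push_cast at this ⊢
        linear_combination (WW F G ε δ a b z : ℂ) * this) rfl)
    (cW.mul (conjc cV))
    (continuous_ofReal.comp_continuousOn ((cWW hF hG hε hδ).mul (cQQ hF hG hε hδ)))
    (((cW.mul cV).mul cV).add (cW.mul cVb))
  have r1 : ∫ z, rad E2 z * ((WW F G ε δ a b z * QQ F F1 G G1 ε δ a b z : ℝ) : ℂ) =
      ((∫ z, E2 (‖z‖ ^ 2) * (WW F G ε δ a b z * QQ F F1 G G1 ε δ a b z) : ℝ) : ℂ) := by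
    rw [← integral_complex_ofReal]; congr 1; ext z; simp [rad]
  have r2 : ∫ z, rad κ z * (‖z‖ ^ 2 * (WW F G ε δ a b z : ℂ)) =
      ((∫ z, κ (‖z‖ ^ 2) * (‖z‖ ^ 2 * WW F G ε δ a b z) : ℝ) : ℂ) := by
    rw [← integral_complex_ofReal]; congr 1; ext z; simp [rad]
  have r3 : ∫ z, rad E1 z * (WW F G ε δ a b z : ℂ) =
      ((∫ z, E1 (‖z‖ ^ 2) * WW F G ε δ a b z : ℝ) : ℂ) := by
    rw [← integral_complex_ofReal]; congr 1; ext z; simp [rad]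
  rw [r1, r2, r3] at key
  have key' : ∫ z, E2 (‖z‖ ^ 2) * (WW F G ε δ a b z * QQ F F1 G G1 ε δ a b z) =
      (∫ z, κ (‖z‖ ^ 2) * (‖z‖ ^ 2 * WW F G ε δ a b z)) - ∫ z, E1 (‖z‖ ^ 2) * WW F G ε δ a b z := by
    exact_mod_cast key
  rw [key']
  have : 0 ≤ ∫ z, E1 (‖z‖ ^ 2) * WW F G ε δ a b z :=
    integral_nonneg fun z => mul_nonneg (h.E1n _) (WW_pos hε hδ).le
  linarith

end

end

end Pool.Agent.X105.BE
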