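import Pool.Agent.X105.BE.Energy2

set_option autoImplicit false

namespace Pool.Agent.X105.BE

open MeasureTheory Complex Set Metric ComplexConjugate

noncomputable section

/-- the regularised `|F|^{p-2} F` with `α = (p-2)/2` -/
def uu (F : ℂ → ℂ) (ε α : ℝ) (z : ℂ) : ℂ := PP F ε α z * F z

section
variable {F F1 F2 G G1 G2 : ℂ → ℂ} {ε δ a b α : ℝ} {z : ℂ} {κ E1 E2 : ℝ → ℝ} {s : ℝ}

def uab (F F1 : ℂ → ℂ) (ε α : ℝ) (z : ℂ) : ℂ :=
  PP F ε α z * ((‖(α : ℂ) * LV F F1 ε z‖ ^ 2 : ℝ) + (α * ee F F1 ε z : ℝ)) * F z +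
    PP F ε α z * (α * LV F F1 ε z) * F1 z

lemma norm_LV_eq (hε : 0 < ε) : ‖LV F F1 ε z‖ = ‖F z‖ * ‖F1 z‖ / rho F ε z := by
  have h0 := rho_pos (F := F) (z := z) hε
  rw [LV, norm_mul, norm_mul, Complex.norm_conj, Complex.norm_real, Real.norm_eq_abs,
      abs_of_pos (inv_pos.2 h0), div_eq_mul_inv]

lemma norm_le_sqrt_rho (hε : 0 < ε) : ‖F z‖ ≤ (rho F ε z) ^ (1 / 2 : ℝ) := by
  rw [← Real.sqrt_eq_rpow]
  apply Real.le_sqrt_of_sq_le
  rw [rho]; linarith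

lemma norm_uab_le (hε : 0 < ε) :
    ‖uab F F1 ε α z‖ ≤ (α ^ 2 + 2 * |α|) * (PP F ε α z * ‖F z‖ * (‖F1 z‖ ^ 2 / rho F ε z)) := by
  have h0 := rho_pos (F := F) (z := z) hε
  have hP := PP_pos (F := F) (a := α) (z := z) hε
  have hs := split_ee (F := F) (F1 := F1) (z := z) hε
  have he := ee_nonneg (F := F) (F1 := F1) (z := z) hε
  have hN := norm_LV_eq (F := F) (F1 := F1) (z := z) hε
  set N := ‖F1 z‖ ^ 2 / rho F ε z with hNdef
  have hLV2 : ‖LV F F1 ε z‖ ^ 2 ≤ N := by linarith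
  have hee : ee F F1 ε z ≤ N := by linarith [sq_nonneg ‖LV F F1 ε z‖]
  have hN0 : 0 ≤ N := by positivity
  have t1 : ‖PP F ε α z * ((‖(α : ℂ) * LV F F1 ε z‖ ^ 2 : ℝ) + (α * ee F F1 ε z : ℝ)) * F z‖ ≤
      PP F ε α z * ((α ^ 2 + |α|) * N) * ‖F z‖ := by
    rw [norm_mul, norm_mul, Complex.norm_real, Real.norm_of_nonneg hP.le]
    gcongr
    refine (norm_add_le _ _).trans ?_
    rw [Complex.norm_real, Complex.norm_real, Real.norm_of_nonneg (by positivity), norm_mul,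
      Complex.norm_real, Real.norm_eq_abs, Real.norm_eq_abs, mul_pow, sq_abs, abs_mul,
      abs_of_nonneg he]
    have := mul_le_mul_of_nonneg_left hLV2 (sq_nonneg α)
    have := mul_le_mul_of_nonneg_left hee (abs_nonneg α)
    linarith
  have t2 : ‖PP F ε α z * (α * LV F F1 ε z) * F1 z‖ = PP F ε α z * (|α| * N) * ‖F z‖ := by
    rw [norm_mul, norm_mul, Complex.norm_real, Real.norm_of_nonneg hP.le, norm_mul,
      Complex.norm_real, Real.norm_eq_abs, hN, hNdef]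
    field_simp
  unfold uab
  refine (norm_add_le _ _).trans ?_
  rw [t2]
  refine (add_le_add_left t1 _).trans (le_of_eq ?_)
  ring

lemma cuab (hF : An F F1 F2) (hε : 0 < ε) : ContinuousOn (uab F F1 ε α) (ball 0 1) := by
  have c1 : ContinuousOn (fun z => ((‖(α : ℂ) * LV F F1 ε z‖ ^ 2 : ℝ) : ℂ)) (ball 0 1) :=
    continuous_ofReal.comp_continuousOn ((continuousOn_const.mul (hF.cLV hε)).norm.pow 2)
  have c2 : ContinuousOn (fun z => ((α * ee F F1 ε z : ℝ) : ℂ)) (ball 0 1) :=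
    continuous_ofReal.comp_continuousOn (continuousOn_const.mul (hF.cee hε))
  exact (((hF.cPP hε).mul (c1.add c2)).mul hF.cF).add
    (((hF.cPP hε).mul (continuousOn_const.mul (hF.cLV hε))).mul hF.cF1)

lemma cuu (hF : An F F1 F2) (hε : 0 < ε) : ContinuousOn (uu F ε α) (ball 0 1) :=
  (hF.cPP hε).mul hF.cF

lemma HWuu (hF : An F F1 F2) (hε : 0 < ε) (hz : z ∈ ball (0 : ℂ) 1) :
    HW (uu F ε α) (PP F ε α z * (starRingEnd ℂ) (α * LV F F1 ε z) * F z + PP F ε α z * F1 z)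
      (PP F ε α z * (α * LV F F1 ε z) * F z) z := by
  have h1 := (hF.HWPP (a := α) hε hz).mul (HW.of_hasDerivAt (hF.h1 z hz))
  exact h1.congr_val (by ring) (by ring)

lemma HWuub (hF : An F F1 F2) (hε : 0 < ε) (hz : z ∈ ball (0 : ℂ) 1) :
    HW (fun z => PP F ε α z * (α * LV F F1 ε z) * F z) (uab F F1 ε α z)
      ((PP F ε α z * (α * LV F F1 ε z) * (α * LV F F1 ε z) +
        PP F ε α z * (α * LVb F F1 F2 ε z)) * F z) z := by
  have h1 := ((hF.HWPP (a := α) hε hz).mul ((hF.HWLV hε hz).const_mul (α : ℂ))).mul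
    (HW.of_hasDerivAt (hF.h1 z hz))
  refine h1.congr_val ?_ (by ring)
  have := mul_conj_sq ((α : ℂ) * LV F F1 ε z)
  rw [uab]
  push_cast at this ⊢
  linear_combination (PP F ε α z : ℂ) * F z * this

/-- first bound -/
theorem Cut.energyU0 (h : Cut κ E1 E2 s) (hF : An F F1 F2) (hG : An G G1 G2) (hε : 0 < ε)
    (hδ : 0 < δ) :
    ‖∫ z, rad E1 z * (uu F ε α z * (starRingEnd ℂ) (G z + z * G1 z))‖ ≤
      (∫ z, κ (‖z‖ ^ 2) * (‖z‖ ^ 2 * WW F G ε δ (α + 1 / 2) (1 / 2) z)) +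
      (α ^ 2 + 2 * |α|) *
        ∫ z, E2 (‖z‖ ^ 2) * (WW F G ε δ (α + 1 / 2) (1 / 2) z * (‖F1 z‖ ^ 2 / rho F ε z)) := by
  have key := h.identityU (u := uu F ε α) (fun z hz => HWuu (α := α) hF hε hz)
    (fun z hz => HWuub (α := α) hF hε hz)
    ((((hF.cPP hε).mul (conjc (continuousOn_const.mul (hF.cLV hε)))).mul hF.cF).add
      ((hF.cPP hε).mul hF.cF1)) (cuab hF hε)
    (((((hF.cPP hε).mul (continuousOn_const.mul (hF.cLV hε))).mul
      (continuousOn_const.mul (hF.cLV hε))).add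
      ((hF.cPP hε).mul (continuousOn_const.mul (hF.cLVb hε)))).mul hF.cF) hG.h1 hG.h2
  rw [key]
  have hbase : ∀ z, PP F ε α z * ‖F z‖ * ‖G z‖ ≤ WW F G ε δ (α + 1 / 2) (1 / 2) z := by
    intro z
    have hP := PP_pos (F := F) (a := α) (z := z) hε
    unfold WW
    have e1 : PP F ε (α + 1 / 2) z = PP F ε α z * (rho F ε z) ^ (1 / 2 : ℝ) := by
      rw [PP, Real.rpow_add (rho_pos hε)]; rfl
    rw [e1]
    have e2 := norm_le_sqrt_rho (F := F) (z := z) hε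
    have e3 := norm_le_sqrt_rho (F := G) (z := z) hδ
    have e4 : PP G δ (1 / 2) z = (rho G δ z) ^ (1 / 2 : ℝ) := rfl
    rw [e4]
    have e5 : 0 ≤ (rho F ε z) ^ (1 / 2 : ℝ) := (norm_nonneg _).trans e2
    gcongr
  refine (norm_sub_le _ _).trans (add_le_add ?_ ?_)
  · refine (norm_integral_le_integral_norm _).trans ?_
    apply integral_mono_of_nonneg (Filter.Eventually.of_forall fun z => norm_nonneg _)
    · exact h.rintk ((continuous_norm.pow 2).continuousOn.mul (cWW hF hG hε hδ))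
    · refine Filter.Eventually.of_forall fun z => ?_
      simp only [norm_mul, norm_pow, Complex.norm_real, norm_norm, Complex.norm_conj, rad, uu]
      rw [Real.norm_of_nonneg (h.κ0 _), Real.norm_of_nonneg (PP_pos hε).le]
      have := hbase z
      gcongr
      exact h.κ0 _
  · refine (norm_integral_le_integral_norm _).trans ?_
    rw [← integral_const_mul]
    apply integral_mono_of_nonneg (Filter.Eventually.of_forall fun z => norm_nonneg _)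
    · exact (h.rint2 ((cWW hF hG hε hδ).mul
          ((hF.cF1.norm.pow 2).div hF.crho fun z _ => (rho_pos hε).ne'))).const_mul _
    · refine Filter.Eventually.of_forall fun z => ?_
      simp only [norm_mul, Complex.norm_real, Complex.norm_conj, rad]
      rw [Real.norm_of_nonneg (h.E2n _)]
      have h1 := hbase z
      have h2 := norm_uab_le (F := F) (F1 := F1) (α := α) (z := z) hε
      have h3 : 0 ≤ ‖F1 z‖ ^ 2 / rho F ε z := div_nonneg (by positivity) (rho_pos hε).le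
      have hα : 0 ≤ α ^ 2 + 2 * |α| := by positivity
      calc E2 (‖z‖ ^ 2) * (‖uab F F1 ε α z‖ * ‖G z‖) ≤
          E2 (‖z‖ ^ 2) * ((α ^ 2 + 2 * |α|) *
            (PP F ε α z * ‖F z‖ * (‖F1 z‖ ^ 2 / rho F ε z)) * ‖G z‖) := by
              have := h.E2n (‖z‖ ^ 2)
              gcongr
        _ = (α ^ 2 + 2 * |α|) * (E2 (‖z‖ ^ 2) * ((PP F ε α z * ‖F z‖ * ‖G z‖) *
            (‖F1 z‖ ^ 2 / rho F ε z))) := by ring
        _ ≤ _ := by
              have := h.E2n (‖z‖ ^ 2)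
              gcongr

/-- pointwise inequality, case `W₀ ≤ K Y` -/
lemma point2 (hε : 0 < ε) (hδ : 0 < δ) {a0 B K : ℝ} (ha0 : 0 < a0) (hB : 0 < B)
    (hK : WW F G ε δ a0 (1 / 2) z ≤ K * WW F G ε δ 0 B z) :
    WW F G ε δ a0 (1 / 2) z * (‖F1 z‖ ^ 2 / rho F ε z) ≤
      (2 / a0 ^ 2 + 1 / a0) * (WW F G ε δ a0 (1 / 2) z * QQ F F1 G G1 ε δ a0 (1 / 2) z) +
      (K / (2 * a0 ^ 2 * B ^ 2)) * (WW F G ε δ 0 B z * QQ F F1 G G1 ε δ 0 B z) := by
  rw [split_ee hε]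
  have hW := WW_pos (F := F) (G := G) (a := a0) (b := 1 / 2) (z := z) hε hδ
  have hY := WW_pos (F := F) (G := G) (a := 0) (b := B) (z := z) hε hδ
  have he := ee_nonneg (F := F) (F1 := F1) (z := z) hε
  have hg := ee_nonneg (F := G) (F1 := G1) (z := z) hδ
  set W0 := WW F G ε δ a0 (1 / 2) z
  set Y := WW F G ε δ 0 B z
  set e := ee F F1 ε z
  set e' := ee G G1 δ z
  set L := LV F F1 ε z with hL
  set M := LV G G1 δ z with hM
  have hQ0 : QQ F F1 G G1 ε δ a0 (1 / 2) z = ‖(a0 : ℂ) * L + ((1 / 2 : ℝ) : ℂ) * M‖ ^ 2 +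
      (a0 * e + 1 / 2 * e') := rfl
  have hQB : QQ F F1 G G1 ε δ 0 B z = B ^ 2 * ‖M‖ ^ 2 + B * e' := by
    rw [QQ, VV]; simp [mul_pow, abs_of_pos hB, hM, e']
  rw [hQ0, hQB]
  set V := (a0 : ℂ) * L + ((1 / 2 : ℝ) : ℂ) * M with hV
  have h1 : a0 * ‖L‖ ≤ ‖V‖ + 1 / 2 * ‖M‖ := by
    have : (a0 : ℂ) * L = V - ((1 / 2 : ℝ) : ℂ) * M := by rw [hV]; ring
    calc a0 * ‖L‖ = ‖(a0 : ℂ) * L‖ := by
          rw [norm_mul, Complex.norm_real, Real.norm_of_nonneg ha0.le]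
      _ ≤ ‖V‖ + ‖((1 / 2 : ℝ) : ℂ) * M‖ := by rw [this]; exact norm_sub_le _ _
      _ = _ := by rw [norm_mul, Complex.norm_real, Real.norm_of_nonneg (by norm_num)]
  have h2 : a0 ^ 2 * ‖L‖ ^ 2 ≤ 2 * ‖V‖ ^ 2 + 1 / 2 * ‖M‖ ^ 2 := by
    have h3 : (a0 * ‖L‖) ^ 2 ≤ (‖V‖ + 1 / 2 * ‖M‖) ^ 2 := by gcongr
    nlinarith [sq_nonneg (‖V‖ - 1 / 2 * ‖M‖)]
  have h3 : ‖L‖ ^ 2 ≤ 2 / a0 ^ 2 * ‖V‖ ^ 2 + 1 / (2 * a0 ^ 2) * ‖M‖ ^ 2 := by
    have : 0 < a0 ^ 2 := by positivity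
    rw [← mul_le_mul_iff_right₀ this]
    calc a0 ^ 2 * ‖L‖ ^ 2 ≤ 2 * ‖V‖ ^ 2 + 1 / 2 * ‖M‖ ^ 2 := h2
      _ = _ := by field_simp
  have hK0 : 0 ≤ K := by
    by_contra hc
    have : K * Y < 0 := mul_neg_of_neg_of_pos (not_le.mp hc) hY
    linarith
  calc W0 * (‖L‖ ^ 2 + e) = W0 * ‖L‖ ^ 2 + W0 * e := by ring
    _ ≤ W0 * (2 / a0 ^ 2 * ‖V‖ ^ 2 + 1 / (2 * a0 ^ 2) * ‖M‖ ^ 2) + W0 * e := by gcongr
    _ = 2 / a0 ^ 2 * (W0 * ‖V‖ ^ 2) + W0 * (1 / (2 * a0 ^ 2) * ‖M‖ ^ 2) + 1 / a0 * (W0 * (a0 * e)) := by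
        field_simp
    _ ≤ 2 / a0 ^ 2 * (W0 * ‖V‖ ^ 2) + K * Y * (1 / (2 * a0 ^ 2) * ‖M‖ ^ 2) +
        1 / a0 * (W0 * (a0 * e)) := by gcongr
    _ = 2 / a0 ^ 2 * (W0 * ‖V‖ ^ 2) + 1 / a0 * (W0 * (a0 * e)) +
        (K / (2 * a0 ^ 2 * B ^ 2)) * (Y * (B ^ 2 * ‖M‖ ^ 2)) := by
        field_simp
        ring
    _ ≤ _ := by
        have i1 : 0 ≤ W0 * ‖V‖ ^ 2 := by positivity
        have i2 : 0 ≤ W0 * (a0 * e) := by positivity
        have i3 : 0 ≤ W0 * (1 / 2 * e') := by positivity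
        have i4 : 0 ≤ Y * (B * e') := by positivity
        have c1 : 0 ≤ 2 / a0 ^ 2 := by positivity
        have c2 : 0 ≤ 1 / a0 := by positivity
        have c3 : 0 ≤ K / (2 * a0 ^ 2 * B ^ 2) := by positivity
        nlinarith [mul_nonneg c1 i2, mul_nonneg c1 i3, mul_nonneg c2 i1, mul_nonneg c2 i3,
          mul_nonneg c3 i4]

/-- pointwise inequality, case `W₀ ≤ X` -/
lemma point1 (hε : 0 < ε) (hδ : 0 < δ) {a0 A : ℝ} (hA : 0 < A)
    (hK : WW F G ε δ a0 (1 / 2) z ≤ WW F G ε δ A 0 z) :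
    WW F G ε δ a0 (1 / 2) z * (‖F1 z‖ ^ 2 / rho F ε z) ≤
      (1 / A ^ 2 + 1 / A) * (WW F G ε δ A 0 z * QQ F F1 G G1 ε δ A 0 z) := by
  rw [split_ee hε]
  have hX := WW_pos (F := F) (G := G) (a := A) (b := 0) (z := z) hε hδ
  have he := ee_nonneg (F := F) (F1 := F1) (z := z) hε
  have hQ : QQ F F1 G G1 ε δ A 0 z = A ^ 2 * ‖LV F F1 ε z‖ ^ 2 + A * ee F F1 ε z := by
    rw [QQ, VV]; simp [mul_pow, abs_of_pos hA]
  rw [hQ]
  set X := WW F G ε δ A 0 z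
  set e := ee F F1 ε z
  set L := ‖LV F F1 ε z‖ ^ 2
  have hL : 0 ≤ L := by positivity
  calc WW F G ε δ a0 (1 / 2) z * (L + e) ≤ X * (L + e) := by gcongr
    _ = 1 / A ^ 2 * (X * (A ^ 2 * L)) + 1 / A * (X * (A * e)) := by field_simp
    _ ≤ _ := by
        have i1 : 0 ≤ X * (A ^ 2 * L) := by positivity
        have i2 : 0 ≤ X * (A * e) := by positivity
        have c1 : 0 ≤ 1 / A ^ 2 := by positivity
        have c2 : 0 ≤ 1 / A := by positivity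
        nlinarith [mul_nonneg c1 i2, mul_nonneg c2 i1]

lemma QQ_nonneg (hε : 0 < ε) (hδ : 0 < δ) (ha : 0 ≤ a) (hb : 0 ≤ b) :
    0 ≤ QQ F F1 G G1 ε δ a b z := by
  have he := ee_nonneg (F := F) (F1 := F1) (z := z) hε
  have hg := ee_nonneg (F := G) (F1 := G1) (z := z) hδ
  unfold QQ; positivity

/-- Young's inequality -/
lemma young (hε : 0 < ε) (hδ : 0 < δ) {a0 A B : ℝ} (ha0 : 0 < a0) (hA : 0 < A) (hB : 0 < B)
    (hAB : a0 / A + 1 / (2 * B) = 1) :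
    WW F G ε δ a0 (1 / 2) z ≤ a0 / A * WW F G ε δ A 0 z + 1 / (2 * B) * WW F G ε δ 0 B z := by
  have h1 := Real.geom_mean_le_arith_mean2_weighted (w₁ := a0 / A) (w₂ := 1 / (2 * B))
    (p₁ := WW F G ε δ A 0 z) (p₂ := WW F G ε δ 0 B z) (by positivity) (by positivity)
    (WW_pos hε hδ).le (WW_pos hε hδ).le hAB
  refine le_trans (le_of_eq ?_) h1
  simp only [WW, PP, Real.rpow_zero, mul_one, one_mul]
  rw [← Real.rpow_mul (rho_pos hε).le, ← Real.rpow_mul (rho_pos hδ).le]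
  congr 2 <;> field_simp

/-- the energy estimate (Hardy case) -/
theorem Cut.energyA (h : Cut κ E1 E2 s) (hF : An F F1 F2) (hG : An G G1 G2) (hε : 0 < ε)
    (hδ : 0 < δ) {A B : ℝ} (ha0 : 0 < α + 1 / 2) (hA : 0 < A) (hB : 0 < B)
    (hAB : (α + 1 / 2) / A + 1 / (2 * B) = 1) :
    ‖∫ z, rad E1 z * (uu F ε α z * (starRingEnd ℂ) (G z + z * G1 z))‖ ≤
      (1 + 2 * ((α ^ 2 + 2 * |α|) * (2 / (α + 1 / 2) ^ 2 + 1 / (α + 1 / 2) +
        1 / (2 * (α + 1 / 2) ^ 2 * B ^ 2) + (1 / A ^ 2 + 1 / A)))) *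
      ∫ z, κ (‖z‖ ^ 2) * (‖z‖ ^ 2 * (PP F ε A z + PP G δ B z)) := by
  set a0 := α + 1 / 2 with ha0d
  set C := 2 / a0 ^ 2 + 1 / a0 + 1 / (2 * a0 ^ 2 * B ^ 2) + (1 / A ^ 2 + 1 / A) with hC
  have hC0 : 0 ≤ C := by positivity
  have h0 := h.energyU0 (α := α) hF hG hε hδ
  rw [← ha0d] at h0
  -- integrability
  have ik : ∀ a b : ℝ, Integrable (fun z => κ (‖z‖ ^ 2) * (‖z‖ ^ 2 * WW F G ε δ a b z)) := by
    intro a b
    exact h.rintk ((continuous_norm.pow 2).continuousOn.mul (cWW hF hG hε hδ))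
  have i2 : ∀ a b : ℝ, Integrable (fun z => E2 (‖z‖ ^ 2) * (WW F G ε δ a b z *
      QQ F F1 G G1 ε δ a b z)) := by
    intro a b
    exact h.rint2 ((cWW hF hG hε hδ).mul (cQQ hF hG hε hδ))
  have h1 := h.energyW (a := a0) (b := 1 / 2) hF hG hε hδ
  have h2 := h.energyW (a := A) (b := 0) hF hG hε hδ
  have h3 := h.energyW (a := 0) (b := B) hF hG hε hδ
  have hpt : ∀ z, WW F G ε δ a0 (1 / 2) z * (‖F1 z‖ ^ 2 / rho F ε z) ≤
      C * (WW F G ε δ a0 (1 / 2) z * QQ F F1 G G1 ε δ a0 (1 / 2) z +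
        (WW F G ε δ A 0 z * QQ F F1 G G1 ε δ A 0 z + WW F G ε δ 0 B z * QQ F F1 G G1 ε δ 0 B z)) := by
    intro z
    have hy := young (F := F) (G := G) (z := z) hε hδ ha0 hA hB hAB
    have q1 : 0 ≤ WW F G ε δ a0 (1 / 2) z * QQ F F1 G G1 ε δ a0 (1 / 2) z :=
      mul_nonneg (WW_pos hε hδ).le (QQ_nonneg hε hδ ha0.le (by norm_num))
    have q2 : 0 ≤ WW F G ε δ A 0 z * QQ F F1 G G1 ε δ A 0 z :=
      mul_nonneg (WW_pos hε hδ).le (QQ_nonneg hε hδ hA.le le_rfl)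
    have q3 : 0 ≤ WW F G ε δ 0 B z * QQ F F1 G G1 ε δ 0 B z :=
      mul_nonneg (WW_pos hε hδ).le (QQ_nonneg hε hδ le_rfl hB.le)
    have c1 : 0 ≤ 2 / a0 ^ 2 := by positivity
    have c2 : 0 ≤ 1 / a0 := by positivity
    have c3 : 0 ≤ 1 / (2 * a0 ^ 2 * B ^ 2) := by positivity
    have c4 : 0 ≤ 1 / A ^ 2 + 1 / A := by positivity
    have c5 : 0 ≤ 2 / a0 ^ 2 + 1 / a0 := by positivity
    rcases le_total (WW F G ε δ 0 B z) (WW F G ε δ A 0 z) with hle | hle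
    · have hK : WW F G ε δ a0 (1 / 2) z ≤ WW F G ε δ A 0 z := by
        refine hy.trans ?_
        have : 1 / (2 * B) * WW F G ε δ 0 B z ≤ 1 / (2 * B) * WW F G ε δ A 0 z := by gcongr
        have e : WW F G ε δ A 0 z = (a0 / A + 1 / (2 * B)) * WW F G ε δ A 0 z := by
          rw [hAB, one_mul]
        nlinarith
      have := point1 (F := F) (F1 := F1) (G := G) (G1 := G1) (z := z) hε hδ hA hK
      rw [hC]
      nlinarith [mul_nonneg c5 q1, mul_nonneg c5 q2, mul_nonneg c5 q3, mul_nonneg c3 q1,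
        mul_nonneg c3 q2, mul_nonneg c3 q3, mul_nonneg c4 q1, mul_nonneg c4 q3]
    · have hK : WW F G ε δ a0 (1 / 2) z ≤ 1 * WW F G ε δ 0 B z := by
        refine hy.trans ?_
        have : a0 / A * WW F G ε δ A 0 z ≤ a0 / A * WW F G ε δ 0 B z := by gcongr
        have e : WW F G ε δ 0 B z = (a0 / A + 1 / (2 * B)) * WW F G ε δ 0 B z := by
          rw [hAB, one_mul]
        nlinarith
      have := point2 (F := F) (F1 := F1) (G := G) (G1 := G1) (z := z) hε hδ ha0 hB hK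
      rw [hC]
      nlinarith [mul_nonneg c5 q2, mul_nonneg c5 q3, mul_nonneg c3 q1,
        mul_nonneg c3 q2, mul_nonneg c4 q1, mul_nonneg c4 q2, mul_nonneg c4 q3]
  have hint : ∫ z, E2 (‖z‖ ^ 2) * (WW F G ε δ a0 (1 / 2) z * (‖F1 z‖ ^ 2 / rho F ε z)) ≤
      C * ((∫ z, E2 (‖z‖ ^ 2) * (WW F G ε δ a0 (1 / 2) z * QQ F F1 G G1 ε δ a0 (1 / 2) z)) +
        ((∫ z, E2 (‖z‖ ^ 2) * (WW F G ε δ A 0 z * QQ F F1 G G1 ε δ A 0 z)) +
          ∫ z, E2 (‖z‖ ^ 2) * (WW F G ε δ 0 B z * QQ F F1 G G1 ε δ 0 B z))) := by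
    have i3 : Integrable (fun z => E2 (‖z‖ ^ 2) * (WW F G ε δ A 0 z *
      QQ F F1 G G1 ε δ A 0 z) + E2 (‖z‖ ^ 2) * (WW F G ε δ 0 B z *
      QQ F F1 G G1 ε δ 0 B z)) := (i2 A 0).add (i2 0 B)
    have i4 : Integrable (fun z => E2 (‖z‖ ^ 2) * (WW F G ε δ a0 (1 / 2) z *
      QQ F F1 G G1 ε δ a0 (1 / 2) z) + (E2 (‖z‖ ^ 2) * (WW F G ε δ A 0 z *
      QQ F F1 G G1 ε δ A 0 z) + E2 (‖z‖ ^ 2) * (WW F G ε δ 0 B z *
      QQ F F1 G G1 ε δ 0 B z))) := (i2 a0 (1 / 2)).add i3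
    rw [← integral_add (i2 _ _) (i2 _ _), ← integral_add (i2 _ _) i3,
      ← integral_const_mul]
    apply integral_mono_of_nonneg
    · refine Filter.Eventually.of_forall fun z => ?_
      exact mul_nonneg (h.E2n _) (mul_nonneg (WW_pos hε hδ).le
        (div_nonneg (by positivity) (rho_pos hε).le))
    · exact i4.const_mul _
    · refine Filter.Eventually.of_forall fun z => ?_
      have := mul_le_mul_of_nonneg_left (hpt z) (h.E2n (‖z‖ ^ 2))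
      simp only
      refine this.trans (le_of_eq ?_)
      ring
  have hsum : (∫ z, κ (‖z‖ ^ 2) * (‖z‖ ^ 2 * (PP F ε A z + PP G δ B z))) =
      (∫ z, κ (‖z‖ ^ 2) * (‖z‖ ^ 2 * WW F G ε δ A 0 z)) +
        ∫ z, κ (‖z‖ ^ 2) * (‖z‖ ^ 2 * WW F G ε δ 0 B z) := by
    rw [← integral_add (ik _ _) (ik _ _)]
    congr 1; ext z
    simp only [WW, PP, Real.rpow_zero]
    ring
  have hk0 : (∫ z, κ (‖z‖ ^ 2) * (‖z‖ ^ 2 * WW F G ε δ a0 (1 / 2) z)) ≤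
      ∫ z, κ (‖z‖ ^ 2) * (‖z‖ ^ 2 * (PP F ε A z + PP G δ B z)) := by
    have i3 : Integrable (fun z => κ (‖z‖ ^ 2) * (‖z‖ ^ 2 * WW F G ε δ A 0 z) +
      κ (‖z‖ ^ 2) * (‖z‖ ^ 2 * WW F G ε δ 0 B z)) := (ik A 0).add (ik 0 B)
    rw [hsum, ← integral_add (ik _ _) (ik _ _)]
    apply integral_mono (ik _ _) i3
    intro z
    have hy := young (F := F) (G := G) (z := z) hε hδ ha0 hA hB hAB
    have l1 : a0 / A ≤ 1 := by
      have : 0 < 1 / (2 * B) := by positivity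
      linarith
    have l2 : 1 / (2 * B) ≤ 1 := by
      have : 0 < a0 / A := by positivity
      linarith
    have l3 : WW F G ε δ a0 (1 / 2) z ≤ WW F G ε δ A 0 z + WW F G ε δ 0 B z := by
      have p1 := WW_pos (F := F) (G := G) (a := A) (b := 0) (z := z) hε hδ
      have p2 := WW_pos (F := F) (G := G) (a := 0) (b := B) (z := z) hε hδ
      nlinarith [mul_le_mul_of_nonneg_right l1 p1.le, mul_le_mul_of_nonneg_right l2 p2.le]
    simp only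
    have hk := h.κ0 (‖z‖ ^ 2)
    have : κ (‖z‖ ^ 2) * (‖z‖ ^ 2 * WW F G ε δ a0 (1 / 2) z) ≤
        κ (‖z‖ ^ 2) * (‖z‖ ^ 2 * (WW F G ε δ A 0 z + WW F G ε δ 0 B z)) := by gcongr
    refine this.trans (le_of_eq ?_)
    ring
  have hα : 0 ≤ α ^ 2 + 2 * |α| := by positivity
  set K := ∫ z, κ (‖z‖ ^ 2) * (‖z‖ ^ 2 * (PP F ε A z + PP G δ B z)) with hKd
  calc ‖∫ z, rad E1 z * (uu F ε α z * (starRingEnd ℂ) (G z + z * G1 z))‖ ≤
      K + (α ^ 2 + 2 * |α|) * (C * (2 * K)) := by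
        refine h0.trans (add_le_add hk0 (mul_le_mul_of_nonneg_left (hint.trans
          (mul_le_mul_of_nonneg_left ?_ hC0)) hα))
        linarith
    _ = _ := by ring

/-- the energy estimate (bounded case) -/
theorem Cut.energyB (h : Cut κ E1 E2 s) (hF : An F F1 F2) (hG : An G G1 G2) (hε : 0 < ε)
    (hδ : 0 < δ) {M : ℝ} (ha0 : 0 < α + 1 / 2) (hM : ∀ z ∈ ball (0 : ℂ) 1, rho F ε z ≤ M) :
    ‖∫ z, rad E1 z * (uu F ε α z * (starRingEnd ℂ) (G z + z * G1 z))‖ ≤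
      (M ^ (α + 1 / 2) + (α ^ 2 + 2 * |α|) * (2 / (α + 1 / 2) ^ 2 + 1 / (α + 1 / 2) +
        M ^ (α + 1 / 2) / (2 * (α + 1 / 2) ^ 2 * (1 / 2) ^ 2)) * (M ^ (α + 1 / 2) + 1)) *
      ∫ z, κ (‖z‖ ^ 2) * (‖z‖ ^ 2 * PP G δ (1 / 2) z) := by
  set a0 := α + 1 / 2 with ha0d
  have hMpos : 0 < M := lt_of_lt_of_le (rho_pos hε) (hM 0 (by simp))
  set K := M ^ a0 with hKdef
  have hK0 : 0 < K := Real.rpow_pos_of_pos hMpos _
  set C := 2 / a0 ^ 2 + 1 / a0 + K / (2 * a0 ^ 2 * (1 / 2) ^ 2) with hC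
  have hC0 : 0 ≤ C := by positivity
  have h0 := h.energyU0 (α := α) hF hG hε hδ
  rw [← ha0d] at h0
  have ik : ∀ a b : ℝ, Integrable (fun z => κ (‖z‖ ^ 2) * (‖z‖ ^ 2 * WW F G ε δ a b z)) := by
    intro a b
    exact h.rintk ((continuous_norm.pow 2).continuousOn.mul (cWW hF hG hε hδ))
  have i2 : ∀ a b : ℝ, Integrable (fun z => E2 (‖z‖ ^ 2) * (WW F G ε δ a b z *
      QQ F F1 G G1 ε δ a b z)) := by
    intro a b
    exact h.rint2 ((cWW hF hG hε hδ).mul (cQQ hF hG hε hδ))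
  have h1 := h.energyW (a := a0) (b := 1 / 2) hF hG hε hδ
  have h3 := h.energyW (a := 0) (b := 1 / 2) hF hG hε hδ
  have hWK : ∀ z ∈ ball (0 : ℂ) 1, WW F G ε δ a0 (1 / 2) z ≤ K * WW F G ε δ 0 (1 / 2) z := by
    intro z hz
    simp only [WW, PP, Real.rpow_zero, one_mul]
    have := hM z hz
    have h5 := (rho_pos (F := F) (z := z) hε).le
    have h6 := (rho_pos (F := G) (z := z) hδ).le
    gcongr
    exact Real.rpow_le_rpow h5 this ha0.le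
  have hpt : ∀ z ∈ ball (0 : ℂ) 1, WW F G ε δ a0 (1 / 2) z * (‖F1 z‖ ^ 2 / rho F ε z) ≤
      C * (WW F G ε δ a0 (1 / 2) z * QQ F F1 G G1 ε δ a0 (1 / 2) z +
        WW F G ε δ 0 (1 / 2) z * QQ F F1 G G1 ε δ 0 (1 / 2) z) := by
    intro z hz
    have q1 : 0 ≤ WW F G ε δ a0 (1 / 2) z * QQ F F1 G G1 ε δ a0 (1 / 2) z :=
      mul_nonneg (WW_pos hε hδ).le (QQ_nonneg hε hδ ha0.le (by norm_num))
    have q3 : 0 ≤ WW F G ε δ 0 (1 / 2) z * QQ F F1 G G1 ε δ 0 (1 / 2) z :=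
      mul_nonneg (WW_pos hε hδ).le (QQ_nonneg hε hδ le_rfl (by norm_num))
    have c3 : 0 ≤ K / (2 * a0 ^ 2 * (1 / 2) ^ 2) := by positivity
    have c5 : 0 ≤ 2 / a0 ^ 2 + 1 / a0 := by positivity
    have := point2 (F := F) (F1 := F1) (G := G) (G1 := G1) (z := z) hε hδ ha0
      (by norm_num : (0 : ℝ) < 1 / 2) (hWK z hz)
    rw [hC]
    nlinarith [mul_nonneg c5 q3, mul_nonneg c3 q1]
  have hint : ∫ z, E2 (‖z‖ ^ 2) * (WW F G ε δ a0 (1 / 2) z * (‖F1 z‖ ^ 2 / rho F ε z)) ≤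
      C * ((∫ z, E2 (‖z‖ ^ 2) * (WW F G ε δ a0 (1 / 2) z * QQ F F1 G G1 ε δ a0 (1 / 2) z)) +
          ∫ z, E2 (‖z‖ ^ 2) * (WW F G ε δ 0 (1 / 2) z * QQ F F1 G G1 ε δ 0 (1 / 2) z)) := by
    rw [← integral_add (i2 _ _) (i2 _ _), ← integral_const_mul]
    apply integral_mono_of_nonneg
    · refine Filter.Eventually.of_forall fun z => ?_
      exact mul_nonneg (h.E2n _) (mul_nonneg (WW_pos hε hδ).le
        (div_nonneg (by positivity) (rho_pos hε).le))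
    · exact ((i2 _ _).add (i2 _ _)).const_mul _
    · refine Filter.Eventually.of_forall fun z => ?_
      simp only
      by_cases hz : z ∈ ball (0 : ℂ) 1
      · have := mul_le_mul_of_nonneg_left (hpt z hz) (h.E2n (‖z‖ ^ 2))
        refine this.trans (le_of_eq ?_)
        ring
      · have : E2 (‖z‖ ^ 2) = 0 := by
          apply h.E2z
          rw [mem_ball_zero_iff, not_lt] at hz
          have := h.s1
          have := h.s0
          nlinarith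
        rw [this]; simp
  have hsum : (∫ z, κ (‖z‖ ^ 2) * (‖z‖ ^ 2 * PP G δ (1 / 2) z)) =
        ∫ z, κ (‖z‖ ^ 2) * (‖z‖ ^ 2 * WW F G ε δ 0 (1 / 2) z) := by
    congr 1; ext z
    simp only [WW, PP, Real.rpow_zero]
    ring
  have hk0 : (∫ z, κ (‖z‖ ^ 2) * (‖z‖ ^ 2 * WW F G ε δ a0 (1 / 2) z)) ≤
      K * ∫ z, κ (‖z‖ ^ 2) * (‖z‖ ^ 2 * PP G δ (1 / 2) z) := by
    rw [hsum, ← integral_const_mul]
    apply integral_mono (ik _ _) ((ik _ _).const_mul _)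
    intro z
    simp only
    by_cases hz : z ∈ ball (0 : ℂ) 1
    · have hk := h.κ0 (‖z‖ ^ 2)
      have := hWK z hz
      calc κ (‖z‖ ^ 2) * (‖z‖ ^ 2 * WW F G ε δ a0 (1 / 2) z) ≤
          κ (‖z‖ ^ 2) * (‖z‖ ^ 2 * (K * WW F G ε δ 0 (1 / 2) z)) := by gcongr
        _ = _ := by ring
    · have : κ (‖z‖ ^ 2) = 0 := by
        apply h.κz
        rw [mem_ball_zero_iff, not_lt] at hz
        have := h.s1
        have := h.s0
        nlinarith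
      rw [this]; simp
  have hα : 0 ≤ α ^ 2 + 2 * |α| := by positivity
  rw [← hsum] at h3
  set J := ∫ z, κ (‖z‖ ^ 2) * (‖z‖ ^ 2 * PP G δ (1 / 2) z) with hJd
  calc ‖∫ z, rad E1 z * (uu F ε α z * (starRingEnd ℂ) (G z + z * G1 z))‖ ≤
      K * J + (α ^ 2 + 2 * |α|) * (C * (K * J + J)) := by
        refine h0.trans (add_le_add hk0 (mul_le_mul_of_nonneg_left (hint.trans
          (mul_le_mul_of_nonneg_left ?_ hC0)) hα))
        linarith
    _ = _ := by ring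

end

end

end Pool.Agent.X105.BE
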