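import Pool.Agent.X105.BE.Bdry

set_option autoImplicit false

namespace Pool.Agent.X105.BE

open MeasureTheory Complex Set Metric ComplexConjugate Filter Topology

noncomputable section

lemma ec_periodic : Function.Periodic ec (2 * Real.pi) := periodic_circleMap 0 1

lemma ec_eq (θ : ℝ) : ec θ = Complex.exp (θ * I) := by simp [ec, circleMap]

/-- pointwise bounds of the Poisson kernel -/
lemma pk_bounds {x y r : ℝ} (hr : 1 / 2 ≤ r) (hr1 : r < 1) (hy : |y - x| ≤ Real.pi) :
    Pk (r * ec x) y ≤ 2 / (1 - r) ∧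
    (y - x ≠ 0 → Pk (r * ec x) y ≤ 10 * (1 - r) / (y - x) ^ 2) := by
  have hpi := Real.pi_pos
  have hnz : ‖(r : ℂ) * ec x‖ = r := by
    rw [norm_mul, norm_ec, mul_one, Complex.norm_real, Real.norm_eq_abs, abs_of_nonneg (by linarith)]
  have hlt : ‖(r : ℂ) * ec x‖ < 1 := by rw [hnz]; exact hr1
  have hsq : ‖ec y - r * ec x‖ ^ 2 = (1 - r) ^ 2 + 4 * r * Real.sin ((x - y) / 2) ^ 2 := by
    have h0 : ec y - r * ec x = ec y * (1 - r * Complex.exp ((x - y : ℝ) * I)) := by
      rw [mul_sub, mul_one, ec_eq, ec_eq]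
      have : Complex.exp (x * I) = Complex.exp (y * I) * Complex.exp ((x - y : ℝ) * I) := by
        rw [← Complex.exp_add]; congr 1; push_cast; ring
      rw [this]; ring
    rw [h0, norm_mul, norm_ec, one_mul, ← Complex.normSq_eq_norm_sq, Complex.normSq_apply]
    have h1 : ((r : ℂ) * Complex.exp ((x - y : ℝ) * I)).re = r * Real.cos (x - y) := by
      rw [Complex.re_ofReal_mul, Complex.exp_ofReal_mul_I_re]
    have h2 : ((r : ℂ) * Complex.exp ((x - y : ℝ) * I)).im = r * Real.sin (x - y) := by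
      rw [Complex.im_ofReal_mul, Complex.exp_ofReal_mul_I_im]
    rw [Complex.sub_re, Complex.sub_im, h1, h2, Complex.one_re, Complex.one_im]
    have h3 : Real.cos (x - y) = 1 - 2 * Real.sin ((x - y) / 2) ^ 2 := by
      conv_lhs => rw [show x - y = 2 * ((x - y) / 2) by ring, Real.cos_two_mul]
      have := Real.sin_sq_add_cos_sq ((x - y) / 2)
      linarith
    have h4 := Real.sin_sq_add_cos_sq (x - y)
    have h5 : Real.sin (x - y) ^ 2 = 1 - Real.cos (x - y) ^ 2 := by linarith
    calc (1 - r * Real.cos (x - y)) * (1 - r * Real.cos (x - y)) +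
        (0 - r * Real.sin (x - y)) * (0 - r * Real.sin (x - y)) =
        1 - 2 * r * Real.cos (x - y) + r ^ 2 * Real.cos (x - y) ^ 2 +
          r ^ 2 * Real.sin (x - y) ^ 2 := by ring
      _ = _ := by rw [h5, h3]; ring
  have hsin : (y - x) ^ 2 ≤ Real.pi ^ 2 * Real.sin ((x - y) / 2) ^ 2 := by
    have h1 : |(x - y) / 2| ≤ Real.pi / 2 := by
      rw [abs_div, abs_sub_comm, abs_two]; linarith
    have h2 := Real.mul_abs_le_abs_sin h1
    rw [abs_div, abs_two, abs_sub_comm] at h2
    have h3 : 2 / Real.pi * (|y - x| / 2) = |y - x| / Real.pi := by field_simp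
    rw [h3, div_le_iff₀ hpi] at h2
    calc (y - x) ^ 2 = |y - x| ^ 2 := (sq_abs _).symm
      _ ≤ (|Real.sin ((x - y) / 2)| * Real.pi) ^ 2 := by gcongr
      _ = _ := by rw [mul_pow, sq_abs]; ring
  have hs0 : 0 ≤ Real.sin ((x - y) / 2) ^ 2 := sq_nonneg _
  rw [Pk_eq hlt, hnz, hsq]
  constructor
  · rw [div_le_div_iff₀ (by nlinarith) (by linarith)]
    nlinarith
  · intro hne
    have h0 : 0 < (y - x) ^ 2 := by positivity
    rw [div_le_div_iff₀ (by nlinarith) h0]
    have hpi2 : Real.pi ^ 2 ≤ 10 := by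
      have := Real.pi_lt_d2
      nlinarith
    have h7 : (y - x) ^ 2 ≤ 10 * Real.sin ((x - y) / 2) ^ 2 := by nlinarith
    have h6 : (1 - r) * ((1 + r) * (y - x) ^ 2) ≤ (1 - r) *
        (10 * ((1 - r) ^ 2 + 4 * r * Real.sin ((x - y) / 2) ^ 2)) := by
      apply mul_le_mul_of_nonneg_left _ (by linarith)
      nlinarith
    nlinarith

/-- dyadic majorant -/
lemma pk_dyadic {x y r : ℝ} (hr : 1 / 2 ≤ r) (hr1 : r < 1) (hy : |y - x| ≤ Real.pi) :
    ∃ k : ℕ, |y - x| ≤ 2 ^ k * (1 - r) ∧
      Pk (r * ec x) y ≤ 40 / (4 ^ k * (1 - r)) ∧ 2 ^ k * (1 - r) ≤ 8 := by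
  obtain ⟨h1, h2⟩ := pk_bounds hr hr1 hy
  have hd : 0 < 1 - r := by linarith
  have hex : ∃ k : ℕ, |y - x| ≤ 2 ^ k * (1 - r) := by
    obtain ⟨k, hk⟩ := pow_unbounded_of_one_lt (|y - x| / (1 - r)) (one_lt_two)
    refine ⟨k, ?_⟩
    rw [div_lt_iff₀ hd] at hk
    exact hk.le
  classical
  set k := Nat.find hex with hk
  have hk1 : |y - x| ≤ 2 ^ k * (1 - r) := Nat.find_spec hex
  have hpi4 := Real.pi_lt_four
  refine ⟨k, hk1, ?_, ?_⟩
  · rcases Nat.eq_zero_or_pos k with h0 | hpos
    · rw [h0, pow_zero, one_mul]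
      refine h1.trans ?_
      gcongr
      norm_num
    · have hk2 : ¬ |y - x| ≤ 2 ^ (k - 1) * (1 - r) := Nat.find_min hex (by omega)
      push Not at hk2
      have hne : y - x ≠ 0 := by
        intro h
        rw [h, abs_zero] at hk2
        have : 0 < (2 : ℝ) ^ (k - 1) * (1 - r) := by positivity
        linarith
      refine (h2 hne).trans ?_
      rw [← sq_abs, div_le_div_iff₀ (by positivity) (by positivity)]
      have h3 : (2 ^ (k - 1) * (1 - r)) ^ 2 ≤ |y - x| ^ 2 := pow_le_pow_left₀ (by positivity) hk2.le 2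
      have h4 : (4 : ℝ) ^ k = 4 * (2 ^ (k - 1)) ^ 2 := by
        obtain ⟨m, hm⟩ := Nat.exists_eq_succ_of_ne_zero hpos.ne'
        rw [hm, Nat.succ_eq_add_one, Nat.add_sub_cancel, pow_succ, ← pow_mul, mul_comm m 2, pow_mul]
        norm_num
        ring
      rw [h4]
      nlinarith
  · rcases Nat.eq_zero_or_pos k with h0 | hpos
    · rw [h0, pow_zero, one_mul]; linarith
    · have hk2 : ¬ |y - x| ≤ 2 ^ (k - 1) * (1 - r) := Nat.find_min hex (by omega)
      push Not at hk2
      have h4 : (2 : ℝ) ^ k = 2 * 2 ^ (k - 1) := by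
        obtain ⟨m, hm⟩ := Nat.exists_eq_succ_of_ne_zero hpos.ne'
        rw [hm, Nat.succ_eq_add_one, Nat.add_sub_cancel, pow_succ]; ring
      rw [h4]
      nlinarith

/-- truncated averages -/
def gav (G : ℝ → ℝ) (x s : ℝ) : ℝ := if s ≤ 8 then ⨍ y in closedBall x s, G y else 0

/-- the basic estimate -/
lemma pk_est {B : ℝ → ℂ} (hBm : Measurable B) (hBp : Function.Periodic B (2 * Real.pi))
    (hBi : IntervalIntegrable B volume 0 (2 * Real.pi)) {x r A : ℝ} (hr : 1 / 2 ≤ r) (hr1 : r < 1)
    (hA : ∀ s, 0 < s → gav (fun y => ‖B y - B x‖) x s ≤ A) :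
    ‖(∫ θ, (Pk (r * ec x) θ : ℂ) * B θ ∂mT) - B x‖ ≤
      ∑' k : ℕ, 16 * (1 / 2) ^ k * gav (fun y => ‖B y - B x‖) x (2 ^ k * (1 - r)) := by
  have hpi := Real.pi_pos
  have hpi0 : (2 * Real.pi) ≠ 0 := by positivity
  have hd : 0 < 1 - r := by linarith
  have hnz : ‖(r : ℂ) * ec x‖ = r := by
    rw [norm_mul, norm_ec, mul_one, Complex.norm_real, Real.norm_eq_abs, abs_of_nonneg (by linarith)]
  have hlt : ‖(r : ℂ) * ec x‖ < 1 := by rw [hnz]; exact hr1
  set P : ℝ → ℝ := fun y => Pk (r * ec x) y with hP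
  have hPc : Continuous P := Pk_cont hlt
  have hPpos : ∀ y, 0 < P y := fun y => Pk_pos hlt y
  have hPper : Function.Periodic P (2 * Real.pi) := fun y => by
    simp only [hP, Pk]; rw [ec_periodic y]
  set G : ℝ → ℝ := fun y => ‖B y - B x‖ with hG
  have hGm : Measurable G := (hBm.sub measurable_const).norm
  have hG0 : ∀ y, 0 ≤ G y := fun y => norm_nonneg _
  have hBint : ∀ a c, IntervalIntegrable B volume a c := hBp.intervalIntegrable₀ hpi0 hBi
  have hGii : ∀ a c, IntervalIntegrable G volume a c := fun a c =>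
    ((hBint a c).sub intervalIntegrable_const).norm
  have hGint : ∀ s : ℝ, IntegrableOn G (closedBall x s) volume := by
    intro s
    rw [Real.closedBall_eq_Icc]
    rcases le_or_gt (x - s) (x + s) with h | h
    · exact (intervalIntegrable_iff_integrableOn_Icc_of_le h).1 (hGii _ _)
    · rw [Icc_eq_empty (not_le.2 h)]; exact integrableOn_empty
  have hg0 : ∀ s : ℝ, 0 ≤ gav G x s := by
    intro s
    unfold gav
    split_ifs
    · rw [average_eq]
      exact smul_nonneg (by positivity) (integral_nonneg hG0)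
    · exact le_rfl
  have havg : ∀ s : ℝ, 0 < s → s ≤ 8 → ∫ y in closedBall x s, G y = 2 * s * gav G x s := by
    intro s hs hs8
    unfold gav
    rw [if_pos hs8, setAverage_eq, smul_eq_mul, measureReal_def, Real.volume_closedBall,
      ENNReal.toReal_ofReal (by linarith)]
    field_simp
  obtain ⟨K, hK⟩ : ∃ K : ℕ, 8 < 2 ^ K * (1 - r) := by
    obtain ⟨K, hK⟩ := pow_unbounded_of_one_lt (8 / (1 - r)) (one_lt_two)
    refine ⟨K, ?_⟩
    rwa [div_lt_iff₀ hd] at hK
  have hsummable : Summable (fun k : ℕ => 16 * (1 / 2 : ℝ) ^ k * gav G x (2 ^ k * (1 - r))) := by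
    refine Summable.of_nonneg_of_le (f := fun k : ℕ => 16 * A * (1 / 2 : ℝ) ^ k)
      (fun k => mul_nonneg (by positivity) (hg0 _)) (fun k => ?_)
      ((summable_geometric_of_lt_one (by norm_num) (by norm_num)).mul_left _)
    have := hA (2 ^ k * (1 - r)) (by positivity)
    calc 16 * (1 / 2 : ℝ) ^ k * gav G x (2 ^ k * (1 - r))
        ≤ 16 * (1 / 2 : ℝ) ^ k * A := mul_le_mul_of_nonneg_left this (by positivity)
      _ = _ := by ring
  -- integrability on the circle
  have hBmT : Integrable B mT := by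
    have h1 : IntegrableOn B (Ioc 0 (2 * Real.pi)) volume :=
      (intervalIntegrable_iff_integrableOn_Ioc_of_le (by positivity)).1 hBi
    exact h1.smul_measure mT_ne
  obtain ⟨PM, hPM⟩ : ∃ PM, ∀ y, P y ≤ PM := by
    refine ⟨(1 - ‖(r : ℂ) * ec x‖ ^ 2) / (1 - ‖(r : ℂ) * ec x‖) ^ 2, fun y => ?_⟩
    simp only [hP]
    rw [Pk_eq hlt]
    have h1 := norm_ec_sub (z := (r : ℂ) * ec x) y
    have h2 : 0 < 1 - ‖(r : ℂ) * ec x‖ := by linarith
    have h3 : 0 ≤ 1 - ‖(r : ℂ) * ec x‖ ^ 2 := by nlinarith [norm_nonneg ((r : ℂ) * ec x)]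
    gcongr
  have hPcc : Continuous fun y => (P y : ℂ) := continuous_ofReal.comp hPc
  have hPB : Integrable (fun θ => (P θ : ℂ) * B θ) mT :=
    hBmT.bdd_mul (c := PM) hPcc.aestronglyMeasurable (Eventually.of_forall fun y => by
      rw [Complex.norm_real, Real.norm_of_nonneg (hPpos y).le]; exact hPM y)
  have h1 : (∫ θ, (P θ : ℂ) * B θ ∂mT) - B x = ∫ θ, (P θ : ℂ) * (B θ - B x) ∂mT := by
    have e1 : ∫ θ, (P θ : ℂ) * (B θ - B x) ∂mT =
        ∫ θ, (P θ : ℂ) * B θ ∂mT - ∫ θ, (P θ : ℂ) * B x ∂mT := by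
      rw [← integral_sub hPB ((integrable_mT hPcc).mul_const _)]
      congr 1; funext t; ring
    rw [e1, integral_mul_const, integral_complex_ofReal, int_Pk hlt]
    simp
  have hPGii : ∀ a c, IntervalIntegrable (fun y => G y * P y) volume a c := fun a c =>
    (hGii a c).mul_continuousOn hPc.continuousOn
  have h2 : ‖∫ θ, (P θ : ℂ) * (B θ - B x) ∂mT‖ ≤
      (2 * Real.pi)⁻¹ * ∫ y in (x - Real.pi)..(x - Real.pi + 2 * Real.pi), G y * P y := by
    have hper : Function.Periodic (fun y => G y * P y) (2 * Real.pi) := fun y => by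
      simp only [hG]; rw [hBp y, hPper y]
    rw [hper.intervalIntegral_add_eq (x - Real.pi) 0, zero_add]
    refine (norm_integral_le_integral_norm _).trans (le_of_eq ?_)
    rw [integral_mT, smul_eq_mul]
    congr 2; funext y
    rw [norm_mul, Complex.norm_real, Real.norm_of_nonneg (hPpos y).le, mul_comm]
  rw [h1]
  refine h2.trans ?_
  rw [intervalIntegral.integral_of_le (by linarith)]
  set I : ℕ → ℝ → ℝ := fun k y => if 2 ^ k * (1 - r) ≤ 8 then
    (closedBall x (2 ^ k * (1 - r))).indicator G y else 0 with hI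
  have hI0 : ∀ k y, 0 ≤ I k y := by
    intro k y
    simp only [hI]
    split_ifs
    · exact indicator_nonneg (fun y _ => hG0 y) y
    · exact le_rfl
  have hIi : ∀ k, Integrable (I k) volume := by
    intro k
    simp only [hI]
    split_ifs
    · rw [integrable_indicator_iff measurableSet_closedBall]
      exact hGint _
    · exact integrable_zero _ _ _
  have hIint : ∀ k, ∫ y, I k y ≤ 2 * (2 ^ k * (1 - r)) * gav G x (2 ^ k * (1 - r)) := by
    intro k
    by_cases h8 : 2 ^ k * (1 - r) ≤ 8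
    · have : I k = (closedBall x (2 ^ k * (1 - r))).indicator G := by
        funext y; simp only [hI]; rw [if_pos h8]
      rw [this, integral_indicator measurableSet_closedBall, havg _ (by positivity) h8]
    · have : I k = fun _ => 0 := by
        funext y; simp only [hI]; rw [if_neg h8]
      rw [this, integral_zero]
      exact mul_nonneg (by positivity) (hg0 _)
  calc (2 * Real.pi)⁻¹ * ∫ y in Ioc (x - Real.pi) (x - Real.pi + 2 * Real.pi), G y * P y
      ≤ (2 * Real.pi)⁻¹ * ∫ y in Ioc (x - Real.pi) (x - Real.pi + 2 * Real.pi),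
        ∑ k ∈ Finset.range K, (40 / (4 ^ k * (1 - r))) * I k y := by
        apply mul_le_mul_of_nonneg_left _ (by positivity)
        refine setIntegral_mono_on ?_ ?_ measurableSet_Ioc ?_
        · exact (intervalIntegrable_iff_integrableOn_Ioc_of_le (by linarith)).1 (hPGii _ _)
        · exact integrable_finsetSum _ fun k _ =>
            ((hIi k).mono_measure Measure.restrict_le_self).const_mul _
        · intro y hy
          have hy2 : |y - x| ≤ Real.pi := by
            rw [abs_le]; constructor <;> [linarith [hy.1]; linarith [hy.2]]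
          obtain ⟨k, hk1, hk2, hk3⟩ := pk_dyadic hr hr1 hy2
          have hkK : k ∈ Finset.range K := by
            rw [Finset.mem_range]
            by_contra hcon
            push Not at hcon
            have : (2 : ℝ) ^ K ≤ 2 ^ k := pow_le_pow_right₀ (by norm_num) hcon
            nlinarith
          refine le_trans ?_ (Finset.single_le_sum (f := fun k : ℕ => (40 / (4 ^ k * (1 - r))) *
            I k y) ?_ hkK)
          · simp only [hI]
            rw [if_pos hk3, indicator_of_mem (by rw [mem_closedBall, Real.dist_eq]; exact hk1),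
              mul_comm]
            exact mul_le_mul_of_nonneg_right hk2 (hG0 y)
          · intro i _
            exact mul_nonneg (by positivity) (hI0 i y)
    _ = (2 * Real.pi)⁻¹ * ∑ k ∈ Finset.range K, (40 / (4 ^ k * (1 - r))) *
          ∫ y in Ioc (x - Real.pi) (x - Real.pi + 2 * Real.pi), I k y := by
        rw [integral_finsetSum _ fun k _ =>
          ((hIi k).mono_measure Measure.restrict_le_self).const_mul _]
        congr 1
        refine Finset.sum_congr rfl fun k _ => ?_
        rw [integral_const_mul]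
    _ ≤ ∑ k ∈ Finset.range K, 16 * (1 / 2) ^ k * gav G x (2 ^ k * (1 - r)) := by
        rw [Finset.mul_sum]
        refine Finset.sum_le_sum fun k _ => ?_
        have h7 : ∫ y in Ioc (x - Real.pi) (x - Real.pi + 2 * Real.pi), I k y ≤
            2 * (2 ^ k * (1 - r)) * gav G x (2 ^ k * (1 - r)) :=
          (setIntegral_le_integral (hIi k) (Eventually.of_forall fun y => hI0 k y)).trans (hIint k)
        have h8 : (4 : ℝ) ^ k = 2 ^ k * 2 ^ k := by
          rw [← mul_pow]; norm_num
        have h9 : (2 * Real.pi)⁻¹ * 80 ≤ 16 := by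
          rw [inv_mul_le_iff₀ (by positivity)]
          have := Real.pi_gt_three
          linarith
        calc (2 * Real.pi)⁻¹ * (40 / (4 ^ k * (1 - r)) *
            ∫ y in Ioc (x - Real.pi) (x - Real.pi + 2 * Real.pi), I k y) ≤
            (2 * Real.pi)⁻¹ * (40 / (4 ^ k * (1 - r)) *
              (2 * (2 ^ k * (1 - r)) * gav G x (2 ^ k * (1 - r)))) := by gcongr
          _ = ((2 * Real.pi)⁻¹ * 80) * ((1 / 2) ^ k * gav G x (2 ^ k * (1 - r))) := by
            rw [h8, one_div, inv_pow]
            field_simp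
            ring
          _ ≤ 16 * ((1 / 2) ^ k * gav G x (2 ^ k * (1 - r))) := by
            apply mul_le_mul_of_nonneg_right h9
            exact mul_nonneg (by positivity) (hg0 _)
          _ = _ := by ring
    _ ≤ _ := hsummable.sum_le_tsum _ fun k _ => mul_nonneg (by positivity) (hg0 _)

/-- radial limits of Poisson integrals of periodic functions -/
theorem radial {B : ℝ → ℂ} (hBm : Measurable B) (hBp : Function.Periodic B (2 * Real.pi))
    (hBi : IntervalIntegrable B volume 0 (2 * Real.pi)) :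
    ∀ᵐ x : ℝ, Tendsto (fun r : ℝ => ∫ θ, (Pk (r * ec x) θ : ℂ) * B θ ∂mT) (𝓝[<] 1) (𝓝 (B x)) := by
  have hpi := Real.pi_pos
  have hpi0 : (2 * Real.pi) ≠ 0 := by positivity
  have hBint : ∀ a c, IntervalIntegrable B volume a c := hBp.intervalIntegrable₀ hpi0 hBi
  have hloc : LocallyIntegrable B volume := by
    intro y
    refine ⟨Icc (y - 1) (y + 1), Icc_mem_nhds (by linarith) (by linarith), ?_⟩
    exact (intervalIntegrable_iff_integrableOn_Icc_of_le (by linarith)).1 (hBint _ _)
  have hL := IsUnifLocDoublingMeasure.ae_tendsto_average_norm_sub (volume : Measure ℝ) hloc 1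
  filter_upwards [hL] with x hx
  set G : ℝ → ℝ := fun y => ‖B y - B x‖ with hG
  have hG0 : ∀ y, 0 ≤ G y := fun y => norm_nonneg _
  have hGii : ∀ a c, IntervalIntegrable G volume a c := fun a c =>
    ((hBint a c).sub intervalIntegrable_const).norm
  have hGint : ∀ s : ℝ, IntegrableOn G (closedBall x s) volume := by
    intro s
    rw [Real.closedBall_eq_Icc]
    rcases le_or_gt (x - s) (x + s) with h | h
    · exact (intervalIntegrable_iff_integrableOn_Icc_of_le h).1 (hGii _ _)
    · rw [Icc_eq_empty (not_le.2 h)]; exact integrableOn_empty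
  have hg0 : ∀ s : ℝ, 0 ≤ gav G x s := by
    intro s
    unfold gav
    split_ifs
    · rw [average_eq]
      exact smul_nonneg (by positivity) (integral_nonneg hG0)
    · exact le_rfl
  -- averages tend to zero
  have hav0 : Tendsto (fun s => ⨍ y in closedBall x s, G y) (𝓝[>] 0) (𝓝 0) := by
    refine hx (l := 𝓝[>] (0 : ℝ)) (fun _ => x) (fun s : ℝ => s) tendsto_id ?_
    filter_upwards [self_mem_nhdsWithin] with s hs
    rw [mem_closedBall, dist_self, one_mul]
    exact (mem_Ioi.1 hs).le
  have hgt : Tendsto (fun s => gav G x s) (𝓝[>] 0) (𝓝 0) := by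
    apply hav0.congr'
    have : Iio (8 : ℝ) ∈ 𝓝[>] (0 : ℝ) := mem_nhdsWithin_of_mem_nhds (Iio_mem_nhds (by norm_num))
    filter_upwards [this] with s hs
    unfold gav
    rw [if_pos (mem_Iio.1 hs).le]
  obtain ⟨A, hA⟩ : ∃ A, ∀ s, 0 < s → gav G x s ≤ A := by
    have h1 : ∀ᶠ s in 𝓝[>] (0 : ℝ), gav G x s < 1 := hgt.eventually (gt_mem_nhds one_pos)
    rw [eventually_nhdsWithin_iff, Metric.eventually_nhds_iff] at h1
    obtain ⟨δ, hδ, h1⟩ := h1
    refine ⟨max 1 ((2 * δ)⁻¹ * ∫ y in closedBall x 8, G y), fun s hs => ?_⟩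
    rcases lt_or_ge s δ with h | h
    · have := h1 (y := s) (by rw [Real.dist_eq, sub_zero, abs_of_pos hs]; exact h) hs
      exact this.le.trans (le_max_left _ _)
    · unfold gav
      split_ifs with h8
      · refine le_trans ?_ (le_max_right _ _)
        rw [setAverage_eq, smul_eq_mul, measureReal_def, Real.volume_closedBall,
          ENNReal.toReal_ofReal (by linarith)]
        have h2 : ∫ y in closedBall x s, G y ≤ ∫ y in closedBall x 8, G y :=
          setIntegral_mono_set (hGint _) (Eventually.of_forall hG0)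
            (closedBall_subset_closedBall h8).eventuallyLE
        have h3 : 0 ≤ ∫ y in closedBall x s, G y := integral_nonneg hG0
        gcongr
      · exact zero_le_one.trans (le_max_left _ _)
  rw [tendsto_iff_norm_sub_tendsto_zero]
  have hlim : Tendsto (fun r : ℝ => ∑' k : ℕ, 16 * (1 / 2) ^ k * gav G x (2 ^ k * (1 - r)))
      (𝓝[<] 1) (𝓝 0) := by
    have h0 : (0 : ℝ) = ∑' k : ℕ, (fun _ => 0 : ℕ → ℝ) k := by simp
    rw [h0]
    refine tendsto_tsum_of_dominated_convergence
      (bound := fun k : ℕ => 16 * A * (1 / 2 : ℝ) ^ k)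
      ((summable_geometric_of_lt_one (by norm_num) (by norm_num)).mul_left _) ?_ ?_
    · intro k
      have h1 : Tendsto (fun r : ℝ => 2 ^ k * (1 - r)) (𝓝[<] 1) (𝓝[>] 0) := by
        rw [tendsto_nhdsWithin_iff]
        constructor
        · have : Tendsto (fun r : ℝ => 2 ^ k * (1 - r)) (𝓝 1) (𝓝 (2 ^ k * (1 - 1))) := by
            exact (tendsto_const_nhds.sub tendsto_id).const_mul _
          rw [sub_self, mul_zero] at this
          exact this.mono_left nhdsWithin_le_nhds
        · filter_upwards [self_mem_nhdsWithin] with r hr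
          have : (r : ℝ) < 1 := hr
          simp only [Set.mem_Ioi]
          have : 0 < 1 - r := by linarith
          positivity
      have h7 := (hgt.comp h1).const_mul (16 * (1 / 2) ^ k)
      rw [mul_zero] at h7
      exact h7
    · filter_upwards [self_mem_nhdsWithin] with r hr
      intro k
      have hr1 : (r : ℝ) < 1 := hr
      have hd : 0 < 1 - r := by linarith
      have hs : 0 < 2 ^ k * (1 - r) := by positivity
      rw [Real.norm_of_nonneg (mul_nonneg (by positivity) (hg0 _))]
      calc 16 * (1 / 2 : ℝ) ^ k * gav G x (2 ^ k * (1 - r))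
          ≤ 16 * (1 / 2) ^ k * A := mul_le_mul_of_nonneg_left (hA _ hs) (by positivity)
        _ = _ := by ring
  refine squeeze_zero' (Eventually.of_forall fun r => norm_nonneg _) ?_ hlim
  have h6 : Ico (1 / 2 : ℝ) 1 ∈ 𝓝[<] (1 : ℝ) := Ico_mem_nhdsLT (by norm_num)
  filter_upwards [h6] with r hr
  exact pk_est hBm hBp hBi hr.1 hr.2 hA

end

end Pool.Agent.X105.BE
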