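import Pool.Agent.X105.BE.Pair

set_option autoImplicit false

namespace Pool.Agent.X105.BE

open MeasureTheory Complex Set Metric ComplexConjugate Filter Topology

noncomputable section

/-- normalised area measure on the unit disc -/
def sig : Measure ℂ := ENNReal.ofReal (1 / Real.pi) • volume.restrict (ball (0 : ℂ) 1)

lemma sig_ne : ENNReal.ofReal (1 / Real.pi) ≠ ⊤ := ENNReal.ofReal_ne_top
lemma sig_ne0 : ENNReal.ofReal (1 / Real.pi) ≠ 0 := by
  have : 0 < 1 / Real.pi := by positivity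
  exact (ENNReal.ofReal_pos.2 this).ne'

section
variable {E : Type*} [NormedAddCommGroup E]

lemma integrable_sig {f : ℂ → E} : Integrable f sig ↔ IntegrableOn f (ball 0 1) := by
  rw [sig, integrable_smul_measure sig_ne0 sig_ne]; rfl

variable [NormedSpace ℝ E]

lemma integral_sig (f : ℂ → E) : ∫ z, f z ∂sig = (1 / Real.pi) • ∫ z in ball 0 1, f z := by
  rw [sig, integral_smul_measure, ENNReal.toReal_ofReal (by positivity)]

end

instance : IsFiniteMeasure sig := by
  have : IsFiniteMeasure (volume.restrict (ball (0 : ℂ) 1)) := ⟨by simp⟩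
  unfold sig
  exact Measure.smul_finite _ sig_ne

lemma ae_sig : ∀ᵐ z ∂sig, z ∈ ball (0 : ℂ) 1 := by
  rw [sig]
  exact (Measure.ae_smul_measure (ae_restrict_mem measurableSet_ball) _)

lemma aesm {E : Type*} [NormedAddCommGroup E] [SecondCountableTopology E] {f : ℂ → E}
    (hf : ContinuousOn f (ball 0 1)) : AEStronglyMeasurable f sig :=
  (hf.aestronglyMeasurable measurableSet_ball).smul_measure _

/-- products of functions in dual spaces are integrable -/
lemma int_prod {p q : ℝ} (hpq : p.HolderConjugate q) {f g : ℂ → ℂ}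
    (hf : ContinuousOn f (ball 0 1)) (hg : ContinuousOn g (ball 0 1))
    (hfi : Integrable (fun z => ‖f z‖ ^ p) sig) (hgi : Integrable (fun z => ‖g z‖ ^ q) sig) :
    Integrable (fun z => f z * (starRingEnd ℂ) (g z)) sig := by
  refine Integrable.mono' (hfi.add hgi) (aesm (hf.mul (conjc hg))) ?_
  refine Eventually.of_forall fun z => ?_
  rw [norm_mul, Complex.norm_conj]
  refine (Real.young_inequality_of_nonneg (norm_nonneg _) (norm_nonneg _) hpq).trans ?_
  have a1 : ‖f z‖ ^ p / p ≤ ‖f z‖ ^ p := div_le_self (by positivity) hpq.lt.le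
  have a2 : ‖g z‖ ^ q / q ≤ ‖g z‖ ^ q := div_le_self (by positivity) hpq.symm.lt.le
  simp only [Pi.add_apply]
  linarith

lemma int_bdd {p B : ℝ} (hp : 0 ≤ p) {h : ℂ → ℂ} (hh : ContinuousOn h (ball 0 1))
    (hb : ∀ z ∈ ball (0 : ℂ) 1, ‖h z‖ ≤ B) : Integrable (fun z => ‖h z‖ ^ p) sig := by
  refine Integrable.mono' (integrable_const (B ^ p)) (aesm (hh.norm.rpow_const fun _ _ =>
    Or.inr hp)) ?_
  filter_upwards [ae_sig] with z hz
  rw [Real.norm_of_nonneg (by positivity)]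
  exact Real.rpow_le_rpow (norm_nonneg _) (hb z hz) hp

lemma int_add_pow {p B : ℝ} (hp : 0 ≤ p) {F : ℂ → ℂ} (hF : ContinuousOn F (ball 0 1))
    (hFi : Integrable (fun z => ‖F z‖ ^ p) sig) (hB : 0 ≤ B) :
    Integrable (fun z => (‖F z‖ + B) ^ p) sig := by
  refine Integrable.mono' ((hFi.add (integrable_const (B ^ p))).const_mul (2 ^ p))
    (aesm ((hF.norm.add continuousOn_const).rpow_const fun _ _ => Or.inr hp)) ?_
  refine Eventually.of_forall fun z => ?_
  rw [Real.norm_of_nonneg (by positivity)]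
  exact rpow_add_le (norm_nonneg _) hB hp

lemma norm_pow_le {p : ℝ} (hp : 1 < p) (x h : ℂ) :
    |p * ‖x‖ ^ (p - 2) * inner ℝ x h| ≤ p * (‖x‖ ^ (p - 1) * ‖h‖) := by
  rw [abs_mul, abs_of_nonneg (by positivity : 0 ≤ p * ‖x‖ ^ (p - 2))]
  have h1 := abs_real_inner_le_norm x h
  have h2 : ‖x‖ ^ (p - 2) * ‖x‖ = ‖x‖ ^ (p - 1) := by
    by_cases hy : x = 0
    · simp [hy, Real.zero_rpow (by linarith : p - 1 ≠ 0)]
    · have := norm_pos_iff.2 hy
      rw [show p - 1 = (p - 2) + 1 by ring, Real.rpow_add_one this.ne']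
  calc p * ‖x‖ ^ (p - 2) * |inner ℝ x h| ≤ p * ‖x‖ ^ (p - 2) * (‖x‖ * ‖h‖) := by gcongr
    _ = p * ((‖x‖ ^ (p - 2) * ‖x‖) * ‖h‖) := by ring
    _ = _ := by rw [h2]

lemma deriv_N {p B : ℝ} (hp : 1 < p) {F h : ℂ → ℂ} (hF : ContinuousOn F (ball 0 1))
    (hFi : Integrable (fun z => ‖F z‖ ^ p) sig) (hh : ContinuousOn h (ball 0 1))
    (hb : ∀ z ∈ ball (0 : ℂ) 1, ‖h z‖ ≤ B) :
    HasDerivAt (fun t : ℝ => ∫ z, ‖F z + t • h z‖ ^ p ∂sig)
      (∫ z, p * ‖F z‖ ^ (p - 2) * inner ℝ (F z) (h z) ∂sig) 0 := by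
  have hB : 0 ≤ B := (norm_nonneg _).trans (hb 0 (by simp))
  have hp0 : 0 < p := by linarith
  have hcont : ∀ t : ℝ, ContinuousOn (fun z => F z + t • h z) (ball 0 1) :=
    fun t => hF.add (hh.const_smul t)
  have key := hasDerivAt_integral_of_dominated_loc_of_deriv_le (μ := sig)
    (F := fun (t : ℝ) z => ‖F z + t • h z‖ ^ p)
    (F' := fun (t : ℝ) z => p * ‖F z + t • h z‖ ^ (p - 2) * inner ℝ (F z + t • h z) (h z))
    (x₀ := (0 : ℝ)) (s := ball (0 : ℝ) 1)
    (bound := fun z => p * ((‖F z‖ + (B + 1)) ^ p * B)) (ball_mem_nhds 0 one_pos)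
    ?_ ?_ ?_ ?_ ?_ ?_
  · have := key.2
    simpa using this
  · exact Eventually.of_forall fun t => aesm ((hcont t).norm.rpow_const fun _ _ => Or.inr hp0.le)
  · simpa using hFi
  · -- measurability of the derivative
    simp only [zero_smul, add_zero]
    have m1 : Measurable ((ball (0 : ℂ) 1).indicator F) := measurable_ind hF
    have m2 : Measurable ((ball (0 : ℂ) 1).indicator h) := measurable_ind hh
    have m3 : Measurable fun z => p * ‖(ball (0 : ℂ) 1).indicator F z‖ ^ (p - 2) *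
        inner ℝ ((ball (0 : ℂ) 1).indicator F z) ((ball (0 : ℂ) 1).indicator h z) := by
      apply ((m1.norm.pow_const (p - 2)).const_mul p).mul
      exact m1.inner m2
    refine m3.aestronglyMeasurable.congr ?_
    filter_upwards [ae_sig] with z hz
    rw [indicator_of_mem hz, indicator_of_mem hz]
  · filter_upwards [ae_sig] with z hz t ht
    rw [Real.norm_eq_abs]
    refine (norm_pow_le hp _ _).trans ?_
    have h1 : ‖F z + t • h z‖ ≤ ‖F z‖ + (B + 1) := by
      refine (norm_add_le _ _).trans (add_le_add_right ?_ _)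
      rw [norm_smul, Real.norm_eq_abs]
      rw [mem_ball_zero_iff, Real.norm_eq_abs] at ht
      have := hb z hz
      nlinarith [abs_nonneg t, norm_nonneg (h z)]
    have h2 : 1 ≤ ‖F z‖ + (B + 1) := by linarith [norm_nonneg (F z)]
    have h3 : ‖F z + t • h z‖ ^ (p - 1) ≤ (‖F z‖ + (B + 1)) ^ p :=
      (Real.rpow_le_rpow (norm_nonneg _) h1 (by linarith)).trans
        (Real.rpow_le_rpow_of_exponent_le h2 (by linarith))
    have h4 := hb z hz
    gcongr
  · exact ((int_add_pow hp0.le hF hFi (by linarith)).mul_const B).const_mul p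
  · refine Eventually.of_forall fun z t _ => ?_
    have h1 : HasDerivAt (fun t : ℝ => F z + t • h z) (h z) t := by
      have := ((hasDerivAt_id t).smul_const (h z)).const_add (F z)
      simpa using this
    have h2 := (hasFDerivAt_norm_rpow (F z + t • h z) hp).comp_hasDerivAt t h1
    refine h2.congr_deriv ?_
    simp
    ring

/-- the variational identity, real part -/
lemma var_re {p q B : ℝ} (hpq : p.HolderConjugate q) {k F h : ℂ → ℂ}
    (hk : DifferentiableOn ℂ k (ball 0 1)) (hki : Integrable (fun z => ‖k z‖ ^ q) sig)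
    (hF : DifferentiableOn ℂ F (ball 0 1)) (hFi : Integrable (fun z => ‖F z‖ ^ p) sig)
    (hF1 : ∫ z, ‖F z‖ ^ p ∂sig = 1)
    (hext : ∀ g : ℂ → ℂ, DifferentiableOn ℂ g (ball 0 1) → Integrable (fun z => ‖g z‖ ^ p) sig →
      ∫ z, ‖g z‖ ^ p ∂sig = 1 → (∫ z, g z * (starRingEnd ℂ) (k z) ∂sig).re ≤
        (∫ z, F z * (starRingEnd ℂ) (k z) ∂sig).re)
    (hh : DifferentiableOn ℂ h (ball 0 1)) (hb : ∀ z ∈ ball (0 : ℂ) 1, ‖h z‖ ≤ B) :
    (∫ z, h z * (starRingEnd ℂ) (k z) ∂sig).re =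
      (∫ z, F z * (starRingEnd ℂ) (k z) ∂sig).re *
        ∫ z, ‖F z‖ ^ (p - 2) * inner ℝ (F z) (h z) ∂sig := by
  have hp : 1 < p := hpq.lt
  have hp0 : 0 < p := by linarith
  have hB : 0 ≤ B := (norm_nonneg _).trans (hb 0 (by simp))
  set lam := (∫ z, F z * (starRingEnd ℂ) (k z) ∂sig).re with hlam
  set c := (∫ z, h z * (starRingEnd ℂ) (k z) ∂sig).re with hc
  have hhi := int_bdd (p := p) hp0.le hh.continuousOn hb
  have iF := int_prod hpq hF.continuousOn hk.continuousOn hFi hki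
  have ih := int_prod hpq hh.continuousOn hk.continuousOn hhi hki
  set N : ℝ → ℝ := fun t => ∫ z, ‖F z + t • h z‖ ^ p ∂sig with hN
  have hN' : HasDerivAt N (∫ z, p * ‖F z‖ ^ (p - 2) * inner ℝ (F z) (h z) ∂sig) 0 :=
    deriv_N (B := B) hp hF.continuousOn hFi hh.continuousOn hb
  have hN0 : N 0 = 1 := by rw [hN]; simpa using hF1
  have hNpos : ∀ᶠ t in 𝓝 (0 : ℝ), 0 < N t := by
    have : Tendsto N (𝓝 0) (𝓝 (N 0)) := hN'.continuousAt
    rw [hN0] at this
    exact this.eventually (lt_mem_nhds one_pos)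
  have hineq : ∀ᶠ t in 𝓝 (0 : ℝ), lam + t * c ≤ lam * N t ^ (1 / p) := by
    filter_upwards [hNpos] with t ht
    set a : ℝ := N t ^ (-(1 / p)) with ha
    have ha0 : 0 < a := Real.rpow_pos_of_pos ht _
    have hap : a ^ p * N t = 1 := by
      rw [ha, ← Real.rpow_mul ht.le, show -(1 / p) * p = -1 by field_simp, Real.rpow_neg_one]
      exact inv_mul_cancel₀ ht.ne'
    have hnorm : ∀ z, ‖a • (F z + t • h z)‖ ^ p = a ^ p * ‖F z + t • h z‖ ^ p := by
      intro z
      rw [norm_smul, Real.norm_of_nonneg ha0.le, Real.mul_rpow ha0.le (norm_nonneg _)]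
    have hint : Integrable (fun z => ‖F z + t • h z‖ ^ p) sig := by
      refine Integrable.mono' (int_add_pow (B := |t| * B) hp0.le hF.continuousOn hFi
        (by positivity)) (aesm ((hF.continuousOn.add (hh.continuousOn.const_smul t)).norm.rpow_const
        fun _ _ => Or.inr hp0.le)) ?_
      filter_upwards [ae_sig] with z hz
      rw [Real.norm_of_nonneg (by positivity)]
      apply Real.rpow_le_rpow (norm_nonneg _) _ hp0.le
      refine (norm_add_le _ _).trans (add_le_add_right ?_ _)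
      rw [norm_smul, Real.norm_eq_abs]
      have := hb z hz
      gcongr
    have := hext (fun z => a • (F z + t • h z)) ((hF.add (hh.const_smul t)).const_smul a)
      (by simp_rw [hnorm]; exact hint.const_mul _)
      (by simp_rw [hnorm]; rw [integral_const_mul]; exact hap)
    have e : ∫ z, (a • (F z + t • h z)) * (starRingEnd ℂ) (k z) ∂sig =
        (a : ℂ) * ((∫ z, F z * (starRingEnd ℂ) (k z) ∂sig) +
          t * ∫ z, h z * (starRingEnd ℂ) (k z) ∂sig) := by
      rw [← integral_const_mul, ← integral_add iF (ih.const_mul _), ← integral_const_mul]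
      congr 1; ext z
      simp only [Complex.real_smul]; ring
    rw [e] at this
    have e2 : ((a : ℂ) * ((∫ z, F z * (starRingEnd ℂ) (k z) ∂sig) +
          t * ∫ z, h z * (starRingEnd ℂ) (k z) ∂sig)).re = a * (lam + t * c) := by
      rw [re_ofReal_mul, add_re, re_ofReal_mul]
    rw [e2] at this
    have e3 : N t ^ (1 / p) * a = 1 := by
      rw [ha, ← Real.rpow_add ht]; simp
    have h5 : 0 < N t ^ (1 / p) := Real.rpow_pos_of_pos ht _
    have h6 := mul_le_mul_of_nonneg_left this h5.le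
    calc lam + t * c = (N t ^ (1 / p) * a) * (lam + t * c) := by rw [e3, one_mul]
      _ = N t ^ (1 / p) * (a * (lam + t * c)) := by ring
      _ ≤ N t ^ (1 / p) * lam := h6
      _ = _ := by ring
  set Ψ : ℝ → ℝ := fun t => lam * N t ^ (1 / p) - (lam + t * c) with hΨ
  have hmin : IsLocalMin Ψ 0 := by
    filter_upwards [hineq] with t ht
    rw [hΨ]
    simp only [hN0, Real.one_rpow, zero_mul, add_zero, mul_one, sub_self]
    linarith
  have hd1 : HasDerivAt (fun t => N t ^ (1 / p))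
      ((∫ z, p * ‖F z‖ ^ (p - 2) * inner ℝ (F z) (h z) ∂sig) * (1 / p) * N 0 ^ (1 / p - 1)) 0 :=
    hN'.rpow_const (Or.inl (by rw [hN0]; exact one_ne_zero))
  have hd2 : HasDerivAt Ψ (lam * ((∫ z, p * ‖F z‖ ^ (p - 2) * inner ℝ (F z) (h z) ∂sig) *
      (1 / p) * N 0 ^ (1 / p - 1)) - c) 0 := by
    have h7 : HasDerivAt (fun t : ℝ => lam + t * c) c 0 := by
      simpa using ((hasDerivAt_id (0 : ℝ)).mul_const c).const_add lam
    exact (hd1.const_mul lam).sub h7
  have hz := hmin.hasDerivAt_eq_zero hd2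
  rw [hN0, Real.one_rpow, mul_one] at hz
  have e4 : ∫ z, p * ‖F z‖ ^ (p - 2) * inner ℝ (F z) (h z) ∂sig =
      p * ∫ z, ‖F z‖ ^ (p - 2) * inner ℝ (F z) (h z) ∂sig := by
    rw [← integral_const_mul]; congr 1; ext z; ring
  rw [e4] at hz
  have e5 : lam * (p * (∫ z, ‖F z‖ ^ (p - 2) * inner ℝ (F z) (h z) ∂sig) * (1 / p)) =
      lam * ∫ z, ‖F z‖ ^ (p - 2) * inner ℝ (F z) (h z) ∂sig := by
    field_simp
  rw [e5] at hz
  linarith

/-- the function `|F|^{p-2} F` -/
def up (p : ℝ) (F : ℂ → ℂ) (z : ℂ) : ℂ := ((‖F z‖ ^ (p - 2) : ℝ) : ℂ) * F z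

lemma cup {p : ℝ} (hp : 1 < p) {F : ℂ → ℂ} (hF : ContinuousOn F (ball 0 1)) :
    ContinuousOn (up p F) (ball 0 1) := (cont_pow hp).comp_continuousOn hF

lemma norm_up {p : ℝ} (hp : 1 < p) (F : ℂ → ℂ) (z : ℂ) : ‖up p F z‖ = ‖F z‖ ^ (p - 1) := by
  rw [up, norm_mul, Complex.norm_real, Real.norm_of_nonneg (by positivity)]
  by_cases hy : F z = 0
  · simp [hy, Real.zero_rpow (by linarith : p - 1 ≠ 0)]
  · have := norm_pos_iff.2 hy
    rw [show p - 1 = (p - 2) + 1 by ring, Real.rpow_add_one this.ne']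

/-- the variational identity -/
theorem variational {p q B : ℝ} (hpq : p.HolderConjugate q) {k F h : ℂ → ℂ}
    (hk : DifferentiableOn ℂ k (ball 0 1)) (hki : Integrable (fun z => ‖k z‖ ^ q) sig)
    (hF : DifferentiableOn ℂ F (ball 0 1)) (hFi : Integrable (fun z => ‖F z‖ ^ p) sig)
    (hF1 : ∫ z, ‖F z‖ ^ p ∂sig = 1)
    (hext : ∀ g : ℂ → ℂ, DifferentiableOn ℂ g (ball 0 1) → Integrable (fun z => ‖g z‖ ^ p) sig →
      ∫ z, ‖g z‖ ^ p ∂sig = 1 → (∫ z, g z * (starRingEnd ℂ) (k z) ∂sig).re ≤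
        (∫ z, F z * (starRingEnd ℂ) (k z) ∂sig).re)
    (hh : DifferentiableOn ℂ h (ball 0 1)) (hb : ∀ z ∈ ball (0 : ℂ) 1, ‖h z‖ ≤ B) :
    ∫ z, k z * (starRingEnd ℂ) (h z) ∂sig =
      (∫ z, F z * (starRingEnd ℂ) (k z) ∂sig).re * ∫ z, up p F z * (starRingEnd ℂ) (h z) ∂sig := by
  have hp : 1 < p := hpq.lt
  have hp0 : 0 < p := by linarith
  set lam := (∫ z, F z * (starRingEnd ℂ) (k z) ∂sig).re with hlam
  have hup : Integrable (fun z => ‖up p F z‖ ^ q) sig := by
    simp_rw [norm_up hp, ← Real.rpow_mul (norm_nonneg _)]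
    rw [hpq.sub_one_mul_conj]
    exact hFi
  have hhi := int_bdd (p := p) hp0.le hh.continuousOn hb
  have iu := int_prod hpq hh.continuousOn (cup hp hF.continuousOn) hhi hup
  have hinner : ∀ g : ℂ → ℂ, ∀ z, ‖F z‖ ^ (p - 2) * inner ℝ (F z) (g z) =
      (g z * (starRingEnd ℂ) (up p F z)).re := by
    intro g z
    rw [Complex.inner, up, map_mul, conj_ofReal,
      show g z * (((‖F z‖ ^ (p - 2) : ℝ) : ℂ) * (starRingEnd ℂ) (F z)) =
        ((‖F z‖ ^ (p - 2) : ℝ) : ℂ) * (g z * (starRingEnd ℂ) (F z)) by ring, re_ofReal_mul]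
  have h1 := var_re hpq hk hki hF hFi hF1 hext hh hb
  have h2 := var_re (B := B) hpq hk hki hF hFi hF1 hext (h := fun z => I * h z) (hh.const_mul I)
    (fun z hz => by rw [norm_mul, norm_I, one_mul]; exact hb z hz)
  have hinner2 : ∀ z, ‖F z‖ ^ (p - 2) * inner ℝ (F z) (I * h z) =
      (I * h z * (starRingEnd ℂ) (up p F z)).re := hinner fun z => I * h z
  simp_rw [hinner h] at h1
  simp_rw [hinner2] at h2
  rw [← hlam] at h1 h2
  have r1 : ∫ z, (h z * (starRingEnd ℂ) (up p F z)).re ∂sig =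
      (∫ z, h z * (starRingEnd ℂ) (up p F z) ∂sig).re := by
    have := integral_re iu
    simpa only [RCLike.re_to_complex] using this
  have iIu : Integrable (fun z => I * h z * (starRingEnd ℂ) (up p F z)) sig := by
    refine (iu.const_mul I).congr (Eventually.of_forall fun z => ?_)
    ring
  have r2 : ∫ z, (I * h z * (starRingEnd ℂ) (up p F z)).re ∂sig =
      (I * ∫ z, h z * (starRingEnd ℂ) (up p F z) ∂sig).re := by
    have := integral_re iIu
    simp only [RCLike.re_to_complex] at this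
    rw [this, ← integral_const_mul]
    congr 2; ext z; ring
  have r3 : ∫ z, I * h z * (starRingEnd ℂ) (k z) ∂sig =
      I * ∫ z, h z * (starRingEnd ℂ) (k z) ∂sig := by
    rw [← integral_const_mul]; congr 1; ext z; ring
  rw [r1] at h1
  rw [r2, r3] at h2
  have main : ∫ z, h z * (starRingEnd ℂ) (k z) ∂sig =
      lam * ∫ z, h z * (starRingEnd ℂ) (up p F z) ∂sig := by
    apply Complex.ext
    · rw [re_ofReal_mul]; exact h1
    · rw [im_ofReal_mul]
      simp only [mul_re, I_re, I_im, zero_mul, one_mul, zero_sub] at h2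
      linarith
  have c1 : ∫ z, k z * (starRingEnd ℂ) (h z) ∂sig =
      (starRingEnd ℂ) (∫ z, h z * (starRingEnd ℂ) (k z) ∂sig) := by
    rw [← integral_conj]; congr 1; ext z
    simp [mul_comm]
  have c2 : ∫ z, up p F z * (starRingEnd ℂ) (h z) ∂sig =
      (starRingEnd ℂ) (∫ z, h z * (starRingEnd ℂ) (up p F z) ∂sig) := by
    rw [← integral_conj]; congr 1; ext z
    simp [mul_comm]
  rw [c1, c2, main, map_mul, conj_ofReal]

end

end Pool.Agent.X105.BE
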