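import Pool.Agent.X105.BE.Cutoff
import Pool.Agent.X105.BE.Var

set_option autoImplicit false

namespace Pool.Agent.X105.BE

open MeasureTheory Complex Set Metric ComplexConjugate Filter Topology

noncomputable section

lemma tendsto_uu {p : ℝ} {F : ℂ → ℂ} {e : ℕ → ℝ} (he : Tendsto e atTop (𝓝 0)) (z : ℂ) :
    Tendsto (fun n => uu F (e n) ((p - 2) / 2) z) atTop (𝓝 (up p F z)) := by
  by_cases hz : F z = 0
  · have h1 : ∀ n, uu F (e n) ((p - 2) / 2) z = 0 := fun n => by rw [uu, hz, mul_zero]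
    have h2 : up p F z = 0 := by rw [up, hz, mul_zero]
    simp_rw [h1, h2]
    exact tendsto_const_nhds
  · have hn := norm_pos_iff.2 hz
    unfold uu up PP rho
    apply Tendsto.mul _ tendsto_const_nhds
    apply (continuous_ofReal.tendsto _).comp
    have h1 : ‖F z‖ ^ (p - 2) = (‖F z‖ ^ 2) ^ ((p - 2) / 2) := by
      rw [← Real.rpow_natCast, ← Real.rpow_mul hn.le]
      congr 1; push_cast; ring
    rw [h1]
    have h2 : Tendsto (fun n => ‖F z‖ ^ 2 + e n) atTop (𝓝 (‖F z‖ ^ 2)) := by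
      simpa using he.const_add (‖F z‖ ^ 2)
    exact h2.rpow_const (Or.inl (by positivity))

lemma norm_uu_le {p ε : ℝ} (hp : 1 < p) (hε : 0 < ε) (hε1 : ε ≤ 1) (F : ℂ → ℂ) (z : ℂ) :
    ‖uu F ε ((p - 2) / 2) z‖ ≤ (‖F z‖ + 1) ^ p := by
  have hr := rho_pos (F := F) (z := z) hε
  rw [uu, norm_mul, Complex.norm_real, Real.norm_of_nonneg (PP_pos hε).le]
  calc PP F ε ((p - 2) / 2) z * ‖F z‖ ≤ PP F ε ((p - 2) / 2) z * (rho F ε z) ^ (1 / 2 : ℝ) := by
        have := norm_le_sqrt_rho (F := F) (z := z) hε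
        have := (PP_pos (F := F) (a := (p - 2) / 2) (z := z) hε).le
        gcongr
    _ = (rho F ε z) ^ ((p - 1) / 2) := by
        rw [PP, ← Real.rpow_add hr]; congr 1; ring
    _ ≤ ((‖F z‖ + 1) ^ 2) ^ ((p - 1) / 2) := by
        apply Real.rpow_le_rpow hr.le _ (by linarith)
        rw [rho]
        nlinarith [norm_nonneg (F z)]
    _ = (‖F z‖ + 1) ^ (p - 1) := by
        rw [← Real.rpow_natCast, ← Real.rpow_mul (by positivity)]
        congr 1; push_cast; ring
    _ ≤ (‖F z‖ + 1) ^ p := Real.rpow_le_rpow_of_exponent_le (by linarith [norm_nonneg (F z)])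
        (by linarith)

/-- removing the cut-offs -/
theorem limit_bound {p B C : ℝ} (hp : 1 < p) {F H : ℂ → ℂ} (hF : DifferentiableOn ℂ F (ball 0 1))
    (hFi : Integrable (fun z => ‖F z‖ ^ p) sig) (hH : ContinuousOn H (ball 0 1))
    (hHB : ∀ z ∈ ball (0 : ℂ) 1, ‖H z‖ ≤ B)
    (hC : ∀ (κ E1 E2 : ℝ → ℝ) (s ε : ℝ), Cut κ E1 E2 s → 0 < ε → ε ≤ 1 →
      ‖∫ z, rad E1 z * (uu F ε ((p - 2) / 2) z * (starRingEnd ℂ) (H z))‖ ≤ C) :
    ‖∫ z in ball 0 1, up p F z * (starRingEnd ℂ) (H z)‖ ≤ C := by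
  have hB : 0 ≤ B := (norm_nonneg _).trans (hHB 0 (by simp))
  have hab : ∀ n : ℕ, (0 : ℝ) < 1 - 1 / (n + 2) ∧ 1 - 1 / ((n : ℝ) + 2) < 1 - 1 / (n + 3) ∧
      1 - 1 / ((n : ℝ) + 3) < 1 := by
    intro n
    have hn : (0 : ℝ) ≤ n := Nat.cast_nonneg n
    refine ⟨?_, ?_, ?_⟩
    · rw [sub_pos, div_lt_one (by positivity)]; linarith
    · have : 1 / ((n : ℝ) + 3) < 1 / (n + 2) := by
        apply one_div_lt_one_div_of_lt (by positivity); linarith
      linarith
    · have : 0 < 1 / ((n : ℝ) + 3) := by positivity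
      linarith
  choose κ E1 E2 hcut hone using fun n : ℕ => cut_exists (hab n).1 (hab n).2.1 (hab n).2.2
  set e : ℕ → ℝ := fun n => 1 / ((n : ℝ) + 1) with he
  have he0 : ∀ n, 0 < e n := fun n => by simp only [he]; positivity
  have he1 : ∀ n, e n ≤ 1 := fun n => by
    simp only [he]
    rw [div_le_one (by positivity)]
    linarith [Nat.cast_nonneg (α := ℝ) n]
  have het : Tendsto e atTop (𝓝 0) := tendsto_one_div_add_atTop_nhds_zero_nat
  have hAn := An.of_diff hF
  set f : ℕ → ℂ → ℂ := fun n z => rad (E1 n) z * (uu F (e n) ((p - 2) / 2) z *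
    (starRingEnd ℂ) (H z)) with hf
  have hzero : ∀ n z, z ∉ ball (0 : ℂ) 1 → f n z = 0 := by
    intro n z hz
    have : rad (E1 n) z = 0 := by
      apply rad_zero (hcut n).s0 (hcut n).E1z
      rw [mem_ball_zero_iff, not_lt] at hz
      exact (hcut n).s1.trans_le hz
    simp only [hf, this, zero_mul]
  have hball : ∀ n, ∫ z, f n z = ∫ z in ball 0 1, f n z := fun n =>
    (setIntegral_eq_integral_of_forall_compl_eq_zero (hzero n)).symm
  have hfc : ∀ n, ContinuousOn (f n) (ball 0 1) := fun n =>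
    (rad_cont (hcut n).E1c).continuousOn.mul ((cuu hAn (he0 n)).mul (conjc hH))
  have hlim : Tendsto (fun n => ∫ z in ball 0 1, f n z) atTop
      (𝓝 (∫ z in ball 0 1, up p F z * (starRingEnd ℂ) (H z))) := by
    apply tendsto_integral_of_dominated_convergence (fun z => (‖F z‖ + 1) ^ p * B)
    · exact fun n => (hfc n).aestronglyMeasurable measurableSet_ball
    · have := int_add_pow (p := p) (by linarith) hF.continuousOn hFi zero_le_one
      exact (integrable_sig.1 this).mul_const B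
    · intro n
      filter_upwards [ae_restrict_mem measurableSet_ball] with z hz
      simp only [hf]
      rw [norm_mul, norm_mul, Complex.norm_conj]
      have h1 : ‖rad (E1 n) z‖ ≤ 1 := by
        rw [rad, Complex.norm_real, Real.norm_of_nonneg ((hcut n).E1n _)]
        exact (hcut n).E1l _ (by positivity)
      have h2 := norm_uu_le hp (he0 n) (he1 n) F z
      have h3 := hHB z hz
      have h4 : 0 ≤ (‖F z‖ + 1) ^ p := by positivity
      calc ‖rad (E1 n) z‖ * (‖uu F (e n) ((p - 2) / 2) z‖ * ‖H z‖) ≤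
          1 * ((‖F z‖ + 1) ^ p * B) := by gcongr
        _ = _ := one_mul _
    · filter_upwards [ae_restrict_mem measurableSet_ball] with z hz
      have h1 : Tendsto (fun n => rad (E1 n) z) atTop (𝓝 1) := by
        apply tendsto_const_nhds.congr'
        have h2 : Tendsto (fun n : ℕ => 1 - 1 / ((n : ℝ) + 2)) atTop (𝓝 1) := by
          have : Tendsto (fun n : ℕ => 1 / ((n : ℝ) + 2)) atTop (𝓝 0) := by
            apply tendsto_const_nhds.div_atTop
            exact tendsto_atTop_add_const_right _ _ tendsto_natCast_atTop_atTop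
          simpa using this.const_sub 1
        rw [mem_ball_zero_iff] at hz
        have h3 : ‖z‖ ^ 2 < 1 := by nlinarith [norm_nonneg z]
        filter_upwards [h2.eventually (lt_mem_nhds h3)] with n hn
        rw [rad, hone n _ (by positivity) hn.le, ofReal_one]
      have h2 := h1.mul ((tendsto_uu (p := p) (F := F) het z).mul_const ((starRingEnd ℂ) (H z)))
      simpa only [one_mul] using h2
  refine le_of_tendsto hlim.norm (Eventually.of_forall fun n => ?_)
  rw [← hball]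
  exact hC _ _ _ _ _ (hcut n) (he0 n) (he1 n)

/-- circle averages of `(|F|^2+ε)^A` -/
lemma cA_PP {F : ℂ → ℂ} (hF : ContinuousOn F (ball 0 1)) {A C ε : ℝ} (hA : 0 ≤ A) (hε : 0 ≤ ε)
    (hε1 : ε ≤ 1)
    {r : ℝ} (hr0 : 0 ≤ r) (hr : r < 1) (hC : ∫ θ, ‖F (circleMap 0 r θ)‖ ^ (2 * A) ∂mT ≤ C) :
    ∫ θ, PP F ε A (circleMap 0 r θ) ∂mT ≤ 2 ^ A * (C + 1) := by
  have cF := cont_circ hF hr0 hr
  have i1 : Integrable (fun θ => ‖F (circleMap 0 r θ)‖ ^ (2 * A)) mT :=
    integrable_mT (cF.norm.rpow_const fun θ => Or.inr (by positivity))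
  have i2 : Integrable (fun θ => (‖F (circleMap 0 r θ)‖ ^ 2 + ε) ^ A) mT :=
    integrable_mT (((cF.norm.pow 2).add continuous_const).rpow_const fun θ => Or.inr hA)
  calc ∫ θ, PP F ε A (circleMap 0 r θ) ∂mT ≤
      ∫ θ, 2 ^ A * (‖F (circleMap 0 r θ)‖ ^ (2 * A) + 1) ∂mT := by
        apply integral_mono i2 ((i1.add (integrable_const _)).const_mul _)
        intro θ
        simp only
        refine (Real.rpow_le_rpow (by positivity) (add_le_add_right hε1 _) hA).trans ?_
        refine (rpow_add_le (by positivity) zero_le_one hA).trans ?_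
        rw [Real.one_rpow, ← Real.rpow_natCast, ← Real.rpow_mul (norm_nonneg _)]
        push_cast
        exact le_rfl
    _ ≤ _ := by
        rw [integral_const_mul, integral_add i1 (integrable_const _), int_one]
        gcongr

/-- **Main theorem (Hardy regularity of kernels).** -/
theorem main_hardy {p q q1 : ℝ} (hpq : p.HolderConjugate q) (hq1 : 1 < q1) {k F : ℂ → ℂ}
    (hk : DifferentiableOn ℂ k (ball 0 1)) (hki : Integrable (fun z => ‖k z‖ ^ q) sig)
    (hF : DifferentiableOn ℂ F (ball 0 1)) (hFi : Integrable (fun z => ‖F z‖ ^ p) sig)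
    (hF1 : ∫ z, ‖F z‖ ^ p ∂sig = 1)
    (hext : ∀ g : ℂ → ℂ, DifferentiableOn ℂ g (ball 0 1) → Integrable (fun z => ‖g z‖ ^ p) sig →
      ∫ z, ‖g z‖ ^ p ∂sig = 1 → (∫ z, g z * (starRingEnd ℂ) (k z) ∂sig).re ≤
        (∫ z, F z * (starRingEnd ℂ) (k z) ∂sig).re)
    (hH : ∃ C, ∀ r, 0 < r → r < 1 → ∫ θ, ‖F (circleMap 0 r θ)‖ ^ ((p - 1) * q1) ∂mT ≤ C) :
    ∃ C, ∀ r, 0 < r → r < 1 → ∫ θ, ‖k (circleMap 0 r θ)‖ ^ q1 ∂mT ≤ C := by
  obtain ⟨CF, hCF⟩ := hH
  have hp : 1 < p := hpq.lt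
  have hqq : q1.HolderConjugate (q1 / (q1 - 1)) := Real.HolderConjugate.conjExponent hq1
  set T := q1 / (q1 - 1) with hT
  have hT1 : 1 < T := hqq.symm.lt
  obtain ⟨CT, hCT0, hCT⟩ := RB_all hT1
  have hCF0 : 0 ≤ CF := (integral_nonneg fun θ => by positivity).trans
    (hCF (1 / 2) (by norm_num) (by norm_num))
  set α : ℝ := (p - 2) / 2 with hα
  set A : ℝ := (p - 1) * q1 / 2 with hA
  set B : ℝ := T / 2 with hB
  have hA0 : 0 < A := by
    have : 0 < p - 1 := by linarith
    positivity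
  have hB0 : 0 < B := by positivity
  have hα0 : 0 < α + 1 / 2 := by rw [hα]; linarith
  have hAB : (α + 1 / 2) / A + 1 / (2 * B) = 1 := by
    have h1 : (α + 1 / 2) / A = q1⁻¹ := by
      rw [hα, hA]
      have : p - 1 ≠ 0 := by linarith
      have : q1 ≠ 0 := by linarith
      field_simp
      ring
    have h2 : 1 / (2 * B) = T⁻¹ := by rw [hB]; field_simp
    rw [h1, h2]; exact hqq.inv_add_inv_eq_one
  set K : ℝ := (1 + 2 * ((α ^ 2 + 2 * |α|) * (2 / (α + 1 / 2) ^ 2 + 1 / (α + 1 / 2) +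
        1 / (2 * (α + 1 / 2) ^ 2 * B ^ 2) + (1 / A ^ 2 + 1 / A)))) with hK
  have hK0 : 0 ≤ K := by positivity
  set M : ℝ := 2 ^ A * (CF + 1) + 2 ^ B * (CT + 1) with hM
  have hM0 : 0 ≤ M := by positivity
  set lam := (∫ z, F z * (starRingEnd ℂ) (k z) ∂sig).re with hlam
  have hki1 : IntegrableOn k (ball 0 1) := by
    rw [← integrable_sig]
    refine Integrable.mono' (hki.add (integrable_const 1)) (aesm hk.continuousOn) ?_
    refine Eventually.of_forall fun z => ?_
    simp only [Pi.add_apply]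
    rcases le_total ‖k z‖ 1 with h | h
    · have : 0 ≤ ‖k z‖ ^ q := by positivity
      linarith
    · have : ‖k z‖ ≤ ‖k z‖ ^ q := by
        conv_lhs => rw [← Real.rpow_one ‖k z‖]
        exact Real.rpow_le_rpow_of_exponent_le h hpq.symm.lt.le
      linarith
  refine ⟨(|lam| * (K * M)) ^ q1, fun R hR0 hR => ?_⟩
  apply dual (cont_circ hk.continuousOn hR0.le hR) hqq (by positivity)
  intro w hw hw1
  -- the test function
  set G : ℂ → ℂ := fun z => CP w (R * z) with hG
  have hGd : DifferentiableOn ℂ G (ball 0 1) := diffOn_dil hw hR0.le hR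
  have hGan := An.of_diff hGd
  have hFan := An.of_diff hF
  set H : ℂ → ℂ := fun z => G z + z * deriv G z with hHdef
  have hHd : DifferentiableOn ℂ H (ball 0 1) :=
    hGd.add (differentiableOn_id.mul (hGd.deriv isOpen_ball))
  have hHB : ∀ z ∈ ball (0 : ℂ) 1, ‖H z‖ ≤ (∫ θ, ‖w θ‖ ∂mT) * (1 / (1 - R) ^ 2) := fun z hz =>
    dil_bound hw hR0.le hR (mem_ball_zero_iff.1 hz).le
  have hGm : ∀ r, 0 < r → r < 1 → ∫ θ, ‖G (circleMap 0 r θ)‖ ^ (2 * B) ∂mT ≤ CT := by
    intro r hr0 hr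
    have h1 := hCT w hw hw1 (R * r) (by positivity) (by nlinarith)
    refine le_trans (le_of_eq ?_) h1
    congr 1; ext θ
    rw [hB, hG]
    simp only
    rw [circleMap_eq, circleMap_eq]
    push_cast
    ring_nf
  have hFm : ∀ r, 0 < r → r < 1 → ∫ θ, ‖F (circleMap 0 r θ)‖ ^ (2 * A) ∂mT ≤ CF := by
    intro r hr0 hr
    have h1 := hCF r hr0 hr
    rw [hA, show 2 * ((p - 1) * q1 / 2) = (p - 1) * q1 by ring]
    exact h1
  have key : ‖∫ z in ball 0 1, up p F z * (starRingEnd ℂ) (H z)‖ ≤ K * (M * Real.pi) := by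
    apply limit_bound hp hF hFi hHd.continuousOn hHB
    intro κ E1 E2 s ε hcut hε hε1
    refine (hcut.energyA (α := α) hFan hGan hε one_pos hα0 hA0 hB0 hAB).trans ?_
    apply mul_le_mul_of_nonneg_left _ hK0
    have hcont : ContinuousOn (fun z => PP F ε A z + PP G 1 B z) (ball 0 1) :=
      (hFan.cPPr hε).add (hGan.cPPr one_pos)
    refine (hcut.polar hcont (M := M) ?_).trans (mul_le_mul_of_nonneg_left hcut.mass hM0)
    intro r hr0 hr
    rw [cA_eq, integral_add]
    · exact add_le_add (cA_PP hF.continuousOn hA0.le hε.le hε1 hr0.le hr (hFm r hr0 hr))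
        (cA_PP hGd.continuousOn hB0.le zero_le_one le_rfl hr0.le hr (hGm r hr0 hr))
    · apply integrable_mT
      exact (hFan.cPPr hε).comp_continuous (continuous_circleMap 0 r) fun θ => by
        rw [mem_ball_zero_iff, norm_circleMap_zero, abs_of_pos hr0]; exact hr
    · apply integrable_mT
      exact (hGan.cPPr one_pos).comp_continuous (continuous_circleMap 0 r) fun θ => by
        rw [mem_ball_zero_iff, norm_circleMap_zero, abs_of_pos hr0]; exact hr
  have hpair := pairing hk hki1 hw hR0.le hR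
  have hvar := variational hpq hk hki hF hFi hF1 hext hHd hHB
  rw [← hlam, integral_sig, integral_sig] at hvar
  have hpi := Real.pi_pos
  have e1 : ∫ θ, k (circleMap 0 R θ) * (starRingEnd ℂ) (w θ) ∂mT =
      lam * ((1 / Real.pi) • ∫ z in ball 0 1, up p F z * (starRingEnd ℂ) (H z)) := by
    rw [← hvar]
    have : ∫ z in ball 0 1, k z * (starRingEnd ℂ) (H z) =
        Real.pi * ∫ θ, k (circleMap 0 R θ) * (starRingEnd ℂ) (w θ) ∂mT := hpair
    rw [this, Complex.real_smul]
    push_cast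
    have : (Real.pi : ℂ) ≠ 0 := ofReal_ne_zero.2 hpi.ne'
    field_simp
  rw [e1, norm_mul, norm_smul, Complex.norm_real, Real.norm_eq_abs,
    Real.norm_of_nonneg (by positivity)]
  apply mul_le_mul_of_nonneg_left _ (abs_nonneg lam)
  calc 1 / Real.pi * ‖∫ z in ball 0 1, up p F z * (starRingEnd ℂ) (H z)‖ ≤
      1 / Real.pi * (K * (M * Real.pi)) := by gcongr
    _ = K * M := by field_simp

end

end Pool.Agent.X105.BE
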