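import Pool.Agent.X105.BE.Repro
import Pool.Agent.X105.BE.Energy3

set_option autoImplicit false

namespace Pool.Agent.X105.BE

open MeasureTheory Complex Set Metric ComplexConjugate Filter Topology

noncomputable section

lemma An.of_diff {g : ℂ → ℂ} (hg : DifferentiableOn ℂ g (ball 0 1)) :
    An g (deriv g) (deriv (deriv g)) where
  h1 := fun z hz => ((hg z hz).differentiableAt (isOpen_ball.mem_nhds hz)).hasDerivAt
  h2 := fun z hz => (((hg.deriv isOpen_ball) z hz).differentiableAt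
    (isOpen_ball.mem_nhds hz)).hasDerivAt
  h3 := ((hg.deriv isOpen_ball).deriv isOpen_ball).continuousOn

lemma Rz_mem {R : ℝ} (hR0 : 0 ≤ R) (hR : R < 1) {z : ℂ} (hz : ‖z‖ ≤ 1) : ‖(R : ℂ) * z‖ ≤ R := by
  rw [norm_mul, Complex.norm_real, Real.norm_of_nonneg hR0]
  nlinarith [norm_nonneg z]

/-- the kernel -/
def Kc (R : ℝ) (z : ℂ) (θ : ℝ) : ℂ := ec θ ^ 2 / (ec θ - R * z) ^ 2

lemma norm_Kc_le {R : ℝ} (hR0 : 0 ≤ R) (hR : R < 1) {z : ℂ} (hz : ‖z‖ ≤ 1) (θ : ℝ) :
    ‖Kc R z θ‖ ≤ 1 / (1 - R) ^ 2 := by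
  rw [Kc, norm_div, norm_pow, norm_pow, norm_ec, one_pow]
  have h1 := norm_ec_sub (z := (R : ℂ) * z) θ
  have h2 := Rz_mem hR0 hR hz
  have h3 : 0 < 1 - R := by linarith
  have h4 : 1 - R ≤ ‖ec θ - R * z‖ := by linarith
  gcongr

lemma deriv_dil {w : ℝ → ℂ} (hw : Continuous w) {R : ℝ} (hR0 : 0 ≤ R) (hR : R < 1) {z : ℂ}
    (hz : ‖z‖ ≤ 1) : HasDerivAt (fun z => CP w (R * z)) (CP' w (R * z) * R) z := by
  have h1 := hasDerivAt_CP hw ((Rz_mem hR0 hR hz).trans_lt hR)
  have h2 : HasDerivAt (fun z : ℂ => (R : ℂ) * z) R z := by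
    simpa using (hasDerivAt_id z).const_mul (R : ℂ)
  exact h1.comp z h2

lemma diffOn_dil {w : ℝ → ℂ} (hw : Continuous w) {R : ℝ} (hR0 : 0 ≤ R) (hR : R < 1) :
    DifferentiableOn ℂ (fun z => CP w (R * z)) (ball 0 1) := fun z hz =>
  (deriv_dil hw hR0 hR (mem_ball_zero_iff.1 hz).le).differentiableAt.differentiableWithinAt

lemma cont_Kc {R : ℝ} (hR0 : 0 ≤ R) (hR : R < 1) {z : ℂ} (hz : ‖z‖ ≤ 1) : Continuous (Kc R z) :=
  (ec_cont.pow 2).div ((ec_cont.sub continuous_const).pow 2) fun θ =>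
    pow_ne_zero 2 (ec_sub_ne ((Rz_mem hR0 hR hz).trans_lt hR) θ)

lemma dil_formula {w : ℝ → ℂ} (hw : Continuous w) {R : ℝ} (hR0 : 0 ≤ R) (hR : R < 1) {z : ℂ}
    (hz : ‖z‖ ≤ 1) : CP w (R * z) + z * deriv (fun z => CP w (R * z)) z =
      ∫ θ, w θ * Kc R z θ ∂mT := by
  have hRz := (Rz_mem hR0 hR hz).trans_lt hR
  rw [(deriv_dil hw hR0 hR hz).deriv, CP, CP']
  have i1 : Integrable (fun θ => w θ * (ec θ / (ec θ - R * z))) mT :=
    integrable_mT (hw.mul (cont_ker hRz))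
  have i2 : Integrable (fun θ => w θ * (ec θ / (ec θ - R * z) ^ 2)) mT :=
    integrable_mT (hw.mul (cont_ker2 hRz))
  have i3 := i2.const_mul (z * R)
  have e : z * ((∫ θ, w θ * (ec θ / (ec θ - R * z) ^ 2) ∂mT) * R) =
      ∫ θ, z * R * (w θ * (ec θ / (ec θ - R * z) ^ 2)) ∂mT := by
    rw [integral_const_mul]; ring
  rw [e, ← integral_add i1 i3]
  congr 1; ext θ
  have := ec_sub_ne hRz θ
  rw [Kc]
  field_simp
  ring

lemma dil_bound {w : ℝ → ℂ} (hw : Continuous w) {R : ℝ} (hR0 : 0 ≤ R) (hR : R < 1) {z : ℂ}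
    (hz : ‖z‖ ≤ 1) : ‖CP w (R * z) + z * deriv (fun z => CP w (R * z)) z‖ ≤
      (∫ θ, ‖w θ‖ ∂mT) * (1 / (1 - R) ^ 2) := by
  rw [dil_formula hw hR0 hR hz, ← integral_mul_const]
  refine (norm_integral_le_integral_norm _).trans ?_
  apply integral_mono (integrable_mT (hw.mul (cont_Kc hR0 hR hz)).norm)
    (integrable_mT (hw.norm.mul continuous_const))
  intro θ
  simp only [Pi.mul_apply]
  rw [norm_mul]
  have := norm_Kc_le hR0 hR hz θ
  gcongr

/-- the pairing -/
theorem pairing {k : ℂ → ℂ} (hk : DifferentiableOn ℂ k (ball 0 1))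
    (hi : IntegrableOn k (ball 0 1)) {w : ℝ → ℂ} (hw : Continuous w) {R : ℝ} (hR0 : 0 ≤ R)
    (hR : R < 1) :
    ∫ z in ball 0 1, k z * (starRingEnd ℂ) (CP w (R * z) + z * deriv (fun z => CP w (R * z)) z) =
      Real.pi * ∫ θ, k (circleMap 0 R θ) * (starRingEnd ℂ) (w θ) ∂mT := by
  have h1 : ∫ z in ball 0 1, k z * (starRingEnd ℂ) (CP w (R * z) +
      z * deriv (fun z => CP w (R * z)) z) =
      ∫ z in ball 0 1, ∫ θ, k z * (starRingEnd ℂ) (w θ * Kc R z θ) ∂mT := by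
    apply setIntegral_congr_fun measurableSet_ball
    intro z hz
    simp only
    rw [dil_formula hw hR0 hR (mem_ball_zero_iff.1 hz).le, ← integral_conj, integral_const_mul]
  rw [h1, integral_integral_swap]
  · rw [← integral_const_mul]
    congr 1; ext θ
    have h2 : ∫ z in ball 0 1, k z * (starRingEnd ℂ) (w θ * Kc R z θ) =
        (starRingEnd ℂ) (w θ) * ∫ z in ball 0 1, k z / (1 - (R * ec θ) * (starRingEnd ℂ) z) ^ 2 := by
      rw [← integral_const_mul]
      apply setIntegral_congr_fun measurableSet_ball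
      intro z hz
      have hz1 := (mem_ball_zero_iff.1 hz).le
      have e0 := ec_ne θ
      have e1 := ec_sub_ne ((Rz_mem hR0 hR hz1).trans_lt hR) θ
      have e2 : (starRingEnd ℂ) (ec θ - R * z) ≠ 0 := by
        rw [Ne, map_eq_zero]; exact e1
      simp only [map_mul, Kc, map_div₀, map_pow]
      rw [map_sub, map_mul, conj_ofReal, conj_ec] at e2 ⊢
      have e3 : (ec θ)⁻¹ - R * (starRingEnd ℂ) z =
          (1 - (R * ec θ) * (starRingEnd ℂ) z) * (ec θ)⁻¹ := by
        field_simp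
      rw [e3] at e2 ⊢
      have e4 : 1 - (R * ec θ) * (starRingEnd ℂ) z ≠ 0 := left_ne_zero_of_mul e2
      field_simp
    rw [h2, repro hk hi (a := R * ec θ) (by
      rw [norm_mul, norm_ec, mul_one, Complex.norm_real, Real.norm_of_nonneg hR0]; exact hR),
      circleMap_eq]
    ring
  · -- integrability on the product
    have hp : Integrable (fun p : ℂ × ℝ => ‖k p.1‖ * ‖w p.2‖)
        ((volume.restrict (ball (0 : ℂ) 1)).prod mT) := hi.norm.mul_prod (integrable_mT hw.norm)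
    refine Integrable.mono' (hp.mul_const (1 / (1 - R) ^ 2)) ?_ ?_
    · have m1 : AEStronglyMeasurable (fun p : ℂ × ℝ => k p.1)
          ((volume.restrict (ball (0 : ℂ) 1)).prod mT) := hi.aestronglyMeasurable.comp_fst
      have m2 : Measurable (fun p : ℂ × ℝ => (starRingEnd ℂ) (w p.2 * Kc R p.1 p.2)) := by
        have c1 : Continuous fun p : ℂ × ℝ => ec p.2 := ec_cont.comp continuous_snd
        have c2 : Continuous fun p : ℂ × ℝ => w p.2 := hw.comp continuous_snd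
        have c3 : Continuous fun p : ℂ × ℝ => (ec p.2 - R * p.1) ^ 2 :=
          (c1.sub (continuous_const.mul continuous_fst)).pow 2
        apply continuous_conj.measurable.comp
        exact c2.measurable.mul ((c1.pow 2).measurable.div c3.measurable)
      exact m1.mul m2.aestronglyMeasurable
    · have hae : ∀ᵐ p : ℂ × ℝ ∂((volume.restrict (ball (0 : ℂ) 1)).prod mT), p.1 ∈ ball (0 : ℂ) 1 :=
        Measure.quasiMeasurePreserving_fst.ae (ae_restrict_mem measurableSet_ball)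
      filter_upwards [hae] with p hp
      simp only [Function.uncurry]
      rw [norm_mul, Complex.norm_conj, norm_mul]
      have := norm_Kc_le hR0 hR (mem_ball_zero_iff.1 hp).le p.2
      calc ‖k p.1‖ * (‖w p.2‖ * ‖Kc R p.1 p.2‖) ≤ ‖k p.1‖ * (‖w p.2‖ * (1 / (1 - R) ^ 2)) := by
            gcongr
        _ = _ := by ring

end

end Pool.Agent.X105.BE
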