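import Pool.Agent.X105.BE.Dual
import Pool.Agent.X105.BE.Energy
import Pool.Agent.Helper509.Polar

set_option autoImplicit false

namespace Pool.Agent.X105.BE

open MeasureTheory Complex Set Metric ComplexConjugate Filter Topology

noncomputable section

lemma measurable_ind {E : Type*} [NormedAddCommGroup E] [MeasurableSpace E] [BorelSpace E]
    {f : ℂ → E} (hf : ContinuousOn f (ball 0 1)) :
    Measurable ((ball (0 : ℂ) 1).indicator f) := by
  classical
  rw [← Set.piecewise_eq_indicator]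
  exact hf.measurable_piecewise continuousOn_const measurableSet_ball

/-- polar coordinates on the disc -/
lemma polar_disc {f : ℂ → ℂ} (hf : ContinuousOn f (ball 0 1)) (hi : IntegrableOn f (ball 0 1)) :
    ∫ z in ball 0 1, f z = ∫ r in Ioo (0 : ℝ) 1, (r : ℝ) • ((2 * Real.pi) •
      Real.circleAverage f 0 r) := by
  have h1 : ∫ z in ball 0 1, f z = ∫ z in ball 0 1, (ball (0 : ℂ) 1).indicator f z := by
    apply setIntegral_congr_fun measurableSet_ball
    intro z hz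
    rw [indicator_of_mem hz]
  have hi2 : IntegrableOn ((ball (0 : ℂ) 1).indicator f) (ball 0 1) :=
    (hi.congr_fun (fun z hz => by rw [indicator_of_mem hz]) measurableSet_ball)
  rw [h1, Helper509.Polar.integral_ball _ (measurable_ind hf) 0 1 hi2]
  apply setIntegral_congr_fun measurableSet_Ioo
  intro r hr
  simp only
  congr 2
  apply Real.circleAverage_congr_sphere
  intro z hz
  rw [mem_sphere_iff_norm, sub_zero, abs_of_pos hr.1] at hz
  rw [indicator_of_mem]
  rw [mem_ball_zero_iff, hz]; exact hr.2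

lemma cA_ofReal (f : ℂ → ℝ) (r : ℝ) :
    Real.circleAverage (fun z => (f z : ℂ)) 0 r = ((Real.circleAverage f 0 r : ℝ) : ℂ) := by
  rw [cA_eq, cA_eq, integral_complex_ofReal]

/-- real version -/
lemma polar_disc_real {f : ℂ → ℝ} (hf : ContinuousOn f (ball 0 1))
    (hi : IntegrableOn f (ball 0 1)) :
    ∫ z in ball 0 1, f z = ∫ r in Ioo (0 : ℝ) 1, r * ((2 * Real.pi) *
      Real.circleAverage f 0 r) := by
  have h := polar_disc (f := fun z => (f z : ℂ)) (continuous_ofReal.comp_continuousOn hf)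
    hi.ofReal
  rw [integral_complex_ofReal] at h
  have h2 : ∫ r in Ioo (0 : ℝ) 1, (r : ℝ) • ((2 * Real.pi) •
      Real.circleAverage (fun z => (f z : ℂ)) 0 r) =
      ((∫ r in Ioo (0 : ℝ) 1, r * ((2 * Real.pi) * Real.circleAverage f 0 r) : ℝ) : ℂ) := by
    rw [← integral_complex_ofReal]
    congr 1; ext r
    rw [cA_ofReal]
    simp only [Complex.real_smul]
    push_cast
    ring
  rw [h2] at h
  exact_mod_cast h

lemma cont_cA {f : ℂ → ℝ} (hf : ContinuousOn f (ball 0 1)) :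
    ContinuousOn (Real.circleAverage f 0) (Ico 0 1) := by
  refine Real.ContinuousOn.circleAverage ?_ (fun r hr => hr.1)
  apply hf.mono
  intro z hz
  rw [mem_ball_zero_iff]
  simpa using hz.2

section
variable {κ E1 E2 : ℝ → ℝ} {s : ℝ}

/-- bound of a radially weighted integral by circle averages -/
lemma Cut.polar (h : Cut κ E1 E2 s) {f : ℂ → ℝ} (hf : ContinuousOn f (ball 0 1)) {M : ℝ}
    (hM : ∀ r, 0 < r → r < 1 → Real.circleAverage f 0 r ≤ M) :
    ∫ z, κ (‖z‖ ^ 2) * (‖z‖ ^ 2 * f z) ≤ M * ∫ z : ℂ, κ (‖z‖ ^ 2) * ‖z‖ ^ 2 := by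
  have hk : Continuous fun z : ℂ => κ (‖z‖ ^ 2) := h.κc.comp (continuous_norm.pow 2)
  have c1 : ContinuousOn (fun z => κ (‖z‖ ^ 2) * (‖z‖ ^ 2 * f z)) (ball 0 1) :=
    hk.continuousOn.mul ((continuous_norm.pow 2).continuousOn.mul hf)
  have c2 : ContinuousOn (fun z : ℂ => M * (κ (‖z‖ ^ 2) * ‖z‖ ^ 2)) (ball 0 1) :=
    continuousOn_const.mul (hk.continuousOn.mul (continuous_norm.pow 2).continuousOn)
  have i1 : Integrable (fun z => κ (‖z‖ ^ 2) * (‖z‖ ^ 2 * f z)) :=
    h.rintk ((continuous_norm.pow 2).continuousOn.mul hf)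
  have i2 : Integrable (fun z : ℂ => M * (κ (‖z‖ ^ 2) * ‖z‖ ^ 2)) :=
    (h.rintk (continuous_norm.pow 2).continuousOn).const_mul M
  have hz0 : ∀ z : ℂ, z ∉ ball (0 : ℂ) 1 → κ (‖z‖ ^ 2) = 0 := by
    intro z hz
    apply h.κz
    rw [mem_ball_zero_iff, not_lt] at hz
    have := h.s1
    have := h.s0
    nlinarith
  rw [← integral_const_mul]
  rw [← setIntegral_eq_integral_of_forall_compl_eq_zero (s := ball (0 : ℂ) 1)
    (f := fun z => κ (‖z‖ ^ 2) * (‖z‖ ^ 2 * f z)) (fun z hz => by rw [hz0 z hz, zero_mul]),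
    ← setIntegral_eq_integral_of_forall_compl_eq_zero (s := ball (0 : ℂ) 1)
    (f := fun z : ℂ => M * (κ (‖z‖ ^ 2) * ‖z‖ ^ 2)) (fun z hz => by rw [hz0 z hz]; ring)]
  rw [polar_disc_real c1 i1.integrableOn, polar_disc_real c2 i2.integrableOn]
  have e1 : ∀ r ∈ Ioo (0 : ℝ) 1, Real.circleAverage (fun z => κ (‖z‖ ^ 2) * (‖z‖ ^ 2 * f z)) 0 r =
      (κ (r ^ 2) * r ^ 2) * Real.circleAverage f 0 r := by
    intro r hr
    rw [cA_eq, cA_eq, ← integral_const_mul]
    congr 1; ext θ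
    rw [norm_circleMap_zero, abs_of_pos hr.1]; ring
  have e2 : ∀ r ∈ Ioo (0 : ℝ) 1, Real.circleAverage (fun z : ℂ => M * (κ (‖z‖ ^ 2) * ‖z‖ ^ 2)) 0 r =
      (κ (r ^ 2) * r ^ 2) * M := by
    intro r hr
    rw [cA_eq]
    have : ∀ θ, M * (κ (‖circleMap 0 r θ‖ ^ 2) * ‖circleMap 0 r θ‖ ^ 2) = (κ (r ^ 2) * r ^ 2) * M := by
      intro θ
      rw [norm_circleMap_zero, abs_of_pos hr.1]; ring
    simp only [this, integral_const, measureReal_def, measure_univ, ENNReal.toReal_one, one_smul]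
  have cr : ContinuousOn (fun r => r * (2 * Real.pi * ((κ (r ^ 2) * r ^ 2) *
      Real.circleAverage f 0 r))) (Ico 0 1) :=
    continuousOn_id.mul (continuousOn_const.mul (((h.κc.comp (continuous_pow 2)).mul
      (continuous_pow 2)).continuousOn.mul (cont_cA hf)))
  have cr2 : Continuous (fun r : ℝ => r * (2 * Real.pi * ((κ (r ^ 2) * r ^ 2) * M))) :=
    continuous_id.mul (continuous_const.mul (((h.κc.comp (continuous_pow 2)).mul
      (continuous_pow 2)).mul continuous_const))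
  have ir2 : IntegrableOn (fun r : ℝ => r * (2 * Real.pi * ((κ (r ^ 2) * r ^ 2) * M)))
      (Ioo 0 1) := (cr2.integrableOn_Icc (a := 0) (b := 1)).mono_set Ioo_subset_Icc_self
  have ir1 : IntegrableOn (fun r => r * (2 * Real.pi * ((κ (r ^ 2) * r ^ 2) *
      Real.circleAverage f 0 r))) (Ioo 0 1) := by
    have hs1 := h.s1
    have hA : IntegrableOn (fun r => r * (2 * Real.pi * ((κ (r ^ 2) * r ^ 2) *
      Real.circleAverage f 0 r))) (Icc 0 s) :=
      (cr.mono fun x hx => ⟨hx.1, hx.2.trans_lt hs1⟩).integrableOn_Icc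
    have hB : IntegrableOn (fun r => r * (2 * Real.pi * ((κ (r ^ 2) * r ^ 2) *
      Real.circleAverage f 0 r))) (Ioo s 1) := by
      apply (integrableOn_zero : IntegrableOn (fun _ : ℝ => (0 : ℝ)) (Ioo s 1) volume).congr_fun _
        measurableSet_Ioo
      intro r hr
      have : κ (r ^ 2) = 0 := h.κz _ (by
        have := h.s0
        have := hr.1
        nlinarith)
      simp only [this]; ring
    apply (hA.union hB).mono_set
    intro r hr
    rcases le_or_gt r s with hle | hle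
    · exact Or.inl ⟨hr.1.le, hle⟩
    · exact Or.inr ⟨hle, hr.2⟩
  rw [setIntegral_congr_fun (f := fun r => r * (2 * Real.pi *
    Real.circleAverage (fun z => κ (‖z‖ ^ 2) * (‖z‖ ^ 2 * f z)) 0 r)) measurableSet_Ioo
    (g := fun r => r * (2 * Real.pi *
    ((κ (r ^ 2) * r ^ 2) * Real.circleAverage f 0 r))) (fun r hr => by simp only; rw [e1 r hr]),
    setIntegral_congr_fun (f := fun r => r * (2 * Real.pi *
    Real.circleAverage (fun z : ℂ => M * (κ (‖z‖ ^ 2) * ‖z‖ ^ 2)) 0 r)) measurableSet_Ioo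
    (g := fun r => r * (2 * Real.pi *
    ((κ (r ^ 2) * r ^ 2) * M))) (fun r hr => by simp only; rw [e2 r hr])]
  apply setIntegral_mono_on ir1 ir2 measurableSet_Ioo
  intro r hr
  have h1 := hM r hr.1 hr.2
  have h2 := h.κ0 (r ^ 2)
  have h3 := hr.1
  gcongr

lemma Cut.mass (h : Cut κ E1 E2 s) : ∫ z : ℂ, κ (‖z‖ ^ 2) * ‖z‖ ^ 2 ≤ Real.pi := by
  have key := h.identityW (W := fun _ => 1) (Wa := fun _ => 0) (Wb := fun _ => 0)
    (Wab := fun _ => 0) (Wbb := fun _ => 0) (fun z _ => HW.const 1 z) (fun z _ => HW.const 0 z)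
    continuousOn_const continuousOn_const continuousOn_const
  simp only [mul_zero, integral_zero, mul_one] at key
  have r2 : ∫ z, rad κ z * (‖z‖ ^ 2 : ℂ) = ((∫ z : ℂ, κ (‖z‖ ^ 2) * ‖z‖ ^ 2 : ℝ) : ℂ) := by
    rw [← integral_complex_ofReal]; congr 1; ext z; simp [rad]
  have r3 : ∫ z, rad E1 z = ((∫ z : ℂ, E1 (‖z‖ ^ 2) : ℝ) : ℂ) := by
    rw [← integral_complex_ofReal]; rfl
  rw [r2, r3] at key
  have key' : ∫ z : ℂ, κ (‖z‖ ^ 2) * ‖z‖ ^ 2 = ∫ z : ℂ, E1 (‖z‖ ^ 2) := by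
    have : ((∫ z : ℂ, κ (‖z‖ ^ 2) * ‖z‖ ^ 2 : ℝ) : ℂ) = ((∫ z : ℂ, E1 (‖z‖ ^ 2) : ℝ) : ℂ) := by
      linear_combination -key
    exact_mod_cast this
  rw [key']
  have hE : ∀ z : ℂ, z ∉ ball (0 : ℂ) 1 → E1 (‖z‖ ^ 2) = 0 := by
    intro z hz
    apply h.E1z
    rw [mem_ball_zero_iff, not_lt] at hz
    have := h.s1
    have := h.s0
    nlinarith
  rw [← setIntegral_eq_integral_of_forall_compl_eq_zero (s := ball (0 : ℂ) 1) hE]
  have i1 : Integrable (fun z : ℂ => E1 (‖z‖ ^ 2)) := by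
    have := h.rint1 (f := fun _ => (1 : ℝ)) continuousOn_const
    simpa using this
  have : ∫ z in ball (0 : ℂ) 1, E1 (‖z‖ ^ 2) ≤ ∫ z in ball (0 : ℂ) 1, (1 : ℝ) := by
    apply setIntegral_mono_on i1.integrableOn _ measurableSet_ball
    · intro z _
      exact h.E1l _ (by positivity)
    · exact integrableOn_const (by simp)
  refine this.trans (le_of_eq ?_)
  rw [setIntegral_const, smul_eq_mul, mul_one, measureReal_def, Complex.volume_ball]
  simp

end

end

end Pool.Agent.X105.BE
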