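import Pool.Agent.X105.BE.Polar

set_option autoImplicit false

namespace Pool.Agent.X105.BE

open MeasureTheory Complex Set Metric ComplexConjugate Filter Topology

noncomputable section

lemma cA_sq {k : ℂ → ℂ} (hk : DifferentiableOn ℂ k (ball 0 1)) {a : ℂ} (ha : ‖a‖ < 1) {r : ℝ}
    (hr0 : 0 < r) (hr : r < 1) :
    Real.circleAverage (fun z => k z / (1 - a * (starRingEnd ℂ) z) ^ 2) 0 r =
      k (a * r ^ 2) + a * r ^ 2 * deriv k (a * r ^ 2) := by
  set b : ℂ := a * r ^ 2 with hb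
  have hbn : ‖b‖ < r := by
    rw [hb, norm_mul, norm_pow, Complex.norm_real, Real.norm_of_nonneg hr0.le]
    have : ‖a‖ * r ^ 2 ≤ 1 * r ^ 2 := by gcongr
    nlinarith
  have hsub : closedBall (0 : ℂ) r ⊆ ball 0 1 := closedBall_subset_ball hr
  have hd : DiffContOnCl ℂ k (ball 0 |r|) := by
    rw [abs_of_pos hr0]
    apply DifferentiableOn.diffContOnCl
    rw [closure_ball _ hr0.ne']
    exact hk.mono hsub
  have h1 : Real.circleAverage (fun z ↦ ((z - 0) / (z - b)) • k z) 0 r = k b :=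
    hd.circleAverage_smul_div (by rw [mem_ball_zero_iff, abs_of_pos hr0]; exact hbn)
  have h2 : Real.circleAverage (fun z ↦ (z / (z - b) ^ 2) * k z) 0 r = deriv k b := by
    have h3 := two_pi_I_inv_smul_circleIntegral_sub_sq_inv_smul_of_differentiable
      isOpen_ball hsub hk (w₀ := b) (by rw [mem_ball_zero_iff]; exact hbn)
    rw [← h3, Real.circleAverage_eq_circleIntegral hr0.ne']
    congr 1
    apply circleIntegral.integral_congr hr0.le
    intro z hz
    have hz0 : z ≠ 0 := by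
      rintro rfl; rw [mem_sphere_iff_norm, sub_zero, norm_zero] at hz; exact hr0.ne hz
    simp only [smul_eq_mul, sub_zero]
    field_simp
  have hzb : ∀ θ, circleMap 0 r θ - b ≠ 0 := by
    intro θ h
    rw [sub_eq_zero] at h
    rw [← h, norm_circleMap_zero, abs_of_pos hr0] at hbn
    exact lt_irrefl _ hbn
  have hz0 : ∀ θ, circleMap 0 r θ ≠ 0 := fun θ => circleMap_ne_center hr0.ne'
  have ck : Continuous fun θ => k (circleMap 0 r θ) := cont_circ hk.continuousOn hr0.le hr
  have cz := continuous_circleMap 0 r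
  rw [cA_eq] at h1 h2 ⊢
  have i1 : Integrable (fun θ => ((circleMap 0 r θ - 0) / (circleMap 0 r θ - b)) • k (circleMap 0 r θ))
      mT := by
    apply integrable_mT
    exact ((cz.sub continuous_const).div (cz.sub continuous_const) hzb).smul ck
  have i2 : Integrable (fun θ => (circleMap 0 r θ / (circleMap 0 r θ - b) ^ 2) *
      k (circleMap 0 r θ)) mT := by
    apply integrable_mT
    exact (cz.div ((cz.sub continuous_const).pow 2) fun θ => pow_ne_zero 2 (hzb θ)).mul ck
  have i3 := i2.const_mul b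
  rw [← h1, ← h2, ← integral_const_mul, ← integral_add i1 i3]
  congr 1; ext θ
  have e1 : (circleMap 0 r θ) * (starRingEnd ℂ) (circleMap 0 r θ) = (r : ℂ) ^ 2 := by
    rw [Complex.mul_conj, Complex.normSq_eq_norm_sq, norm_circleMap_zero, abs_of_pos hr0]
    push_cast; rfl
  have e2 : (starRingEnd ℂ) (circleMap 0 r θ) = (r : ℂ) ^ 2 / circleMap 0 r θ := by
    rw [eq_div_iff (hz0 θ), mul_comm]; exact e1
  have h3 := hzb θ
  have h4 := hz0 θ
  rw [e2]
  have e3 : 1 - a * ((r : ℂ) ^ 2 / circleMap 0 r θ) = (circleMap 0 r θ - b) / circleMap 0 r θ := by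
    rw [hb]; field_simp
  rw [e3]
  simp only [sub_zero, smul_eq_mul]
  field_simp
  ring

/-- the reproducing formula for integrable holomorphic functions on the disc -/
theorem repro {k : ℂ → ℂ} (hk : DifferentiableOn ℂ k (ball 0 1))
    (hi : IntegrableOn k (ball 0 1)) {a : ℂ} (ha : ‖a‖ < 1) :
    ∫ z in ball 0 1, k z / (1 - a * (starRingEnd ℂ) z) ^ 2 = Real.pi * k a := by
  have hne : ∀ z ∈ ball (0 : ℂ) 1, 1 - a * (starRingEnd ℂ) z ≠ 0 := by
    intro z hz h
    rw [mem_ball_zero_iff] at hz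
    have h1 : a * (starRingEnd ℂ) z = 1 := by linear_combination -h
    have h2 : ‖a‖ * ‖z‖ = 1 := by
      rw [← Complex.norm_conj z, ← norm_mul, h1, norm_one]
    nlinarith [norm_nonneg a, norm_nonneg z]
  have hlow : ∀ z ∈ ball (0 : ℂ) 1, 1 - ‖a‖ ≤ ‖1 - a * (starRingEnd ℂ) z‖ := by
    intro z hz
    rw [mem_ball_zero_iff] at hz
    have h1 := norm_sub_norm_le (1 : ℂ) (a * (starRingEnd ℂ) z)
    rw [norm_one, norm_mul, Complex.norm_conj] at h1
    nlinarith [norm_nonneg a, norm_nonneg z]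
  have cc : ContinuousOn (fun z => 1 - a * (starRingEnd ℂ) z) (ball 0 1) :=
    (continuous_const.sub (continuous_const.mul continuous_conj)).continuousOn
  have hc : ContinuousOn (fun z => k z / (1 - a * (starRingEnd ℂ) z) ^ 2) (ball 0 1) :=
    hk.continuousOn.div (cc.pow 2) fun z hz => pow_ne_zero 2 (hne z hz)
  have hi2 : IntegrableOn (fun z => k z / (1 - a * (starRingEnd ℂ) z) ^ 2) (ball 0 1) := by
    refine Integrable.mono' (hi.norm.const_mul (1 / (1 - ‖a‖) ^ 2))
      (hc.aestronglyMeasurable measurableSet_ball) ?_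
    filter_upwards [ae_restrict_mem measurableSet_ball] with z hz
    rw [norm_div, norm_pow]
    have h1 := hlow z hz
    have h2 : 0 < 1 - ‖a‖ := by linarith
    rw [div_mul_eq_mul_div, one_mul]
    gcongr
  rw [polar_disc hc hi2]
  have e1 : ∀ r ∈ Ioo (0 : ℝ) 1, (r : ℝ) • ((2 * Real.pi) • Real.circleAverage
      (fun z => k z / (1 - a * (starRingEnd ℂ) z) ^ 2) 0 r) =
      Real.pi * (2 * r * k (a * r ^ 2) + (r : ℂ) ^ 2 * (deriv k (a * r ^ 2) * (a * (2 * r)))) := by
    intro r hr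
    rw [cA_sq hk ha hr.1 hr.2]
    simp only [Complex.real_smul]
    push_cast
    ring
  rw [setIntegral_congr_fun measurableSet_Ioo e1, ← integral_Ioc_eq_integral_Ioo,
    ← intervalIntegral.integral_of_le zero_le_one, intervalIntegral.integral_const_mul]
  congr 1
  have hmem : ∀ r ∈ Icc (0 : ℝ) 1, a * (r : ℂ) ^ 2 ∈ ball (0 : ℂ) 1 := by
    intro r hr
    rw [mem_ball_zero_iff, norm_mul, norm_pow, Complex.norm_real, Real.norm_of_nonneg hr.1]
    have : r ^ 2 ≤ 1 := by nlinarith [hr.1, hr.2]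
    nlinarith [norm_nonneg a, sq_nonneg r]
  have hd : ∀ r ∈ Icc (0 : ℝ) 1, HasDerivAt (fun r : ℝ => (r : ℂ) ^ 2 * k (a * (r : ℂ) ^ 2))
      (2 * r * k (a * r ^ 2) + (r : ℂ) ^ 2 * (deriv k (a * r ^ 2) * (a * (2 * r)))) r := by
    intro r hr
    have h1 : HasDerivAt (fun r : ℝ => (r : ℂ) ^ 2) (2 * r) r := by
      have h0 : HasDerivAt (fun r : ℝ => (r : ℂ)) 1 r := by
        simpa using (hasDerivAt_id r).ofReal_comp
      have := h0.fun_pow 2
      simpa using this
    have h2 : HasDerivAt k (deriv k (a * (r : ℂ) ^ 2)) (a * (r : ℂ) ^ 2) :=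
      ((hk _ (hmem r hr)).differentiableAt (isOpen_ball.mem_nhds (hmem r hr))).hasDerivAt
    have h3 := h2.comp r (h1.const_mul a)
    exact h1.mul h3
  have hdc : ContinuousOn (deriv k) (ball 0 1) := (hk.deriv isOpen_ball).continuousOn
  have hint : IntervalIntegrable (fun r : ℝ => 2 * (r : ℂ) * k (a * (r : ℂ) ^ 2) +
      (r : ℂ) ^ 2 * (deriv k (a * (r : ℂ) ^ 2) * (a * (2 * (r : ℂ))))) volume 0 1 := by
    apply ContinuousOn.intervalIntegrable
    rw [uIcc_of_le zero_le_one]
    have cr : ContinuousOn (fun r : ℝ => (r : ℂ)) (Icc 0 1) := continuous_ofReal.continuousOn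
    have ca : ContinuousOn (fun r : ℝ => a * (r : ℂ) ^ 2) (Icc 0 1) :=
      continuousOn_const.mul (cr.pow 2)
    exact ((continuousOn_const.mul cr).mul (hk.continuousOn.comp ca hmem)).add
      ((cr.pow 2).mul ((hdc.comp ca hmem).mul (continuousOn_const.mul (continuousOn_const.mul cr))))
  rw [intervalIntegral.integral_eq_sub_of_hasDerivAt (f := fun r : ℝ => (r : ℂ) ^ 2 *
    k (a * (r : ℂ) ^ 2)) (fun r hr => hd r (by rwa [uIcc_of_le zero_le_one] at hr)) hint]
  simp

end

end Pool.Agent.X105.BE
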