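import Pool.Agent.X105.BE.Circ

set_option autoImplicit false

namespace Pool.Agent.X105.BE

open MeasureTheory Complex Set Metric ComplexConjugate

noncomputable section

/-- Calderon's elementary inequality -/
lemma calderon {q : ℝ} (hq1 : 1 < q) (hq2 : q ≤ 2) : ∃ A B : ℝ, 0 < A ∧ 0 < B ∧
    ∀ w : ℂ, 0 < w.re → ‖w‖ ^ q ≤ A * w.re ^ q - B * (w ^ (q : ℂ)).re := by
  have hpi := Real.pi_pos
  set φ0 : ℝ := Real.pi * (q + 1) / (4 * q) with hφ0
  have hq0 : 0 < q := by linarith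
  have h1 : φ0 < Real.pi / 2 := by
    rw [hφ0, div_lt_div_iff₀ (by positivity) (by norm_num)]
    nlinarith
  have h0 : 0 < φ0 := by positivity
  have h2 : q * φ0 = Real.pi * (q + 1) / 4 := by rw [hφ0]; field_simp
  have h3 : Real.pi / 2 < q * φ0 := by rw [h2]; nlinarith
  have h4 : q * φ0 ≤ Real.pi := by rw [h2]; nlinarith
  have hc : Real.cos (q * φ0) < 0 := Real.cos_neg_of_pi_div_two_lt_of_lt h3 (by linarith)
  have hc0 : 0 < Real.cos φ0 := Real.cos_pos_of_mem_Ioo ⟨by linarith, h1⟩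
  set B : ℝ := 1 / (-Real.cos (q * φ0)) with hB
  have hB0 : 0 < B := by rw [hB]; exact one_div_pos.2 (by linarith)
  set A : ℝ := (1 + B) / (Real.cos φ0) ^ q with hA
  have hcq : 0 < (Real.cos φ0) ^ q := Real.rpow_pos_of_pos hc0 q
  have hA0 : 0 < A := by positivity
  refine ⟨A, B, hA0, hB0, fun w hw => ?_⟩
  have hw0 : w ≠ 0 := by rintro rfl; simp at hw
  have hn : 0 < ‖w‖ := norm_pos_iff.2 hw0
  have harg : |arg w| < Real.pi / 2 := Complex.abs_arg_lt_pi_div_two_iff.2 (Or.inl hw)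
  have hre : w.re = ‖w‖ * Real.cos |arg w| := by rw [Real.cos_abs, Complex.norm_mul_cos_arg]
  have hcos : 0 < Real.cos |arg w| :=
    Real.cos_pos_of_mem_Ioo ⟨by linarith [abs_nonneg (arg w)], harg⟩
  have hre2 : w.re ^ q = ‖w‖ ^ q * Real.cos |arg w| ^ q := by
    rw [hre, Real.mul_rpow hn.le hcos.le]
  have hpow : (w ^ (q : ℂ)).re = ‖w‖ ^ q * Real.cos (q * |arg w|) := by
    rw [Complex.cpow_ofReal_re]
    congr 1
    rw [← Real.cos_abs (arg w * q), abs_mul, abs_of_pos hq0, mul_comm]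
  rw [hre2, hpow]
  set φ := |arg w| with hφ
  have hφn : 0 ≤ φ := abs_nonneg _
  have key : 1 ≤ A * Real.cos φ ^ q - B * Real.cos (q * φ) := by
    rcases le_total φ0 φ with hle | hle
    · have m1 : q * φ0 ≤ q * φ := by gcongr
      have m2 : q * φ ≤ Real.pi := by nlinarith
      have m3 : Real.cos (q * φ) ≤ Real.cos (q * φ0) :=
        Real.cos_le_cos_of_nonneg_of_le_pi (by positivity) m2 m1
      have m4 : B * (-Real.cos (q * φ0)) = 1 := by
        rw [hB]; exact div_mul_cancel₀ 1 (by linarith)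
      have m5 : 0 ≤ A * Real.cos φ ^ q := by positivity
      nlinarith
    · have m1 : Real.cos φ0 ≤ Real.cos φ :=
        Real.cos_le_cos_of_nonneg_of_le_pi hφn (by linarith) hle
      have m2 : Real.cos φ0 ^ q ≤ Real.cos φ ^ q := by gcongr
      have m3 : A * Real.cos φ0 ^ q = 1 + B := by rw [hA]; exact div_mul_cancel₀ _ hcq.ne'
      have m4 : Real.cos (q * φ) ≤ 1 := Real.cos_le_one _
      nlinarith
  have hnq : 0 < ‖w‖ ^ q := Real.rpow_pos_of_pos hn q
  calc ‖w‖ ^ q = ‖w‖ ^ q * 1 := by ring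
    _ ≤ ‖w‖ ^ q * (A * Real.cos φ ^ q - B * Real.cos (q * φ)) := by gcongr
    _ = _ := by ring

lemma cont_circ {f : ℂ → ℂ} (hf : ContinuousOn f (ball 0 1)) {r : ℝ} (hr0 : 0 ≤ r) (hr : r < 1) :
    Continuous fun θ => f (circleMap 0 r θ) :=
  hf.comp_continuous (continuous_circleMap 0 r) fun θ => by
    rw [mem_ball_zero_iff, norm_circleMap_zero, abs_of_nonneg hr0]; exact hr

/-- the main step: positive functions -/
lemma herg {q A B : ℝ} (hq1 : 1 < q) (hB : 0 < B)
    (hAB : ∀ w : ℂ, 0 < w.re → ‖w‖ ^ q ≤ A * w.re ^ q - B * (w ^ (q : ℂ)).re) (hA : 0 < A)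
    {v : ℝ → ℝ} (hv : Continuous v) (hv1 : ∀ θ, 1 ≤ v θ) {r : ℝ} (hr0 : 0 ≤ r) (hr : r < 1) :
    ∫ φ, ‖Hg (fun θ => (v θ : ℂ)) (circleMap 0 r φ)‖ ^ q ∂mT ≤ A * ∫ θ, v θ ^ q ∂mT := by
  have hvc : Continuous fun θ => (v θ : ℂ) := continuous_ofReal.comp hv
  have hvp : ∀ θ, 0 < v θ := fun θ => by linarith [hv1 θ]
  set f := Hg (fun θ => (v θ : ℂ)) with hf
  have hfd : DifferentiableOn ℂ f (ball 0 1) := diffOn_Hg hvc
  have hre : ∀ z : ℂ, ‖z‖ < 1 → 1 ≤ (f z).re := by
    intro z hz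
    rw [hf, re_Hg hv hz, ← int_Pk hz]
    apply integral_mono (integrable_mT (Pk_cont hz)) (integrable_mT (hv.mul (Pk_cont hz)))
    intro θ
    have := Pk_pos hz θ
    have := hv1 θ
    simp only [Pi.mul_apply]
    nlinarith
  have hq0 : 0 < q := by linarith
  have hvq : Continuous fun θ => v θ ^ q := hv.rpow_const fun θ => Or.inr hq0.le
  have hvqc : Continuous fun θ => ((v θ ^ q : ℝ) : ℂ) := continuous_ofReal.comp hvq
  set h := Hg (fun θ => ((v θ ^ q : ℝ) : ℂ)) with hh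
  have hhd : DifferentiableOn ℂ h (ball 0 1) := diffOn_Hg hvqc
  have hpd : DifferentiableOn ℂ (fun z => f z ^ (q : ℂ)) (ball 0 1) := by
    apply hfd.cpow_const
    intro z hz
    left
    exact lt_of_lt_of_le one_pos (hre z (mem_ball_zero_iff.1 hz))
  have hcm : ∀ φ, ‖circleMap 0 r φ‖ < 1 := fun φ => by
    rw [norm_circleMap_zero, abs_of_nonneg hr0]; exact hr
  have cf := cont_circ hfd.continuousOn hr0 hr
  have ch := cont_circ hhd.continuousOn hr0 hr
  have cp := cont_circ hpd.continuousOn hr0 hr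
  have j1 : ∀ φ, ‖f (circleMap 0 r φ)‖ ^ q ≤
      A * (h (circleMap 0 r φ)).re - B * (f (circleMap 0 r φ) ^ (q : ℂ)).re := by
    intro φ
    have h1 := hre _ (hcm φ)
    have h2 := hAB (f (circleMap 0 r φ)) (by linarith)
    have h3 : (f (circleMap 0 r φ)).re ^ q ≤ (h (circleMap 0 r φ)).re := by
      rw [hh, re_Hg hvq (hcm φ)]
      have h4 := re_Hg hv (hcm φ)
      rw [← hf] at h4
      rw [h4] at h1 ⊢
      exact jensen hv hvp hq1.le (hcm φ) (by linarith)
    nlinarith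
  have i1 : Integrable (fun φ => ‖f (circleMap 0 r φ)‖ ^ q) mT :=
    integrable_mT (cf.norm.rpow_const fun θ => Or.inr hq0.le)
  have i2 : Integrable (fun φ => (h (circleMap 0 r φ)).re) mT :=
    integrable_mT (continuous_re.comp ch)
  have i3 : Integrable (fun φ => (f (circleMap 0 r φ) ^ (q : ℂ)).re) mT :=
    integrable_mT (continuous_re.comp cp)
  have j2 := integral_mono i1 ((i2.const_mul A).sub (i3.const_mul B)) j1
  have j3 : ∫ φ, (h (circleMap 0 r φ)).re ∂mT = ∫ θ, v θ ^ q ∂mT := by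
    have := integral_re (integrable_mT ch)
    simp only [RCLike.re_to_complex] at this
    rw [this, mean_value hhd hr0 hr, hh, Hg_zero, integral_complex_ofReal, ofReal_re]
  have j4 : 0 ≤ ∫ φ, (f (circleMap 0 r φ) ^ (q : ℂ)).re ∂mT := by
    have := integral_re (integrable_mT cp)
    simp only [RCLike.re_to_complex] at this
    rw [this, mean_value hpd hr0 hr, hf, Hg_zero, integral_complex_ofReal]
    have h5 : 0 ≤ ∫ θ, v θ ∂mT := integral_nonneg fun θ => (hvp θ).le
    rw [← ofReal_cpow h5, ofReal_re]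
    positivity
  refine j2.trans ?_
  simp only [Pi.sub_apply]
  rw [integral_sub (i2.const_mul A) (i3.const_mul B), integral_const_mul, integral_const_mul, j3]
  nlinarith

lemma rpow_add_le {a b q : ℝ} (ha : 0 ≤ a) (hb : 0 ≤ b) (hq : 0 ≤ q) :
    (a + b) ^ q ≤ 2 ^ q * (a ^ q + b ^ q) := by
  have h1 : a + b ≤ 2 * max a b := by
    have := le_max_left a b; have := le_max_right a b; linarith
  have h2 : (max a b) ^ q ≤ a ^ q + b ^ q := by
    rcases le_total a b with h | h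
    · rw [max_eq_right h]; linarith [Real.rpow_nonneg ha q]
    · rw [max_eq_left h]; linarith [Real.rpow_nonneg hb q]
  have h3 : 0 ≤ max a b := ha.trans (le_max_left _ _)
  calc (a + b) ^ q ≤ (2 * max a b) ^ q := Real.rpow_le_rpow (by positivity) h1 hq
    _ = 2 ^ q * (max a b) ^ q := Real.mul_rpow (by norm_num) h3
    _ ≤ _ := by gcongr

/-- boundedness of the Cauchy projection -/
def RB (q : ℝ) : Prop := ∃ C : ℝ, 0 ≤ C ∧ ∀ w : ℝ → ℂ, Continuous w → ∫ θ, ‖w θ‖ ^ q ∂mT ≤ 1 →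
  ∀ r : ℝ, 0 ≤ r → r < 1 → ∫ φ, ‖CP w (circleMap 0 r φ)‖ ^ q ∂mT ≤ C

lemma int_one : ∫ _θ : ℝ, (1 : ℝ) ∂mT = 1 := by simp [measureReal_def]

lemma RB_small {q : ℝ} (hq1 : 1 < q) (hq2 : q ≤ 2) : RB q := by
  obtain ⟨A, B, hA, hB, hAB⟩ := calderon hq1 hq2
  have hq0 : 0 < q := by linarith
  refine ⟨2 ^ q * (2 ^ q * (2 ^ q * (A * (2 ^ q * (1 + 1)) + A * (2 ^ q * (1 + 1))) +
    2 ^ q * (A * (2 ^ q * (1 + 1)) + A * (2 ^ q * (1 + 1)))) + 2 ^ q), by positivity, ?_⟩
  intro w hw hw1 r hr0 hr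
  -- the four positive parts
  have main : ∀ s : ℝ → ℝ, Continuous s → (∀ θ, |s θ| ≤ ‖w θ‖) →
      ∫ φ, ‖Hg (fun θ => ((max (s θ) 0 + 1 : ℝ) : ℂ)) (circleMap 0 r φ)‖ ^ q ∂mT ≤
        A * (2 ^ q * (1 + 1)) := by
    intro s hs hsw
    have hc : Continuous fun θ => max (s θ) 0 + 1 := (hs.max continuous_const).add continuous_const
    refine (herg hq1 hB hAB hA hc (fun θ => by linarith [le_max_right (s θ) 0]) hr0 hr).trans ?_
    refine mul_le_mul_of_nonneg_left ?_ hA.le
    have hwq : Integrable (fun θ => ‖w θ‖ ^ q) mT :=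
      integrable_mT (hw.norm.rpow_const fun θ => Or.inr hq0.le)
    calc ∫ θ, (max (s θ) 0 + 1) ^ q ∂mT ≤ ∫ θ, 2 ^ q * (‖w θ‖ ^ q + 1) ∂mT := by
          apply integral_mono
          · exact integrable_mT (hc.rpow_const fun θ => Or.inr hq0.le)
          · exact (hwq.add (integrable_const _)).const_mul _
          · intro θ
            simp only
            refine (rpow_add_le (le_max_right _ _) zero_le_one hq0.le).trans ?_
            rw [Real.one_rpow]
            have h1 : max (s θ) 0 ≤ ‖w θ‖ :=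
              max_le ((le_abs_self _).trans (hsw θ)) (norm_nonneg _)
            have h2 : (max (s θ) 0) ^ q ≤ ‖w θ‖ ^ q :=
              Real.rpow_le_rpow (le_max_right _ _) h1 hq0.le
            gcongr
      _ ≤ 2 ^ q * (1 + 1) := by
          rw [integral_const_mul, integral_add hwq (integrable_const _), int_one]
          gcongr
  have c1 : Continuous fun θ => (w θ).re := continuous_re.comp hw
  have c2 : Continuous fun θ => (w θ).im := continuous_im.comp hw
  have m1 := main _ c1 fun θ => abs_re_le_norm _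
  have m2 := main (fun θ => -(w θ).re) c1.neg fun θ => by rw [abs_neg]; exact abs_re_le_norm _
  have m3 := main _ c2 fun θ => abs_im_le_norm _
  have m4 := main (fun θ => -(w θ).im) c2.neg fun θ => by rw [abs_neg]; exact abs_im_le_norm _
  set v1 : ℝ → ℂ := fun θ => ((max (w θ).re 0 + 1 : ℝ) : ℂ) with hv1
  set v2 : ℝ → ℂ := fun θ => ((max (-(w θ).re) 0 + 1 : ℝ) : ℂ) with hv2
  set v3 : ℝ → ℂ := fun θ => ((max (w θ).im 0 + 1 : ℝ) : ℂ) with hv3
  set v4 : ℝ → ℂ := fun θ => ((max (-(w θ).im) 0 + 1 : ℝ) : ℂ) with hv4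
  have d1 : Continuous v1 := continuous_ofReal.comp ((c1.max continuous_const).add continuous_const)
  have d2 : Continuous v2 :=
    continuous_ofReal.comp ((c1.neg.max continuous_const).add continuous_const)
  have d3 : Continuous v3 := continuous_ofReal.comp ((c2.max continuous_const).add continuous_const)
  have d4 : Continuous v4 :=
    continuous_ofReal.comp ((c2.neg.max continuous_const).add continuous_const)
  have hdec : ∀ θ, w θ = (v1 θ - v2 θ) + I * (v3 θ - v4 θ) := by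
    intro θ
    have e1 : ∀ x : ℝ, x = (max x 0 + 1) - (max (-x) 0 + 1) := by
      intro x
      rcases le_total x 0 with h | h
      · rw [max_eq_right h, max_eq_left (by linarith)]; ring
      · rw [max_eq_left h, max_eq_right (by linarith)]; ring
    have e2 : (v1 θ - v2 θ) = (((w θ).re : ℝ) : ℂ) := by
      rw [hv1, hv2]; simp only
      rw [← ofReal_sub, ← e1]
    have e3 : (v3 θ - v4 θ) = (((w θ).im : ℝ) : ℂ) := by
      rw [hv3, hv4]; simp only
      rw [← ofReal_sub, ← e1]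
    rw [e2, e3]
    conv_lhs => rw [← Complex.re_add_im (w θ)]
    ring
  -- the bound for the integral of `w`
  have hm : ‖∫ θ, w θ ∂mT‖ ^ q ≤ 2 ^ q := by
    have h1 : ‖∫ θ, w θ ∂mT‖ ≤ 2 := by
      refine (norm_integral_le_integral_norm _).trans ?_
      calc ∫ θ, ‖w θ‖ ∂mT ≤ ∫ θ, ‖w θ‖ ^ q + 1 ∂mT := by
            apply integral_mono (integrable_mT hw.norm)
            · exact (integrable_mT (hw.norm.rpow_const fun θ => Or.inr hq0.le)).add
                (integrable_const _)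
            · intro θ
              simp only
              rcases le_total ‖w θ‖ 1 with h | h
              · have : 0 ≤ ‖w θ‖ ^ q := by positivity
                linarith
              · have : ‖w θ‖ ≤ ‖w θ‖ ^ q := by
                  conv_lhs => rw [← Real.rpow_one ‖w θ‖]
                  exact Real.rpow_le_rpow_of_exponent_le h hq1.le
                linarith
        _ ≤ 2 := by
            rw [integral_add (integrable_mT (hw.norm.rpow_const fun θ => Or.inr hq0.le))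
              (integrable_const _), int_one]
            linarith
    exact Real.rpow_le_rpow (norm_nonneg _) h1 hq0.le
  have hcm : ∀ φ, ‖circleMap 0 r φ‖ < 1 := fun φ => by
    rw [norm_circleMap_zero, abs_of_nonneg hr0]; exact hr
  have hCP : ∀ z : ℂ, ‖z‖ < 1 → CP w z =
      (1 / 2) * (((Hg v1 z - Hg v2 z) + I * (Hg v3 z - Hg v4 z)) + ∫ θ, w θ ∂mT) := by
    intro z hz
    have ck : Continuous fun θ => 2 * (ec θ / (ec θ - z)) - 1 :=
      (continuous_const.mul (cont_ker hz)).sub continuous_const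
    have h1 : Hg w z = (Hg v1 z - Hg v2 z) + I * (Hg v3 z - Hg v4 z) := by
      rw [Hg_eq hw hz, Hg_eq d1 hz, Hg_eq d2 hz, Hg_eq d3 hz, Hg_eq d4 hz]
      have k1 : Integrable (fun θ => v1 θ * (2 * (ec θ / (ec θ - z)) - 1)) mT :=
        integrable_mT (d1.mul ck)
      have k2 : Integrable (fun θ => v2 θ * (2 * (ec θ / (ec θ - z)) - 1)) mT :=
        integrable_mT (d2.mul ck)
      have k3 : Integrable (fun θ => v3 θ * (2 * (ec θ / (ec θ - z)) - 1)) mT :=
        integrable_mT (d3.mul ck)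
      have k4 : Integrable (fun θ => v4 θ * (2 * (ec θ / (ec θ - z)) - 1)) mT :=
        integrable_mT (d4.mul ck)
      have k12 : Integrable (fun θ => v1 θ * (2 * (ec θ / (ec θ - z)) - 1) -
        v2 θ * (2 * (ec θ / (ec θ - z)) - 1)) mT := k1.sub k2
      have k34 : Integrable (fun θ => I * (v3 θ * (2 * (ec θ / (ec θ - z)) - 1) -
        v4 θ * (2 * (ec θ / (ec θ - z)) - 1))) mT := (k3.sub k4).const_mul I
      rw [← integral_sub k1 k2, ← integral_sub k3 k4, ← integral_const_mul,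
        ← integral_add k12 k34]
      congr 1; ext θ
      rw [hdec θ]; ring
    rw [← h1, Hg]; ring
  set z := fun φ => circleMap 0 r φ with hz
  have n1 := cont_circ (diffOn_Hg d1).continuousOn hr0 hr
  have n2 := cont_circ (diffOn_Hg d2).continuousOn hr0 hr
  have n3 := cont_circ (diffOn_Hg d3).continuousOn hr0 hr
  have n4 := cont_circ (diffOn_Hg d4).continuousOn hr0 hr
  have i1 : Integrable (fun φ => ‖Hg v1 (circleMap 0 r φ)‖ ^ q) mT :=
    integrable_mT (n1.norm.rpow_const fun θ => Or.inr hq0.le)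
  have i2 : Integrable (fun φ => ‖Hg v2 (circleMap 0 r φ)‖ ^ q) mT :=
    integrable_mT (n2.norm.rpow_const fun θ => Or.inr hq0.le)
  have i3 : Integrable (fun φ => ‖Hg v3 (circleMap 0 r φ)‖ ^ q) mT :=
    integrable_mT (n3.norm.rpow_const fun θ => Or.inr hq0.le)
  have i4 : Integrable (fun φ => ‖Hg v4 (circleMap 0 r φ)‖ ^ q) mT :=
    integrable_mT (n4.norm.rpow_const fun θ => Or.inr hq0.le)
  have i0 : Integrable (fun φ => ‖CP w (circleMap 0 r φ)‖ ^ q) mT :=
    integrable_mT ((cont_circ (diffOn_CP hw).continuousOn hr0 hr).norm.rpow_const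
      fun θ => Or.inr hq0.le)
  have hpt : ∀ φ, ‖CP w (circleMap 0 r φ)‖ ^ q ≤
      2 ^ q * (2 ^ q * (2 ^ q * (‖Hg v1 (circleMap 0 r φ)‖ ^ q + ‖Hg v2 (circleMap 0 r φ)‖ ^ q) +
        2 ^ q * (‖Hg v3 (circleMap 0 r φ)‖ ^ q + ‖Hg v4 (circleMap 0 r φ)‖ ^ q)) + 2 ^ q) := by
    intro φ
    rw [hCP _ (hcm φ)]
    set a1 := Hg v1 (circleMap 0 r φ)
    set a2 := Hg v2 (circleMap 0 r φ)
    set a3 := Hg v3 (circleMap 0 r φ)
    set a4 := Hg v4 (circleMap 0 r φ)
    set m := ∫ θ, w θ ∂mT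
    have s0 : ‖(1 / 2 : ℂ) * (((a1 - a2) + I * (a3 - a4)) + m)‖ ≤
        (‖a1‖ + ‖a2‖) + (‖a3‖ + ‖a4‖) + ‖m‖ := by
      have t1 : ‖(1 / 2 : ℂ)‖ = 1 / 2 := by norm_num
      have t2 : ‖((a1 - a2) + I * (a3 - a4)) + m‖ ≤ (‖a1‖ + ‖a2‖) + (‖a3‖ + ‖a4‖) + ‖m‖ := by
        refine (norm_add_le _ _).trans (add_le_add_left ?_ _)
        refine (norm_add_le _ _).trans (add_le_add (norm_sub_le _ _) ?_)
        rw [norm_mul, norm_I, one_mul]
        exact norm_sub_le _ _
      rw [norm_mul, t1]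
      have := norm_nonneg (((a1 - a2) + I * (a3 - a4)) + m)
      linarith
    calc ‖(1 / 2 : ℂ) * (((a1 - a2) + I * (a3 - a4)) + m)‖ ^ q ≤
        ((‖a1‖ + ‖a2‖) + (‖a3‖ + ‖a4‖) + ‖m‖) ^ q := Real.rpow_le_rpow (norm_nonneg _) s0 hq0.le
      _ ≤ 2 ^ q * (((‖a1‖ + ‖a2‖) + (‖a3‖ + ‖a4‖)) ^ q + ‖m‖ ^ q) :=
        rpow_add_le (by positivity) (by positivity) hq0.le
      _ ≤ 2 ^ q * (2 ^ q * ((‖a1‖ + ‖a2‖) ^ q + (‖a3‖ + ‖a4‖) ^ q) + 2 ^ q) := by
        gcongr
        exact rpow_add_le (by positivity) (by positivity) hq0.le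
      _ ≤ _ := by
        gcongr
        · exact rpow_add_le (by positivity) (by positivity) hq0.le
        · exact rpow_add_le (by positivity) (by positivity) hq0.le
  have iR : Integrable (fun φ => 2 ^ q * (2 ^ q * (2 ^ q * (‖Hg v1 (circleMap 0 r φ)‖ ^ q +
        ‖Hg v2 (circleMap 0 r φ)‖ ^ q) +
        2 ^ q * (‖Hg v3 (circleMap 0 r φ)‖ ^ q + ‖Hg v4 (circleMap 0 r φ)‖ ^ q)) + 2 ^ q)) mT :=
    (((((i1.add i2).const_mul _).add ((i3.add i4).const_mul _)).const_mul _).add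
      (integrable_const _)).const_mul _
  refine (integral_mono i0 iR hpt).trans ?_
  have e12 : Integrable (fun φ => 2 ^ q * (‖Hg v1 (circleMap 0 r φ)‖ ^ q +
        ‖Hg v2 (circleMap 0 r φ)‖ ^ q)) mT := (i1.add i2).const_mul _
  have e34 : Integrable (fun φ => 2 ^ q * (‖Hg v3 (circleMap 0 r φ)‖ ^ q +
        ‖Hg v4 (circleMap 0 r φ)‖ ^ q)) mT := (i3.add i4).const_mul _
  have e14 : Integrable (fun φ => 2 ^ q * (2 ^ q * (‖Hg v1 (circleMap 0 r φ)‖ ^ q +
        ‖Hg v2 (circleMap 0 r φ)‖ ^ q) + 2 ^ q * (‖Hg v3 (circleMap 0 r φ)‖ ^ q +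
        ‖Hg v4 (circleMap 0 r φ)‖ ^ q))) mT := (e12.add e34).const_mul _
  rw [integral_const_mul, integral_add e14 (integrable_const _), integral_const_mul,
    integral_add e12 e34, integral_const_mul, integral_const_mul, integral_add i1 i2,
    integral_add i3 i4, integral_const]
  simp only [measureReal_def, measure_univ, ENNReal.toReal_one, one_smul]
  gcongr

end

end Pool.Agent.X105.BE
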