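import Mathlib

set_option autoImplicit false

namespace Pool.Agent.X105.BE

open MeasureTheory Complex Set Metric ComplexConjugate

noncomputable section

/-- the real-linear map `v ↦ a v + b conj v` -/
def wl (a b : ℂ) : ℂ →L[ℝ] ℂ :=
  a • (ContinuousLinearMap.id ℝ ℂ) + b • (conjCLE : ℂ →L[ℝ] ℂ)

@[simp] lemma wl_apply (a b v : ℂ) : wl a b v = a * v + b * conj v := by
  simp [wl]

/-- `G` is real differentiable at `z` with Wirtinger derivatives `a = ∂G` and `b = ∂̄G` -/
def HW (G : ℂ → ℂ) (a b z : ℂ) : Prop := HasFDerivAt G (wl a b) z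

lemma HW.congr_val {G : ℂ → ℂ} {a b a' b' z : ℂ} (h : HW G a b z) (ha : a = a') (hb : b = b') :
    HW G a' b' z := by
  subst ha; subst hb; exact h

lemma HW.of_hasDerivAt {f : ℂ → ℂ} {f' z : ℂ} (h : HasDerivAt f f' z) : HW f f' 0 z := by
  have := h.hasFDerivAt.restrictScalars ℝ
  exact this.congr_fderiv (ContinuousLinearMap.ext fun v => by simp [mul_comm])

lemma HW.conj {G : ℂ → ℂ} {a b z : ℂ} (h : HW G a b z) :
    HW (fun z => conj (G z)) (conj b) (conj a) z := by
  have : HasFDerivAt (fun z => (starRingEnd ℂ) (G z)) ((conjCLE : ℂ →L[ℝ] ℂ).comp (wl a b)) z :=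
    (conjCLE : ℂ →L[ℝ] ℂ).hasFDerivAt.comp z h
  exact this.congr_fderiv (ContinuousLinearMap.ext fun v => by simp; ring)

lemma HW.add {G H : ℂ → ℂ} {a b c d z : ℂ} (h : HW G a b z) (h' : HW H c d z) :
    HW (fun z => G z + H z) (a + c) (b + d) z := by
  have := HasFDerivAt.fun_add h h'
  exact this.congr_fderiv (ContinuousLinearMap.ext fun v => by simp; ring)

lemma HW.mul {G H : ℂ → ℂ} {a b c d z : ℂ} (h : HW G a b z) (h' : HW H c d z) :
    HW (fun z => G z * H z) (a * H z + G z * c) (b * H z + G z * d) z := by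
  have := HasFDerivAt.fun_mul h h'
  exact this.congr_fderiv (ContinuousLinearMap.ext fun v => by simp; ring)

lemma HW.const (c z : ℂ) : HW (fun _ => c) 0 0 z := by
  exact (hasFDerivAt_const (𝕜 := ℝ) c z).congr_fderiv (ContinuousLinearMap.ext fun v => by simp)

lemma HW.const_mul {G : ℂ → ℂ} {a b z : ℂ} (c : ℂ) (h : HW G a b z) :
    HW (fun z => c * G z) (c * a) (c * b) z := by
  refine ((HW.const c z).mul h).congr_val (by ring) (by ring)

lemma HW.id (z : ℂ) : HW (fun z => z) 1 0 z := HW.of_hasDerivAt (hasDerivAt_id z)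

lemma HW.conjid (z : ℂ) : HW (fun z => (starRingEnd ℂ) z) 0 1 z := by
  simpa using (HW.id z).conj

/-- composition with a real function of a real variable -/
lemma HW.comp_real {R : ℂ → ℝ} {a b z : ℂ} (h : HW (fun z => (R z : ℂ)) a b z) {ψ : ℝ → ℝ}
    {ψ' : ℝ} (hψ : HasDerivAt ψ ψ' (R z)) :
    HW (fun z => ((ψ (R z) : ℝ) : ℂ)) (ψ' * a) (ψ' * b) z := by
  have h1 : HasFDerivAt R (reCLM.comp (wl a b)) z := by
    have := (reCLM : ℂ →L[ℝ] ℝ).hasFDerivAt.comp z h
    simpa [Function.comp_def] using this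
  have h2 : HasFDerivAt (fun z => (R z : ℂ)) (ofRealCLM.comp (reCLM.comp (wl a b))) z := by
    have := (ofRealCLM : ℝ →L[ℝ] ℂ).hasFDerivAt.comp z h1
    simpa [Function.comp_def] using this
  have h3 : wl a b = ofRealCLM.comp (reCLM.comp (wl a b)) := HasFDerivAt.unique h h2
  have h4 : HasFDerivAt (fun z => ψ (R z)) (ψ' • (reCLM.comp (wl a b))) z :=
    hψ.comp_hasFDerivAt z h1
  have h5 : HasFDerivAt (fun z => ((ψ (R z) : ℝ) : ℂ))
      (ofRealCLM.comp (ψ' • (reCLM.comp (wl a b)))) z := by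
    have := (ofRealCLM : ℝ →L[ℝ] ℂ).hasFDerivAt.comp z h4
    simpa [Function.comp_def] using this
  refine h5.congr_fderiv ?_
  symm
  have h6 : ∀ v : ℂ, wl a b v = ((wl a b v).re : ℂ) := fun v => by
    conv_lhs => rw [h3]
    simp
  refine ContinuousLinearMap.ext fun v => ?_
  have h7 := h6 v
  rw [wl_apply] at h7
  rw [wl_apply, ContinuousLinearMap.comp_apply, _root_.smul_apply,
    ContinuousLinearMap.comp_apply, wl_apply, reCLM_apply, ofRealCLM_apply, smul_eq_mul,
    ofReal_mul, ← h7]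
  ring

lemma HW.normSq (z : ℂ) : HW (fun z => ((‖z‖ ^ 2 : ℝ) : ℂ)) (starRingEnd ℂ z) z z := by
  have := (HW.id z).mul (HW.conjid z)
  have h2 := this.congr_val (a' := starRingEnd ℂ z) (b' := z) (by ring) (by ring)
  refine HasFDerivAt.congr_of_eventuallyEq h2 (Filter.Eventually.of_forall fun w => ?_)
  simp only
  rw [Complex.mul_conj, Complex.normSq_eq_norm_sq]

lemma HW.continuousAt {G : ℂ → ℂ} {a b z : ℂ} (h : HW G a b z) : ContinuousAt G z :=
  HasFDerivAt.continuousAt h

lemma integrable_of_nice {s : ℝ} (hs : s < 1) {f : ℂ → ℂ} (hf : ContinuousOn f (ball 0 1))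
    (h0 : ∀ z, s < ‖z‖ → f z = 0) : Integrable f := by
  have h1 : IntegrableOn f (closedBall 0 s) :=
    (hf.mono (closedBall_subset_ball hs)).integrableOn_compact (isCompact_closedBall 0 s)
  rwa [integrableOn_iff_integrable_of_support_subset] at h1
  intro z hz
  rw [mem_closedBall_zero_iff]
  by_contra hc
  exact hz (h0 z (not_le.mp hc))

/-- integration by parts for the Wirtinger derivatives -/
theorem ibp {s : ℝ} (hs : s < 1) {χ χa χb G Ga Gb : ℂ → ℂ}
    (hχ : ∀ z, HW χ (χa z) (χb z) z) (hχac : Continuous χa) (hχbc : Continuous χb)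
    (h0 : ∀ z, s < ‖z‖ → χ z = 0) (h0a : ∀ z, s < ‖z‖ → χa z = 0) (h0b : ∀ z, s < ‖z‖ → χb z = 0)
    (hG : ∀ z ∈ ball (0 : ℂ) 1, HW G (Ga z) (Gb z) z) (hGa : ContinuousOn Ga (ball 0 1))
    (hGb : ContinuousOn Gb (ball 0 1)) :
    ∫ z, χ z * Ga z = - ∫ z, χa z * G z ∧ ∫ z, χ z * Gb z = - ∫ z, χb z * G z := by
  have hχc : Continuous χ := continuous_iff_continuousAt.2 fun z => (hχ z).continuousAt
  have hGc : ContinuousOn G (ball 0 1) := fun z hz => (hG z hz).continuousAt.continuousWithinAt
  have i1 : Integrable (fun z => χ z * Ga z) := integrable_of_nice hs (hχc.continuousOn.mul hGa)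
    fun z hz => by rw [h0 z hz, zero_mul]
  have i2 : Integrable (fun z => χ z * Gb z) := integrable_of_nice hs (hχc.continuousOn.mul hGb)
    fun z hz => by rw [h0 z hz, zero_mul]
  have i3 : Integrable (fun z => χa z * G z) := integrable_of_nice hs (hχac.continuousOn.mul hGc)
    fun z hz => by rw [h0a z hz, zero_mul]
  have i4 : Integrable (fun z => χb z * G z) := integrable_of_nice hs (hχbc.continuousOn.mul hGc)
    fun z hz => by rw [h0b z hz, zero_mul]
  have i5 : Integrable (fun z => χ z * G z) := integrable_of_nice hs (hχc.continuousOn.mul hGc)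
    fun z hz => by rw [h0 z hz, zero_mul]
  have hts : tsupport χ ⊆ ball 0 1 := by
    have h1 : tsupport χ ⊆ closedBall 0 s := by
      apply closure_minimal _ isClosed_closedBall
      intro z hz
      rw [mem_closedBall_zero_iff]
      by_contra hc
      exact hz (h0 z (not_le.mp hc))
    exact h1.trans (closedBall_subset_ball hs)
  have key : ∀ v : ℂ, ∫ z, χ z * (wl (Ga z) (Gb z) v) = - ∫ z, (wl (χa z) (χb z) v) * G z := by
    intro v
    have := integral_bilinear_hasFDerivAt_right_eq_neg_left_of_integrable (μ := volume)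
      (f := χ) (f' := fun z => wl (χa z) (χb z)) (g := G) (g' := fun z => wl (Ga z) (Gb z))
      (v := v) (B := ContinuousLinearMap.mul ℝ ℂ)
    simp only [ContinuousLinearMap.mul_apply'] at this
    apply this
    · simp only [wl_apply]
      have := (i3.mul_const v).add (i4.mul_const (conj v))
      refine this.congr (Filter.Eventually.of_forall fun z => ?_)
      simp only [Pi.add_apply]
      ring
    · simp only [wl_apply]
      have := (i1.mul_const v).add (i2.mul_const (conj v))
      refine this.congr (Filter.Eventually.of_forall fun z => ?_)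
      simp only [Pi.add_apply]
      ring
    · exact i5
    · exact fun z _ => hχ z
    · exact fun z hz => hG z (hts hz)
  have e1 := key 1
  have e2 := key I
  simp only [wl_apply, map_one, mul_one, conj_I] at e1 e2
  have f1 : ∫ z, χ z * (Ga z + Gb z) = (∫ z, χ z * Ga z) + ∫ z, χ z * Gb z := by
    rw [← integral_add i1 i2]; congr 1; ext z; ring
  have f2 : ∫ z, χ z * (Ga z * I + Gb z * -I) = I * (∫ z, χ z * Ga z) - I * ∫ z, χ z * Gb z := by
    rw [← integral_const_mul, ← integral_const_mul, ← integral_sub (i1.const_mul _) (i2.const_mul _)]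
    congr 1; ext z; ring
  have f3 : ∫ z, (χa z + χb z) * G z = (∫ z, χa z * G z) + ∫ z, χb z * G z := by
    rw [← integral_add i3 i4]; congr 1; ext z; ring
  have f4 : ∫ z, (χa z * I + χb z * -I) * G z = I * (∫ z, χa z * G z) - I * ∫ z, χb z * G z := by
    rw [← integral_const_mul, ← integral_const_mul, ← integral_sub (i3.const_mul _) (i4.const_mul _)]
    congr 1; ext z; ring
  rw [f1, f3] at e1
  rw [f2, f4] at e2
  have hI := Complex.I_mul_I
  constructor
  · linear_combination (1 / 2) * e1 - (I / 2) * e2 + (1/2) * (∫ z, χ z * Ga z) * hI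
      - (1/2) * (∫ z, χ z * Gb z) * hI + (1/2) * (∫ z, χa z * G z) * hI
      - (1/2) * (∫ z, χb z * G z) * hI
  · linear_combination (1 / 2) * e1 + (I / 2) * e2 - (1/2) * (∫ z, χ z * Ga z) * hI
      + (1/2) * (∫ z, χ z * Gb z) * hI - (1/2) * (∫ z, χa z * G z) * hI
      + (1/2) * (∫ z, χb z * G z) * hI

end

end Pool.Agent.X105.BE
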